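import Pool.Agent.H436Z.SteinDefs

set_option autoImplicit false

namespace Pool.Agent.H436Z.Dense

open Pool.Agent.H436Z.Stein

/-- `γ : [0,1] → S` is a continuous curve in `S` that is `ε`-dense: every point of `S` is within
intrinsic distance `ε` of some point of the curve. -/
def IsDenseCurve (S : Set E3) (ε : ℝ) (γ : ℝ → E3) : Prop :=
  ContinuousOn γ (Set.Icc (0:ℝ) 1) ∧ (∀ t ∈ Set.Icc (0:ℝ) 1, γ t ∈ S) ∧
    ∀ x ∈ S, ∃ t ∈ Set.Icc (0:ℝ) 1, idist S x (γ t) ≤ ENNReal.ofReal ε

/-- `L_S(ε)`: the infimum of the lengths (total variations) of the `ε`-dense curves in `S`. -/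
noncomputable def shortestDense (S : Set E3) (ε : ℝ) : ENNReal :=
  ⨅ (γ : ℝ → E3) (_ : IsDenseCurve S ε γ), eVariationOn γ (Set.Icc (0:ℝ) 1)

/-- Surface area: the 2-dimensional Hausdorff measure, normalised to agree with Lebesgue measure
on planes. -/
noncomputable def area (S : Set E3) : ENNReal :=
  MeasureTheory.Measure.euclideanHausdorffMeasure 2 S

end Pool.Agent.H436Z.Dense
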