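import Pool.Agent.H436Z.SteinA
import Pool.Agent.H436Z.DenseDefs

set_option autoImplicit false
open Set ENNReal MeasureTheory Metric
open scoped NNReal

namespace Pool.Agent.H436Z.Dense
open Pool.Agent.H436Z.Stein

abbrev E2 : Type := EuclideanSpace ℝ (Fin 2)

theorem area_image_le {g : E2 → E3} {T : Set E2} {k : ℝ≥0} (h : LipschitzOnWith k g T) :
    area (g '' T) ≤ (k : ℝ≥0∞) ^ 2 * volume T := by
  have h1 := h.hausdorffMeasure_image_le (d := ((2:ℕ):ℝ)) (by positivity)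
  rw [← EuclideanSpace.euclideanHausdorffMeasure_eq_volume 2]
  unfold area
  rw [Measure.euclideanHausdorffMeasure_def, Measure.euclideanHausdorffMeasure_def]
  simp only [Measure.smul_apply, ENNReal.smul_def, smul_eq_mul]
  rw [ENNReal.rpow_natCast] at h1
  calc _ ≤ _ * ((k : ℝ≥0∞) ^ 2 * _) := by gcongr
    _ = _ := by ring

theorem vol_image_le {h : E3 → E2} {T : Set E3} {k : ℝ≥0} (hh : LipschitzOnWith k h T) :
    volume (h '' T) ≤ (k : ℝ≥0∞) ^ 2 * area T := by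
  have h1 := hh.hausdorffMeasure_image_le (d := ((2:ℕ):ℝ)) (by positivity)
  rw [← EuclideanSpace.euclideanHausdorffMeasure_eq_volume 2]
  unfold area
  rw [Measure.euclideanHausdorffMeasure_def, Measure.euclideanHausdorffMeasure_def]
  simp only [Measure.smul_apply, ENNReal.smul_def, smul_eq_mul]
  rw [ENNReal.rpow_natCast] at h1
  calc _ ≤ _ * ((k : ℝ≥0∞) ^ 2 * _) := by gcongr
    _ = _ := by ring

/-- the crescent in coordinates -/
theorem vol_crescent_prod (ρ s : ℝ) (hs : 0 ≤ s) :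
    volume {z : ℝ × ℝ | z.1 ∈ Icc (-ρ) ρ ∧
      z.2 ∈ Ioc (√(ρ ^ 2 - z.1 ^ 2)) (√(ρ ^ 2 - z.1 ^ 2) + s)} ≤ ENNReal.ofReal (2 * ρ * s) := by
  have hm : MeasurableSet {z : ℝ × ℝ | z.1 ∈ Icc (-ρ) ρ ∧
      z.2 ∈ Ioc (√(ρ ^ 2 - z.1 ^ 2)) (√(ρ ^ 2 - z.1 ^ 2) + s)} := by
    refine MeasurableSet.inter (measurable_fst measurableSet_Icc) ?_
    have m1 : Measurable (fun z : ℝ × ℝ => √(ρ ^ 2 - z.1 ^ 2)) := by fun_prop
    have m2 : Measurable (fun z : ℝ × ℝ => √(ρ ^ 2 - z.1 ^ 2) + s) := by fun_prop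
    exact MeasurableSet.inter (measurableSet_lt m1 measurable_snd)
      (measurableSet_le measurable_snd m2)
  rw [Measure.volume_eq_prod, Measure.prod_apply hm]
  calc _ ≤ ∫⁻ y : ℝ, (Icc (-ρ) ρ).indicator (fun _ => ENNReal.ofReal s) y := by
        refine lintegral_mono (fun y => ?_)
        by_cases hy : y ∈ Icc (-ρ) ρ
        · rw [indicator_of_mem hy]
          calc _ ≤ volume (Ioc (√(ρ ^ 2 - y ^ 2)) (√(ρ ^ 2 - y ^ 2) + s)) :=
                measure_mono (fun x hx => hx.2)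
            _ = _ := by simp
        · rw [indicator_of_notMem hy]
          have : (Prod.mk y ⁻¹' {z : ℝ × ℝ | z.1 ∈ Icc (-ρ) ρ ∧
            z.2 ∈ Ioc (√(ρ ^ 2 - z.1 ^ 2)) (√(ρ ^ 2 - z.1 ^ 2) + s)}) = ∅ := by
            ext x
            simp only [mem_preimage, mem_ofPred_eq, mem_empty_iff_false, iff_false, not_and]
            intro h; exact absurd h hy
          simp only [this, measure_empty, le_refl]
    _ = ENNReal.ofReal s * volume (Icc (-ρ) ρ) := by
        rw [lintegral_indicator measurableSet_Icc]; simp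
    _ ≤ _ := by
        rw [Real.volume_Icc, ← ENNReal.ofReal_mul hs]
        apply le_of_eq; congr 1; ring

theorem dist_sq2 (a b : E2) : dist a b ^ 2 = (a 0 - b 0) ^ 2 + (a 1 - b 1) ^ 2 := by
  rw [EuclideanSpace.dist_eq, Real.sq_sqrt (by positivity)]
  simp [Fin.sum_univ_two, Real.dist_eq, sq_abs]

theorem vol_crescent_axis (ρ s : ℝ) (hρ : 0 ≤ ρ) (hs : 0 ≤ s) :
    volume (closedBall (EuclideanSpace.single 1 s : E2) ρ \ closedBall 0 ρ) ≤
      ENNReal.ofReal (2 * ρ * s) := by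
  have hp : MeasurePreserving (fun z : E2 => (z 0, z 1)) volume (volume : Measure (ℝ × ℝ)) :=
    (volume_preserving_finTwoArrow ℝ).comp (PiLp.volume_preserving_ofLp (Fin 2))
  refine le_trans ?_ ((hp.measure_preimage_le _).trans (vol_crescent_prod ρ s hs))
  refine measure_mono (fun z hz => ?_)
  obtain ⟨h1, h2⟩ := hz
  rw [mem_closedBall] at h1 h2
  have e1 := dist_sq2 z (EuclideanSpace.single 1 s)
  have e2 := dist_sq2 z 0
  simp at e1 e2
  have h3 : (z 0) ^ 2 + (z 1 - s) ^ 2 ≤ ρ ^ 2 := by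
    rw [← e1]; exact pow_le_pow_left₀ dist_nonneg h1 2
  have h4 : ρ ^ 2 < (z 0) ^ 2 + (z 1) ^ 2 := by
    rw [← e2]; push Not at h2; rw [dist_zero_right] at h2
    exact pow_lt_pow_left₀ h2 hρ (by norm_num)
  have h5 : |z 0| ≤ ρ := abs_le_of_sq_le_sq' (by nlinarith [sq_nonneg (z 1 - s)]) hρ |> abs_le.2
  have h6 : |z 1 - s| ≤ √(ρ ^ 2 - (z 0) ^ 2) := Real.abs_le_sqrt (by linarith)
  have h7 : √(ρ ^ 2 - (z 0) ^ 2) < |z 1| := by
    rw [← Real.sqrt_sq_eq_abs]
    exact Real.sqrt_lt_sqrt (by nlinarith [sq_nonneg (z 1 - s)]) (by linarith)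
  refine ⟨abs_le.1 h5, ?_, ?_⟩
  · have := (abs_le.1 h6).1
    rcases lt_abs.1 h7 with h | h
    · exact h
    · linarith
  · have := (abs_le.1 h6).2
    simp only
    linarith

theorem vol_crescent (a b : E2) (ρ : ℝ) (hρ : 0 ≤ ρ) :
    volume (closedBall b ρ \ closedBall a ρ) ≤ ENNReal.ofReal (2 * ρ * dist a b) := by
  set s := dist a b with hs
  have hn : ‖b - a‖ = ‖(EuclideanSpace.single 1 s : E2)‖ := by
    rw [PiLp.norm_single, Real.norm_eq_abs, abs_of_nonneg dist_nonneg, dist_comm,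
      dist_eq_norm]
  let R := Submodule.reflection (ℝ ∙ ((b - a) - (EuclideanSpace.single 1 s : E2)))ᗮ
  have hR : R (b - a) = EuclideanSpace.single 1 s := Submodule.reflection_sub hn
  have hp : MeasurePreserving (fun z : E2 => R (z - a)) volume volume :=
    R.measurePreserving.comp (measurePreserving_sub_right volume a)
  refine le_trans ?_ ((hp.measure_preimage_le _).trans (vol_crescent_axis ρ s hρ dist_nonneg))
  refine measure_mono (fun z hz => ?_)
  obtain ⟨h1, h2⟩ := hz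
  refine ⟨?_, fun h => h2 ?_⟩
  · rw [mem_closedBall, ← hR, R.dist_map, dist_sub_right]
    exact h1
  · rw [mem_closedBall, dist_zero_right, R.norm_map] at h
    rw [mem_closedBall, dist_eq_norm]
    exact h

/-- a Lipschitz chart of `S` -/
structure Chart (S : Set E3) (g : E2 → E3) (U : Set E2) (k : ℝ≥0) : Prop where
  isOpen : IsOpen U
  maps : MapsTo g U S
  lip : LipschitzOnWith k g U
  opn : ∀ V ⊆ U, IsOpen V → ∃ W, IsOpen W ∧ g '' V = S ∩ W

/-- a bi-Lipschitz chart of `S` -/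
structure BiChart (S : Set E3) (g : E2 → E3) (U : Set E2) (k : ℝ≥0) : Prop
    extends Chart S g U k where
  anti : ∀ a ∈ U, ∀ b ∈ U, dist a b ≤ k * dist (g a) (g b)

theorem vol_closedBall2 (a : E2) (ρ : ℝ) (hρ : 0 ≤ ρ) :
    volume (closedBall a ρ) = ENNReal.ofReal (Real.pi * ρ ^ 2) := by
  rw [EuclideanSpace.volume_closedBall_fin_two, ← ENNReal.ofReal_pow hρ,
    ← ENNReal.ofReal_mul (by positivity), mul_comm]

theorem vol_annulus (a : E2) (r ρ : ℝ) (hr : 0 ≤ r) (hρ : r ≤ ρ) :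
    volume (closedBall a ρ \ closedBall a r) ≤ ENNReal.ofReal (Real.pi * (ρ ^ 2 - r ^ 2)) := by
  rw [measure_sdiff (closedBall_subset_closedBall hρ) measurableSet_closedBall.nullMeasurableSet
    measure_closedBall_lt_top.ne, vol_closedBall2 a ρ (hr.trans hρ), vol_closedBall2 a r hr,
    ← ENNReal.ofReal_sub _ (by positivity)]
  apply le_of_eq; congr 1; ring

/-- the points of `S` whose `r`-neighbourhood in `S` lies in a bi-Lipschitz chart -/
def Core (S : Set E3) (k : ℝ≥0) (r : ℝ) : Set E3 :=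
  {x | x ∈ S ∧ ∃ g U, BiChart S g U k ∧ S ∩ ball x r ⊆ g '' U}

theorem core_ball {S : Set E3} {k : ℝ≥0} {r R : ℝ} (hR : 0 ≤ R) (hr : 2 * R < r) {p : E3}
    (hp : p ∈ S) :
    area (Core S k r ∩ closedBall p R) ≤
      (k : ℝ≥0∞) ^ 2 * ENNReal.ofReal (Real.pi * (k * R) ^ 2) := by
  rcases (Core S k r ∩ closedBall p R).eq_empty_or_nonempty with h | ⟨x, hx, hxp⟩
  · rw [h]; simp [area]
  obtain ⟨-, g, U, hc, hU⟩ := hx
  rw [mem_closedBall] at hxp
  obtain ⟨a, ha, rfl⟩ : p ∈ g '' U := hU ⟨hp, by rw [mem_ball, dist_comm]; linarith⟩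
  have hsub : Core S k r ∩ closedBall (g a) R ⊆ g '' (U ∩ closedBall a (k * R)) := by
    rintro y ⟨hy, hyp⟩
    rw [mem_closedBall] at hyp
    obtain ⟨u, hu, rfl⟩ : y ∈ g '' U := hU ⟨hy.1, by
      rw [mem_ball]; have := dist_triangle_right y x (g a); linarith⟩
    refine ⟨u, ⟨hu, ?_⟩, rfl⟩
    rw [mem_closedBall]
    exact (hc.anti u hu a ha).trans (by gcongr)
  calc area _ ≤ area (g '' (U ∩ closedBall a (k * R))) := measure_mono hsub
    _ ≤ _ := area_image_le (hc.lip.mono inter_subset_left)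
    _ ≤ (k : ℝ≥0∞) ^ 2 * volume (closedBall a (k * R)) := by gcongr; exact inter_subset_right
    _ = _ := by rw [vol_closedBall2 _ _ (by positivity)]

theorem core_step {S : Set E3} {k : ℝ≥0} (hk : 1 ≤ k) {r R d : ℝ} (hR : 0 ≤ R)
    (hr : 2 * R + d < r) {p q : E3} (hp : p ∈ S) (hq : q ∈ S) (hpq : dist p q ≤ d) :
    area (Core S k r ∩ (closedBall q R \ closedBall p R)) ≤
      (k : ℝ≥0∞) ^ 2 * ENNReal.ofReal
        (2 * (k * R) * (k * d) + Real.pi * ((k * R) ^ 2 - (R / k) ^ 2)) := by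
  have hk' : (1:ℝ) ≤ k := hk
  have hd : 0 ≤ d := dist_nonneg.trans hpq
  rcases (Core S k r ∩ (closedBall q R \ closedBall p R)).eq_empty_or_nonempty with
    h | ⟨x, hx, hxq, -⟩
  · rw [h]; simp [area]
  obtain ⟨-, g, U, hc, hU⟩ := hx
  rw [mem_closedBall] at hxq
  obtain ⟨a, ha, rfl⟩ : p ∈ g '' U := hU ⟨hp, by
    rw [mem_ball]; have := dist_triangle p q x; rw [dist_comm q x] at this; linarith⟩
  obtain ⟨b, hb, rfl⟩ : q ∈ g '' U := hU ⟨hq, by rw [mem_ball, dist_comm]; linarith⟩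
  have hsub : Core S k r ∩ (closedBall (g b) R \ closedBall (g a) R) ⊆
      g '' (U ∩ ((closedBall b (k * R) \ closedBall a (k * R)) ∪
        (closedBall a (k * R) \ closedBall a (R / k)))) := by
    rintro y ⟨hy, hyq, hyp⟩
    rw [mem_closedBall] at hyp hyq
    obtain ⟨u, hu, rfl⟩ : y ∈ g '' U := hU ⟨hy.1, by
      rw [mem_ball]; have := dist_triangle_right y x (g b); linarith⟩
    refine ⟨u, ⟨hu, ?_⟩, rfl⟩
    have h1 : u ∈ closedBall b (k * R) := by
      rw [mem_closedBall]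
      exact (hc.anti u hu b hb).trans (by gcongr)
    have h2 : u ∉ closedBall a (R / k) := by
      intro h
      rw [mem_closedBall, le_div_iff₀ (by linarith)] at h
      exact hyp ((hc.lip.dist_le_mul u hu a ha).trans (by linarith))
    by_cases h3 : u ∈ closedBall a (k * R)
    · exact Or.inr ⟨h3, h2⟩
    · exact Or.inl ⟨h1, h3⟩
  have hRk : R / k ≤ k * R := by
    rw [div_le_iff₀ (by linarith)]; nlinarith [mul_nonneg hR (show (0:ℝ) ≤ k * k - 1 by nlinarith)]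
  have hab : dist a b ≤ k * d := (hc.anti a ha b hb).trans (by gcongr)
  calc area _ ≤ area (g '' _) := measure_mono hsub
    _ ≤ _ := area_image_le (hc.lip.mono inter_subset_left)
    _ ≤ (k : ℝ≥0∞) ^ 2 * volume ((closedBall b (k * R) \ closedBall a (k * R)) ∪
        (closedBall a (k * R) \ closedBall a (R / k))) := by gcongr; exact inter_subset_right
    _ ≤ _ := by
      gcongr
      refine (measure_union_le _ _).trans ?_
      rw [ENNReal.ofReal_add (by positivity) (mul_nonneg Real.pi_pos.le (sub_nonneg.2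
        (pow_le_pow_left₀ (by positivity) hRk 2)))]
      refine add_le_add ((vol_crescent a b _ (by positivity)).trans ?_)
        (vol_annulus a _ _ (by positivity) hRk)
      gcongr

/-- greedy subdivision of a curve -/
theorem greedy {S C : Set E3} {ε d : ℝ} (hd : 0 < d) {κ : ℝ≥0∞}
    (hκ : ∀ p ∈ S, ∀ q ∈ S, dist p q ≤ d →
      area (C ∩ (closedBall q (ε + d) \ closedBall p (ε + d))) ≤ κ) (γ : ℝ → E3) (b : ℝ) :
    ∀ (N : ℕ) (a : ℝ), a ≤ b → ContinuousOn γ (Icc a b) → (∀ t ∈ Icc a b, γ t ∈ S) →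
      eVariationOn γ (Icc a b) < ENNReal.ofReal ((N + 1) * d) →
      area ((C ∩ ⋃ t ∈ Icc a b, closedBall (γ t) ε) \ closedBall (γ a) (ε + d)) ≤ N * κ := by
  have key : ∀ a : ℝ, a ≤ b → ContinuousOn γ (Icc a b) →
      (∀ t ∈ Icc a b, dist (γ t) (γ a) ≤ d) ∨
      ∃ c ∈ Icc a b, dist (γ c) (γ a) = d ∧ ∀ t ∈ Icc a c, dist (γ t) (γ a) ≤ d := by
    intro a hab hc
    have hf : ContinuousOn (fun t => dist (γ t) (γ a)) (Icc a b) := 
      continuous_dist.comp_continuousOn (hc.prodMk continuousOn_const)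
    have ivt : ∀ s ∈ Icc a b, d < dist (γ s) (γ a) → ∃ c ∈ Icc a s, dist (γ c) (γ a) = d := by
      intro s hs hds
      have := intermediate_value_Icc hs.1 (hf.mono (Icc_subset_Icc le_rfl hs.2))
      exact this (show d ∈ Icc (dist (γ a) (γ a)) (dist (γ s) (γ a)) from
        ⟨by simpa using hd.le, hds.le⟩)
    by_cases h : ∀ t ∈ Icc a b, dist (γ t) (γ a) ≤ d
    · exact Or.inl h
    right
    push Not at h
    obtain ⟨s, hs, hds⟩ := h
    have hT : IsCompact (Icc a b ∩ (fun t => dist (γ t) (γ a)) ⁻¹' {d}) :=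
      isCompact_Icc.of_isClosed_subset (hf.preimage_isClosed_of_isClosed isClosed_Icc
        isClosed_singleton) inter_subset_left
    obtain ⟨c0, hc0, hc0d⟩ := ivt s hs hds
    obtain ⟨c, hcT, hmin⟩ := hT.exists_isLeast ⟨c0, ⟨hc0.1, hc0.2.trans hs.2⟩, hc0d⟩
    refine ⟨c, hcT.1, hcT.2, fun t ht => ?_⟩
    by_contra hlt
    push Not at hlt
    obtain ⟨c1, hc1, hc1d⟩ := ivt t ⟨ht.1, ht.2.trans hcT.1.2⟩ hlt
    have h1 : c ≤ c1 := hmin ⟨⟨hc1.1, hc1.2.trans (ht.2.trans hcT.1.2)⟩, hc1d⟩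
    have h2 : c1 = t := le_antisymm hc1.2 (ht.2.trans h1)
    rw [h2] at hc1d
    linarith
  have empty : ∀ a c : ℝ, (∀ t ∈ Icc a c, dist (γ t) (γ a) ≤ d) →
      (⋃ t ∈ Icc a c, closedBall (γ t) ε) ⊆ closedBall (γ a) (ε + d) := by
    intro a c h x hx
    simp only [mem_iUnion] at hx
    obtain ⟨t, ht, hx⟩ := hx
    rw [mem_closedBall] at hx ⊢
    have := dist_triangle x (γ t) (γ a)
    linarith [h t ht]
  have split : ∀ a c : ℝ, c ∈ Icc a b → dist (γ c) (γ a) = d →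
      ENNReal.ofReal d + eVariationOn γ (Icc c b) ≤ eVariationOn γ (Icc a b) := by
    intro a c hc hcd
    have h4 := eVariationOn.Icc_add_Icc γ (s := univ) hc.1 hc.2 (mem_univ _)
    simp only [univ_inter] at h4
    rw [← h4]
    gcongr
    rw [← hcd, ← edist_dist]
    exact eVariationOn.edist_le γ (right_mem_Icc.2 hc.1) (left_mem_Icc.2 hc.1)
  intro N
  induction N with
  | zero =>
    intro a hab hc hS hV
    rcases key a hab hc with h | ⟨c, hc, hcd, -⟩
    · rw [sdiff_eq_empty.2 (inter_subset_right.trans (empty a b h))]; simp [area]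
    · exfalso
      have := (le_self_add.trans (split a c hc hcd)).trans_lt hV
      simp at this
  | succ N ih =>
    intro a hab hc hS hV
    rcases key a hab hc with h | ⟨c, hcm, hcd, hcle⟩
    · rw [sdiff_eq_empty.2 (inter_subset_right.trans (empty a b h))]; simp [area]
    have hV' : eVariationOn γ (Icc c b) < ENNReal.ofReal ((N + 1) * d) := by
      have h1 := (split a c hcm hcd).trans_lt hV
      have h2 : ENNReal.ofReal ((((N + 1 : ℕ) : ℝ) + 1) * d) =
          ENNReal.ofReal d + ENNReal.ofReal ((N + 1) * d) := by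
        rw [← ENNReal.ofReal_add hd.le (by positivity)]; congr 1; push_cast; ring
      rw [h2] at h1
      exact (ENNReal.add_lt_add_iff_left ENNReal.ofReal_ne_top).1 h1
    have h1 := ih c hcm.2 (hc.mono (Icc_subset_Icc hcm.1 le_rfl))
      (fun t ht => hS t ⟨hcm.1.trans ht.1, ht.2⟩) hV'
    have h2 := hκ (γ a) (hS a (left_mem_Icc.2 hab)) (γ c) (hS c hcm) (by rw [dist_comm]; exact hcd.le)
    have hsub : (C ∩ ⋃ t ∈ Icc a b, closedBall (γ t) ε) \ closedBall (γ a) (ε + d) ⊆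
        ((C ∩ ⋃ t ∈ Icc c b, closedBall (γ t) ε) \ closedBall (γ c) (ε + d)) ∪
          (C ∩ (closedBall (γ c) (ε + d) \ closedBall (γ a) (ε + d))) := by
      rintro x ⟨⟨hxC, hx⟩, hxa⟩
      by_cases h3 : x ∈ closedBall (γ c) (ε + d)
      · exact Or.inr ⟨hxC, h3, hxa⟩
      · refine Or.inl ⟨⟨hxC, ?_⟩, h3⟩
        simp only [mem_iUnion] at hx ⊢
        obtain ⟨t, ht, hx⟩ := hx
        rcases le_total t c with h4 | h4
        · exact absurd (empty a c hcle (mem_iUnion₂.2 ⟨t, ⟨ht.1, h4⟩, hx⟩)) hxa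
        · exact ⟨t, ⟨h4, ht.2⟩, hx⟩
    calc area _ ≤ area (_ ∪ _) := measure_mono hsub
      _ ≤ area _ + area _ := measure_union_le _ _
      _ ≤ N * κ + κ := add_le_add h1 h2
      _ = _ := by push_cast; ring

theorem dist_le_idist (S : Set E3) (x y : E3) : ENNReal.ofReal (dist x y) ≤ idist S x y := by
  refine le_idist (fun γ hγ => ?_)
  rw [← edist_dist, ← hγ.2.1, ← hγ.2.2.1]
  exact eVariationOn.edist_le γ (by simp) (by simp)

/-- the constant in the lower bound -/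
noncomputable def cst (θ k : ℝ) : ℝ :=
  k ^ 2 * (2 * k ^ 2 * (1 + θ) + Real.pi * (k ^ 2 - (1 / k) ^ 2) * (1 + θ) ^ 2 / θ)

theorem cst_pos {θ k : ℝ} (hθ : 0 < θ) (hk : 1 ≤ k) : 0 < cst θ k := by
  have h1 : (1 / k) ^ 2 ≤ k ^ 2 := by
    refine pow_le_pow_left₀ (by positivity) ?_ 2
    rw [div_le_iff₀ (by linarith)]; nlinarith
  have h2 : 0 ≤ k ^ 2 - (1 / k) ^ 2 := by linarith
  have h3 := Real.pi_pos
  unfold cst
  positivity

theorem core_le {S : Set E3} {k : ℝ≥0} (hk : 1 ≤ k) {θ ε r : ℝ} (hθ : 0 < θ) (hε : 0 < ε)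
    (hr : (2 + 3 * θ) * ε < r) {γ : ℝ → E3} (hγ : IsDenseCurve S ε γ) :
    area (Core S k r) ≤ ENNReal.ofReal ((k:ℝ) ^ 4 * Real.pi * (1 + θ) ^ 2 * ε ^ 2) +
      ENNReal.ofReal (cst θ k) * (ENNReal.ofReal ε * eVariationOn γ (Icc 0 1)) := by
  have hk' : (1:ℝ) ≤ k := hk
  have hc := cst_pos hθ hk'
  by_cases hV : eVariationOn γ (Icc 0 1) = ⊤
  · rw [hV, ENNReal.mul_top (by simpa using hε), ENNReal.mul_top (by simpa using hc)]
    simp
  obtain ⟨l, hl⟩ : ∃ l : ℝ≥0, eVariationOn γ (Icc 0 1) = l := ⟨_, (ENNReal.coe_toNNReal hV).symm⟩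
  set d := θ * ε with hd
  have hd0 : 0 < d := by positivity
  set N := ⌊(l:ℝ) / d⌋₊ with hN
  have hN1 : (N:ℝ) ≤ l / d := Nat.floor_le (by positivity)
  have hN2 : (l:ℝ) < (N + 1) * d := by
    have := Nat.lt_floor_add_one ((l:ℝ) / d)
    rwa [div_lt_iff₀ hd0] at this
  have hV2 : eVariationOn γ (Icc 0 1) < ENNReal.ofReal ((N + 1) * d) := by
    rw [hl, ← ENNReal.ofReal_coe_nnreal]
    exact (ENNReal.ofReal_lt_ofReal_iff (by positivity)).2 hN2
  have h1 := greedy (S := S) (C := Core S k r) (ε := ε) hd0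
    (fun p hp q hq hpq => core_step hk (R := ε + d) (r := r) (by positivity) (by linarith) hp hq hpq)
    γ 1 N 0 (by norm_num) hγ.1 hγ.2.1 hV2
  have h2 := core_ball (S := S) (k := k) (R := ε + d) (r := r) (by positivity) (by linarith)
    (hγ.2.1 0 (by simp))
  have hsub : Core S k r ⊆ (Core S k r ∩ closedBall (γ 0) (ε + d)) ∪
      ((Core S k r ∩ ⋃ t ∈ Icc (0:ℝ) 1, closedBall (γ t) ε) \ closedBall (γ 0) (ε + d)) := by
    intro x hx
    by_cases h : x ∈ closedBall (γ 0) (ε + d)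
    · exact Or.inl ⟨hx, h⟩
    · refine Or.inr ⟨⟨hx, ?_⟩, h⟩
      obtain ⟨t, ht, hxt⟩ := hγ.2.2 x hx.1
      refine mem_iUnion₂.2 ⟨t, ht, ?_⟩
      rw [mem_closedBall]
      exact (ENNReal.ofReal_le_ofReal_iff hε.le).1 ((dist_le_idist S _ _).trans hxt)
  have hRk : (ε + d) / k ≤ k * (ε + d) := by
    rw [div_le_iff₀ (by linarith)]
    nlinarith [mul_nonneg (show 0 ≤ ε + d by positivity) (show (0:ℝ) ≤ k * k - 1 by nlinarith)]
  have hX : 0 ≤ 2 * (k * (ε + d)) * (k * d) + Real.pi * ((k * (ε + d)) ^ 2 - ((ε + d) / k) ^ 2) :=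
    add_nonneg (by positivity) (mul_nonneg Real.pi_pos.le (sub_nonneg.2
        (pow_le_pow_left₀ (by positivity) hRk 2)))
  have ek : (k : ℝ≥0∞) ^ 2 = ENNReal.ofReal ((k:ℝ) ^ 2) := by
    rw [ENNReal.ofReal_pow (by positivity), ENNReal.ofReal_coe_nnreal]
  calc area _ ≤ area (_ ∪ _) := measure_mono hsub
    _ ≤ area _ + area _ := measure_union_le _ _
    _ ≤ _ := add_le_add h2 h1
    _ ≤ _ := by
      refine add_le_add (le_of_eq ?_) ?_
      · rw [ek, ← ENNReal.ofReal_mul (by positivity)]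
        congr 1; rw [hd]; ring
      · rw [ek, hl, ← ENNReal.ofReal_coe_nnreal (p := l), ← ENNReal.ofReal_natCast,
          ← ENNReal.ofReal_mul (by positivity), ← ENNReal.ofReal_mul (by positivity),
          ← ENNReal.ofReal_mul (by positivity), ← ENNReal.ofReal_mul hc.le]
        refine ENNReal.ofReal_le_ofReal ?_
        calc (N:ℝ) * _ ≤ l / d * _ := mul_le_mul_of_nonneg_right hN1 (by positivity)
          _ = _ := by
            rw [hd]; unfold cst; field_simp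

theorem core_le_shortest {S : Set E3} {k : ℝ≥0} (hk : 1 ≤ k) {θ ε r : ℝ} (hθ : 0 < θ) (hε : 0 < ε)
    (hr : (2 + 3 * θ) * ε < r) :
    area (Core S k r) ≤ ENNReal.ofReal ((k:ℝ) ^ 4 * Real.pi * (1 + θ) ^ 2 * ε ^ 2) +
      ENNReal.ofReal (cst θ k) * (ENNReal.ofReal ε * shortestDense S ε) := by
  have hc := cst_pos hθ (show (1:ℝ) ≤ k from hk)
  have h0 : ENNReal.ofReal (cst θ k) * ENNReal.ofReal ε ≠ 0 := by simp [hc, hε]
  have h1 : ENNReal.ofReal (cst θ k) * ENNReal.ofReal ε ≠ ⊤ := by finiteness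
  rw [← mul_assoc]
  unfold shortestDense
  rw [ENNReal.mul_iInf_of_ne h0 h1, ENNReal.add_iInf]
  refine le_iInf (fun γ => ?_)
  rw [ENNReal.mul_iInf_of_ne h0 h1, ENNReal.add_iInf]
  refine le_iInf (fun hγ => ?_)
  rw [mul_assoc (ENNReal.ofReal _)]
  exact core_le hk hθ hε hr hγ

open Filter Topology

theorem core_le_liminf {S : Set E3} {k : ℝ≥0} (hk : 1 ≤ k) {θ r : ℝ} (hθ : 0 < θ) (hr : 0 < r) :
    area (Core S k r) ≤ ENNReal.ofReal (cst θ k) *
      liminf (fun ε => ENNReal.ofReal ε * shortestDense S ε) (𝓝[>] (0:ℝ)) := by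
  have hc := cst_pos hθ (show (1:ℝ) ≤ k from hk)
  have h0 : ENNReal.ofReal (cst θ k) ≠ 0 := by simp [hc]
  have h1 : ENNReal.ofReal (cst θ k) ≠ ⊤ := by finiteness
  have ht : Tendsto (fun ε : ℝ => (area (Core S k r) -
      ENNReal.ofReal ((k:ℝ) ^ 4 * Real.pi * (1 + θ) ^ 2 * ε ^ 2)) / ENNReal.ofReal (cst θ k))
      (𝓝[>] (0:ℝ)) (𝓝 ((area (Core S k r) - 0) / ENNReal.ofReal (cst θ k))) := by
    refine ENNReal.Tendsto.div_const ?_ (Or.inr h0)
    refine ENNReal.Tendsto.sub tendsto_const_nhds ?_ (Or.inr (by simp))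
    have : Tendsto (fun ε : ℝ => (k:ℝ) ^ 4 * Real.pi * (1 + θ) ^ 2 * ε ^ 2) (𝓝[>] (0:ℝ)) (𝓝 0) := by
      have hcont : Continuous (fun ε : ℝ => (k:ℝ) ^ 4 * Real.pi * (1 + θ) ^ 2 * ε ^ 2) := by
        fun_prop
      have := (hcont.tendsto 0).mono_left (nhdsWithin_le_nhds (s := Ioi 0))
      simpa using this
    simpa using ENNReal.tendsto_ofReal this
  rw [tsub_zero] at ht
  rw [mul_comm, ← ENNReal.div_le_iff_le_mul (Or.inl h0) (Or.inl h1), ← ht.liminf_eq]
  refine liminf_le_liminf ?_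
  have hev : ∀ᶠ ε in 𝓝[>] (0:ℝ), ε ∈ Ioo 0 (r / (2 + 3 * θ)) :=
    Ioo_mem_nhdsGT (by positivity)
  filter_upwards [hev] with ε hε
  rw [ENNReal.div_le_iff_le_mul (Or.inl h0) (Or.inl h1), tsub_le_iff_left,
    mul_comm _ (ENNReal.ofReal (cst θ k))]
  refine core_le_shortest hk hθ hε.1 ?_
  have := hε.2
  rw [lt_div_iff₀ (by positivity)] at this
  linarith

theorem lower_bound {S G : Set E3} (hG : area (S \ G) = 0)
    (hgood : ∀ x ∈ S ∩ G, ∀ k : ℝ≥0, 1 < k → ∃ g U, BiChart S g U k ∧ x ∈ g '' U) :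
    area S / 2 ≤ liminf (fun ε => ENNReal.ofReal ε * shortestDense S ε) (𝓝[>] (0:ℝ)) := by
  set l := liminf (fun ε => ENNReal.ofReal ε * shortestDense S ε) (𝓝[>] (0:ℝ))
  have h1 : ∀ k : ℝ≥0, 1 < k → ∀ θ : ℝ, 0 < θ → area S ≤ ENNReal.ofReal (cst θ k) * l := by
    intro k hk θ hθ
    have hmono : Monotone (fun n : ℕ => Core S k (1 / ((n:ℝ) + 1))) := by
      intro m n hmn x hx
      obtain ⟨hxS, g, U, hc, hU⟩ := hx
      refine ⟨hxS, g, U, hc, Subset.trans (inter_subset_inter_right _ (ball_subset_ball ?_)) hU⟩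
      exact Nat.one_div_le_one_div hmn
    have hsub : S ⊆ (S \ G) ∪ ⋃ n : ℕ, Core S k (1 / ((n:ℝ) + 1)) := by
      intro x hx
      by_cases hxG : x ∈ G
      · right
        obtain ⟨g, U, hc, hxU⟩ := hgood x ⟨hx, hxG⟩ k hk
        obtain ⟨W, hW, hWU⟩ := hc.opn U subset_rfl hc.isOpen
        rw [hWU] at hxU
        obtain ⟨δ, hδ, hb⟩ := Metric.isOpen_iff.1 hW x hxU.2
        obtain ⟨n, hn⟩ := exists_nat_one_div_lt hδ
        refine mem_iUnion.2 ⟨n, hx, g, U, hc, ?_⟩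
        rw [hWU]
        exact inter_subset_inter_right _ ((ball_subset_ball hn.le).trans hb)
      · exact Or.inl ⟨hx, hxG⟩
    calc area S ≤ area (_ ∪ _) := measure_mono hsub
      _ ≤ area _ + area _ := measure_union_le _ _
      _ = area (⋃ n : ℕ, Core S k (1 / ((n:ℝ) + 1))) := by rw [hG, zero_add]
      _ = ⨆ n : ℕ, area (Core S k (1 / ((n:ℝ) + 1))) := hmono.measure_iUnion
      _ ≤ _ := iSup_le (fun n => core_le_liminf hk.le hθ (by positivity))
  have h2 : ∀ c : ℝ, 2 < c → area S ≤ ENNReal.ofReal c * l := by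
    intro c hc
    set θ := (c - 2) / 4 with hθ
    have hθ0 : 0 < θ := by rw [hθ]; linarith
    have hcont : ContinuousAt (fun k : ℝ≥0 => cst θ k) 1 := by
      unfold cst
      fun_prop (disch := simp)
    have hlt : (fun k : ℝ≥0 => cst θ k) 1 < c := by
      simp only [cst, NNReal.coe_one]; norm_num; rw [hθ]; linarith
    have hev : ∀ᶠ k : ℝ≥0 in 𝓝[>] (1:ℝ≥0), cst θ k < c :=
      (hcont.eventually (gt_mem_nhds hlt)).filter_mono nhdsWithin_le_nhds
    obtain ⟨k, hk1, hk2⟩ := (hev.and self_mem_nhdsWithin).exists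
    exact (h1 k hk2 θ hθ0).trans (by gcongr)
  have h3 : Tendsto (fun c : ℝ => ENNReal.ofReal c * l) (𝓝[>] 2) (𝓝 (ENNReal.ofReal 2 * l)) :=
    ENNReal.Tendsto.mul_const
      ((ENNReal.continuous_ofReal.tendsto 2).mono_left nhdsWithin_le_nhds) (Or.inl (by simp))
  have h4 : area S ≤ ENNReal.ofReal 2 * l :=
    ge_of_tendsto h3 (eventually_mem_nhdsWithin.mono (fun c hc => h2 c hc))
  rw [ENNReal.div_le_iff_le_mul (Or.inl (by simp)) (Or.inl (by simp)), mul_comm]
  simpa using h4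

end Pool.Agent.H436Z.Dense
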