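import Pool.Agent.H436Z.DenseA

set_option autoImplicit false
open Set ENNReal MeasureTheory Metric Filter Topology
open scoped NNReal

namespace Pool.Agent.H436Z.Dense
open Pool.Agent.H436Z.Stein

theorem exists_concat {S : Set E3} {γ δ : ℝ → E3} {x y z : E3} (hγ : IsPath S γ x y)
    (hδ : IsPath S δ y z) :
    ∃ c, IsPath S c x z ∧
      eVariationOn c (Icc 0 1) ≤ eVariationOn γ (Icc 0 1) + eVariationOn δ (Icc 0 1) ∧
      (∀ t ∈ Icc (0:ℝ) 1, ∃ s ∈ Icc (0:ℝ) 1, c s = γ t) ∧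
      (∀ t ∈ Icc (0:ℝ) 1, ∃ s ∈ Icc (0:ℝ) 1, c s = δ t) := by
  let c : ℝ → E3 := fun t => if t ≤ 1 then γ t else δ (t - 1)
  have h1 : EqOn c γ (Icc 0 1) := fun t ht => if_pos ht.2
  have h2 : EqOn c (δ ∘ fun t => t - 1) (Icc 1 2) := by
    intro t ht
    by_cases h : t ≤ 1
    · have : t = 1 := le_antisymm h ht.1
      subst this
      simp [c, hγ.2.2.1, hδ.2.1]
    · simp [c, h]
  have hm : MapsTo (fun t : ℝ => t - 1) (Icc 1 2) (Icc 0 1) := by
    intro t ht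
    constructor <;> linarith [ht.1, ht.2]
  have hu : Icc (0:ℝ) 2 = Icc 0 1 ∪ Icc 1 2 := (Icc_union_Icc_eq_Icc (by norm_num) (by norm_num)).symm
  have hc : ContinuousOn c (Icc 0 2) := by
    rw [hu]
    exact ContinuousOn.union_of_isClosed (hγ.1.congr h1)
      ((hδ.1.comp (by fun_prop) hm).congr h2) isClosed_Icc isClosed_Icc
  have hS : ∀ t ∈ Icc (0:ℝ) 2, c t ∈ S := by
    intro t ht
    rw [hu] at ht
    rcases ht with ht | ht
    · rw [h1 ht]; exact hγ.2.2.2 t ht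
    · rw [h2 ht]; exact hδ.2.2.2 _ (hm ht)
  have hm2 : MapsTo (fun t : ℝ => 2 * t) (Icc 0 1) (Icc 0 2) := by
    intro t ht
    constructor <;> linarith [ht.1, ht.2]
  have e2 : c 2 = z := by
    have : (2:ℝ) - 1 = 1 := by norm_num
    simp [c, this, hδ.2.2.1]
  refine ⟨c ∘ fun t => 2 * t, ⟨hc.comp (by fun_prop) hm2, by simp [c, hγ.2.1], by simpa using e2,
    fun t ht => hS _ (hm2 ht)⟩, ?_, fun t ht => ⟨t / 2, ⟨by linarith [ht.1], by linarith [ht.2]⟩, ?_⟩,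
    fun t ht => ⟨(t + 1) / 2, ⟨by linarith [ht.1], by linarith [ht.2]⟩, ?_⟩⟩
  · refine (eVariationOn.comp_le_of_monotoneOn c _ (fun s _ t _ hst => by
      show 2 * s ≤ 2 * t; linarith)
      hm2).trans ?_
    have h4 := eVariationOn.Icc_add_Icc c (s := univ) (a := 0) (b := 1) (c := 2) (by norm_num)
      (by norm_num) (mem_univ _)
    simp only [univ_inter] at h4
    rw [← h4, eVariationOn.congr h1, eVariationOn.congr h2]
    gcongr
    refine eVariationOn.comp_le_of_monotoneOn δ _ ?_ hm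
    intro s _ t _ hst
    simp only
    linarith
  · have : 2 * (t / 2) = t := by ring
    simp only [Function.comp, this]
    exact h1 ht
  · have : 2 * ((t + 1) / 2) = t + 1 := by ring
    simp only [Function.comp, this]
    rw [h2 ⟨by linarith [ht.1], by linarith [ht.2]⟩]
    simp

/-- shortest curve from `x` to `y` in `S` passing within `ε` of every point of `T` -/
noncomputable def Lc (S : Set E3) (ε : ℝ) (x y : E3) (T : Set E3) : ℝ≥0∞ :=
  ⨅ (γ : ℝ → E3) (_ : IsPath S γ x y ∧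
    ∀ z ∈ T, ∃ t ∈ Icc (0:ℝ) 1, idist S z (γ t) ≤ ENNReal.ofReal ε), eVariationOn γ (Icc 0 1)

theorem Lc_mono (S : Set E3) (ε : ℝ) (x y : E3) {T T' : Set E3} (h : T ⊆ T') :
    Lc S ε x y T ≤ Lc S ε x y T' :=
  le_iInf₂ (fun γ hγ => iInf₂_le_of_le γ ⟨hγ.1, fun z hz => hγ.2 z (h hz)⟩ le_rfl)

theorem Lc_add (S : Set E3) (ε : ℝ) (x y z : E3) (T T' : Set E3) :
    Lc S ε x z (T ∪ T') ≤ Lc S ε x y T + Lc S ε y z T' := by
  unfold Lc
  refine le_iInf₂_add_iInf₂ (fun γ hγ δ hδ => ?_)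
  obtain ⟨c, hc, hV, h1, h2⟩ := exists_concat hγ.1 hδ.1
  refine iInf₂_le_of_le c ⟨hc, ?_⟩ hV
  rintro w (hw | hw)
  · obtain ⟨t, ht, h⟩ := hγ.2 w hw
    obtain ⟨s, hs, e⟩ := h1 t ht
    exact ⟨s, hs, e ▸ h⟩
  · obtain ⟨t, ht, h⟩ := hδ.2 w hw
    obtain ⟨s, hs, e⟩ := h2 t ht
    exact ⟨s, hs, e ▸ h⟩

theorem Lc_empty (S : Set E3) (ε : ℝ) (x y : E3) : Lc S ε x y ∅ ≤ idist S x y :=
  le_idist (fun γ hγ => iInf₂_le_of_le γ ⟨hγ, by simp⟩ le_rfl)

theorem Lc_left (S : Set E3) (ε : ℝ) (x y z : E3) (T : Set E3) :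
    Lc S ε x z T ≤ idist S x y + Lc S ε y z T := by
  have := Lc_add S ε x y z ∅ T
  rw [empty_union] at this
  exact this.trans (add_le_add (Lc_empty S ε x y) le_rfl)

theorem Lc_right (S : Set E3) (ε : ℝ) (x y z : E3) (T : Set E3) :
    Lc S ε x z T ≤ Lc S ε x y T + idist S y z := by
  have := Lc_add S ε x y z T ∅
  rw [union_empty] at this
  exact this.trans (add_le_add le_rfl (Lc_empty S ε y z))

theorem shortest_le_Lc (S : Set E3) (ε : ℝ) (x y : E3) : shortestDense S ε ≤ Lc S ε x y S :=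
  le_iInf₂ (fun γ hγ => iInf₂_le_of_le γ ⟨hγ.1.1, hγ.1.2.2.2, hγ.2⟩ le_rfl)

/-- a separately Lipschitz parametrised square in `S` -/
structure Sq (S : Set E3) (G : ℝ → ℝ → E3) (α β s k : ℝ) : Prop where
  s_pos : 0 < s
  k_nonneg : 0 ≤ k
  mem : ∀ a ∈ Icc α (α + s), ∀ b ∈ Icc β (β + s), G a b ∈ S
  hor : ∀ a ∈ Icc α (α + s), ∀ a' ∈ Icc α (α + s), ∀ b ∈ Icc β (β + s),
    dist (G a b) (G a' b) ≤ k * |a - a'|
  ver : ∀ a ∈ Icc α (α + s), ∀ b ∈ Icc β (β + s), ∀ b' ∈ Icc β (β + s),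
    dist (G a b) (G a b') ≤ k * |b - b'|

theorem Sq.idist_ver {S : Set E3} {G : ℝ → ℝ → E3} {α β s k : ℝ} (h : Sq S G α β s k)
    {a b b' : ℝ} (ha : a ∈ Icc α (α + s)) (hb : b ∈ Icc β (β + s)) (hb' : b' ∈ Icc β (β + s)) :
    idist S (G a b) (G a b') ≤ ENNReal.ofReal (k * |b - b'|) := by
  have key : ∀ b ∈ Icc β (β + s), ∀ b' ∈ Icc β (β + s), b ≤ b' →
      idist S (G a b) (G a b') ≤ ENNReal.ofReal (k * (b' - b)) := by
    intro b hb b' hb' hbb
    have hsub : Icc b b' ⊆ Icc β (β + s) := Icc_subset_Icc hb.1 hb'.2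
    exact idist_le_of_lip (γ := G a) hbb k h.k_nonneg (fun t ht => h.mem a ha t (hsub ht))
      (fun u hu t ht => h.ver a ha u (hsub hu) t (hsub ht))
  rcases le_total b b' with hbb | hbb
  · rw [abs_sub_comm, abs_of_nonneg (sub_nonneg.2 hbb)]; exact key b hb b' hb' hbb
  · rw [abs_of_nonneg (sub_nonneg.2 hbb), idist_comm]; exact key b' hb' b hb hbb

theorem Sq.row {S : Set E3} {G : ℝ → ℝ → E3} {α β s k ε : ℝ} (h : Sq S G α β s k)
    {σ σ' c : ℝ} (hσ : (σ = α ∧ σ' = α + s) ∨ (σ = α + s ∧ σ' = α)) (hc : c ∈ Icc β (β + s)) :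
    Lc S ε (G σ c) (G σ' c)
      {z | ∃ a ∈ Icc α (α + s), ∃ b ∈ Icc β (β + s), k * |b - c| ≤ ε ∧ z = G a b} ≤
      ENNReal.ofReal (k * s) := by
  have hs := h.s_pos
  have hm : ∀ t ∈ Icc (0:ℝ) 1, σ + t * (σ' - σ) ∈ Icc α (α + s) := by
    intro t ht
    rcases hσ with ⟨rfl, rfl⟩ | ⟨rfl, rfl⟩ <;> constructor <;> nlinarith [ht.1, ht.2]
  have habs : |σ' - σ| = s := by
    rcases hσ with ⟨rfl, rfl⟩ | ⟨rfl, rfl⟩
    · rw [add_sub_cancel_left, abs_of_pos hs]
    · rw [abs_sub_comm, add_sub_cancel_left, abs_of_pos hs]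
  have hl : ∀ u ∈ Icc (0:ℝ) 1, ∀ t ∈ Icc (0:ℝ) 1,
      dist (G (σ + u * (σ' - σ)) c) (G (σ + t * (σ' - σ)) c) ≤ k * s * |u - t| := by
    intro u hu t ht
    refine (h.hor _ (hm u hu) _ (hm t ht) c hc).trans (le_of_eq ?_)
    rw [show σ + u * (σ' - σ) - (σ + t * (σ' - σ)) = (u - t) * (σ' - σ) by ring, abs_mul, habs]
    ring
  have hks : 0 ≤ k * s := mul_nonneg h.k_nonneg hs.le
  have hV := evar_le_of_lip (γ := fun t => G (σ + t * (σ' - σ)) c) (a := 0) (b := 1) (by norm_num)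
    (k * s) hks hl
  have hlip : LipschitzOnWith (k * s).toNNReal (fun t => G (σ + t * (σ' - σ)) c) (Icc 0 1) := by
    refine LipschitzOnWith.of_dist_le_mul (fun u hu t ht => ?_)
    rw [Real.coe_toNNReal _ hks, Real.dist_eq]
    exact hl u hu t ht
  refine iInf₂_le_of_le (fun t => G (σ + t * (σ' - σ)) c)
    ⟨⟨hlip.continuousOn, by simp, by simp, fun t ht => h.mem _ (hm t ht) c hc⟩, ?_⟩
    (by simpa using hV)
  rintro z ⟨a, ha, b, hb, hbc, rfl⟩
  have hex : ∃ t ∈ Icc (0:ℝ) 1, σ + t * (σ' - σ) = a := by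
    rcases hσ with ⟨rfl, rfl⟩ | ⟨rfl, rfl⟩
    · refine ⟨(a - σ) / s, ⟨div_nonneg (by linarith [ha.1]) hs.le, ?_⟩, by field_simp; ring⟩
      rw [div_le_one hs]; linarith [ha.2]
    · refine ⟨(σ' + s - a) / s, ⟨div_nonneg (by linarith [ha.2]) hs.le, ?_⟩, by field_simp; ring⟩
      rw [div_le_one hs]; linarith [ha.1]
  obtain ⟨t, ht, hta⟩ := hex
  refine ⟨t, ht, ?_⟩
  simp only [hta]
  exact (h.idist_ver ha hb hc).trans (ENNReal.ofReal_le_ofReal hbc)

theorem Sq.zigzag {S : Set E3} {G : ℝ → ℝ → E3} {α β s k ε : ℝ} (h : Sq S G α β s k)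
    {n : ℕ} {w : ℝ} (hw : 0 < w) (hn : n * w = s) (hε : k * (w / 2) ≤ ε) :
    ∀ j : ℕ, j ≤ n → ∃ σ, (σ = α ∨ σ = α + s) ∧ Lc S ε (G α β) (G σ (β + j * w))
      {z | ∃ a ∈ Icc α (α + s), ∃ b ∈ Ico β (β + j * w), z = G a b} ≤
      ENNReal.ofReal (k * (j * (s + w))) := by
  have hs := h.s_pos
  have hk := h.k_nonneg
  intro j
  induction j with
  | zero =>
    intro _
    refine ⟨α, Or.inl rfl, ?_⟩
    have e : {z | ∃ a ∈ Icc α (α + s), ∃ b ∈ Ico β (β + ((0:ℕ):ℝ) * w), z = G a b} = ∅ := by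
      simp
    rw [e]
    refine (Lc_empty _ _ _ _).trans ?_
    have := h.idist_ver (a := α) (b := β) (b' := β) ⟨le_rfl, by linarith⟩ ⟨le_rfl, by linarith⟩
      ⟨le_rfl, by linarith⟩
    simpa using this
  | succ j ih =>
    intro hj
    obtain ⟨σ, hσ, hL⟩ := ih (by omega)
    have hj' : ((j:ℝ) + 1) * w ≤ s := by
      rw [← hn]; gcongr; exact_mod_cast hj
    have hj0 : 0 ≤ (j:ℝ) * w := by positivity
    obtain ⟨σ', hσ'⟩ : ∃ σ', (σ = α ∧ σ' = α + s) ∨ (σ = α + s ∧ σ' = α) := by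
      rcases hσ with h1 | h1
      · exact ⟨_, Or.inl ⟨h1, rfl⟩⟩
      · exact ⟨_, Or.inr ⟨h1, rfl⟩⟩
    have hσm : σ ∈ Icc α (α + s) := by
      rcases hσ with rfl | rfl <;> constructor <;> linarith
    have hσm' : σ' ∈ Icc α (α + s) := by
      rcases hσ' with ⟨-, rfl⟩ | ⟨-, rfl⟩ <;> constructor <;> linarith
    refine ⟨σ', by tauto, ?_⟩
    have m1 : β + j * w ∈ Icc β (β + s) := ⟨by linarith, by linarith⟩
    have m2 : β + j * w + w / 2 ∈ Icc β (β + s) := ⟨by linarith, by linarith⟩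
    have m3 : β + ((j + 1 : ℕ) : ℝ) * w ∈ Icc β (β + s) := by
      push_cast; exact ⟨by linarith, by linarith⟩
    have h1 := h.idist_ver hσm m1 m2
    have h2 := h.row (ε := ε) hσ' m2
    have h3 := h.idist_ver hσm' m2 m3
    have e1 : |β + j * w - (β + j * w + w / 2)| = w / 2 := by
      rw [abs_sub_comm, add_sub_cancel_left, abs_of_pos (by linarith)]
    have e3 : |β + j * w + w / 2 - (β + ((j + 1 : ℕ) : ℝ) * w)| = w / 2 := by
      rw [abs_sub_comm, abs_of_pos (by push_cast; linarith)]; push_cast; ring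
    rw [e1] at h1
    rw [e3] at h3
    have hsub : {z | ∃ a ∈ Icc α (α + s), ∃ b ∈ Ico β (β + ((j + 1 : ℕ) : ℝ) * w), z = G a b} ⊆
        {z | ∃ a ∈ Icc α (α + s), ∃ b ∈ Ico β (β + j * w), z = G a b} ∪
        {z | ∃ a ∈ Icc α (α + s), ∃ b ∈ Icc β (β + s),
          k * |b - (β + j * w + w / 2)| ≤ ε ∧ z = G a b} := by
      rintro z ⟨a, ha, b, hb, rfl⟩
      by_cases hbj : b < β + j * w
      · exact Or.inl ⟨a, ha, b, ⟨hb.1, hbj⟩, rfl⟩
      · refine Or.inr ⟨a, ha, b, ⟨hb.1, hb.2.le.trans m3.2⟩, le_trans ?_ hε, rfl⟩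
        have := hb.2
        push_cast at this
        gcongr
        rw [abs_le]; constructor <;> linarith
    calc _ ≤ _ := Lc_mono S ε _ _ hsub
      _ ≤ _ := Lc_add S ε _ (G σ (β + j * w)) _ _ _
      _ ≤ _ := add_le_add hL ((Lc_left S ε _ (G σ (β + j * w + w / 2)) _ _).trans
          (add_le_add h1 ((Lc_right S ε _ (G σ' (β + j * w + w / 2)) _ _).trans
            (add_le_add h2 h3))))
      _ = _ := by
        rw [← ENNReal.ofReal_add (by positivity) (by positivity),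
          ← ENNReal.ofReal_add (by positivity) (by positivity),
          ← ENNReal.ofReal_add (by positivity) (by positivity)]
        congr 1; push_cast; ring

/-- asymptotic cost of covering `T` by loops at `x` -/
noncomputable def phi (S : Set E3) (x : E3) (T : Set E3) : ℝ≥0∞ :=
  limsup (fun ε => ENNReal.ofReal ε * Lc S ε x x T) (𝓝[>] (0:ℝ))

theorem phi_mono (S : Set E3) (x : E3) {T T' : Set E3} (h : T ⊆ T') : phi S x T ≤ phi S x T' :=
  limsup_le_limsup (Eventually.of_forall (fun ε => by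
    simp only; gcongr; exact Lc_mono S ε x x h))

theorem limsup_add_le' {ι : Type*} (f : Filter ι) (u v : ι → ℝ≥0∞) :
    limsup (u + v) f ≤ limsup u f + limsup v f := by
  refine ENNReal.le_of_forall_pos_le_add (fun η hη hfin => ?_)
  have h2 : ((η / 2 : ℝ≥0) : ℝ≥0∞) ≠ 0 := by simpa using hη.ne'
  have hu : limsup u f < limsup u f + (η / 2 : ℝ≥0) :=
    ENNReal.lt_add_right (ne_top_of_le_ne_top hfin.ne le_self_add) h2
  have hv : limsup v f < limsup v f + (η / 2 : ℝ≥0) :=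
    ENNReal.lt_add_right (ne_top_of_le_ne_top hfin.ne le_add_self) h2
  refine limsup_le_of_le (h := ?_)
  filter_upwards [eventually_lt_of_limsup_lt hu, eventually_lt_of_limsup_lt hv] with i h1 h3
  calc (u + v) i ≤ (limsup u f + (η / 2 : ℝ≥0)) + (limsup v f + (η / 2 : ℝ≥0)) :=
        add_le_add h1.le h3.le
    _ = limsup u f + limsup v f + ((η / 2 + η / 2 : ℝ≥0) : ℝ≥0∞) := by push_cast; ring
    _ = _ := by rw [add_halves]

theorem phi_union (S : Set E3) (x : E3) (T T' : Set E3) :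
    phi S x (T ∪ T') ≤ phi S x T + phi S x T' := by
  refine le_trans ?_ (limsup_add_le' (𝓝[>] (0:ℝ))
    (fun ε => ENNReal.ofReal ε * Lc S ε x x T) (fun ε => ENNReal.ofReal ε * Lc S ε x x T'))
  refine limsup_le_limsup (Eventually.of_forall (fun ε => ?_))
  simp only [Pi.add_apply]
  rw [← mul_add]
  gcongr
  exact Lc_add S ε x x x T T'

theorem phi_le {S : Set E3} {x : E3} {T : Set E3} {c M : ℝ≥0∞} (hM : M ≠ ⊤)
    (h : ∀ ε > 0, ENNReal.ofReal ε * Lc S ε x x T ≤ c + ENNReal.ofReal ε * M) : phi S x T ≤ c := by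
  have ht : Tendsto (fun ε : ℝ => c + ENNReal.ofReal ε * M) (𝓝[>] 0)
      (𝓝 (c + ENNReal.ofReal 0 * M)) :=
    tendsto_const_nhds.add (ENNReal.Tendsto.mul_const
      ((ENNReal.continuous_ofReal.tendsto 0).mono_left nhdsWithin_le_nhds) (Or.inr hM))
  simp only [ENNReal.ofReal_zero, zero_mul, add_zero] at ht
  rw [← ht.limsup_eq]
  exact limsup_le_limsup (eventually_mem_nhdsWithin.mono (fun ε hε => h ε hε))

theorem phi_empty {S : Set E3} {x : E3} (hx : idist S x x ≠ ⊤) : phi S x ∅ = 0 :=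
  le_antisymm (phi_le hx (fun ε _ => by rw [zero_add]; gcongr; exact Lc_empty S ε x x)) bot_le

theorem phi_biUnion {S : Set E3} {x : E3} (hx : idist S x x ≠ ⊤) {ι : Type*} (T : ι → Set E3)
    (F : Finset ι) : phi S x (⋃ i ∈ F, T i) ≤ ∑ i ∈ F, phi S x (T i) := by
  classical
  induction F using Finset.induction_on with
  | empty => simp [phi_empty hx]
  | insert i F hi ih =>
    rw [Finset.set_biUnion_insert, Finset.sum_insert hi]
    exact (phi_union _ _ _ _).trans (add_le_add le_rfl ih)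

theorem Sq.phi_le {S : Set E3} {G : ℝ → ℝ → E3} {α β s k : ℝ} (h : Sq S G α β s k) {x : E3}
    (hx : ∀ y ∈ S, idist S x y ≠ ⊤) :
    phi S x {z | ∃ a ∈ Icc α (α + s), ∃ b ∈ Ico β (β + s), z = G a b} ≤
      ENNReal.ofReal (k ^ 2 * s ^ 2 / 2) := by
  have hs := h.s_pos
  have hk := h.k_nonneg
  have ma : α ∈ Icc α (α + s) := ⟨le_rfl, by linarith⟩
  have ma' : α + s ∈ Icc α (α + s) := ⟨by linarith, le_rfl⟩
  have mb : β ∈ Icc β (β + s) := ⟨le_rfl, by linarith⟩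
  have mb' : β + s ∈ Icc β (β + s) := ⟨by linarith, le_rfl⟩
  refine Dense.phi_le (M := idist S x (G α β) + ENNReal.ofReal (2 * k * s) +
    (idist S x (G α (β + s)) + idist S x (G (α + s) (β + s)))) ?_ (fun ε hε => ?_)
  · have := hx _ (h.mem _ ma _ mb)
    have := hx _ (h.mem _ ma _ mb')
    have := hx _ (h.mem _ ma' _ mb')
    finiteness
  set n := ⌊k * s / (2 * ε)⌋₊ + 1 with hn
  have hn1 : (n:ℝ) ≤ k * s / (2 * ε) + 1 := by
    rw [hn]; push_cast; gcongr; exact Nat.floor_le (by positivity)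
  have hn2 : k * s / (2 * ε) < n := by rw [hn]; push_cast; exact Nat.lt_floor_add_one _
  have hn0 : (0:ℝ) < n := by rw [hn]; positivity
  have hw : (n:ℝ) * (s / n) = s := by field_simp
  have hkw : k * (s / n / 2) ≤ ε := by
    rw [div_lt_iff₀ (by positivity)] at hn2
    rw [div_div, ← mul_div_assoc, div_le_iff₀ (by positivity)]
    linarith
  obtain ⟨σ, hσ, hL⟩ := h.zigzag (ε := ε) (n := n) (w := s / n) (by positivity) hw hkw n le_rfl
  rw [hw] at hL
  have h1 : idist S (G σ (β + s)) x ≤ idist S x (G α (β + s)) + idist S x (G (α + s) (β + s)) := by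
    rw [idist_comm]
    rcases hσ with rfl | rfl
    · exact le_self_add
    · exact le_add_self
  have h2 : ENNReal.ofReal ε * ENNReal.ofReal (k * (n * (s + s / n))) ≤
      ENNReal.ofReal (k ^ 2 * s ^ 2 / 2) + ENNReal.ofReal ε * ENNReal.ofReal (2 * k * s) := by
    rw [← ENNReal.ofReal_mul hε.le, ← ENNReal.ofReal_mul hε.le,
      ← ENNReal.ofReal_add (by positivity) (by positivity)]
    refine ENNReal.ofReal_le_ofReal ?_
    rw [mul_add (n:ℝ), hw]
    calc ε * (k * (n * s + s)) ≤ ε * (k * ((k * s / (2 * ε) + 1) * s + s)) := by gcongr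
      _ = _ := by field_simp; ring
  calc _ ≤ ENNReal.ofReal ε * (idist S x (G α β) + (ENNReal.ofReal (k * (n * (s + s / n))) +
        (idist S x (G α (β + s)) + idist S x (G (α + s) (β + s))))) := by
        gcongr
        exact (Lc_left S ε _ (G α β) _ _).trans (add_le_add le_rfl
          ((Lc_right S ε _ (G σ (β + s)) _ _).trans (add_le_add hL h1)))
    _ = ENNReal.ofReal ε * ENNReal.ofReal (k * (n * (s + s / n))) + ENNReal.ofReal ε *
        (idist S x (G α β) + (idist S x (G α (β + s)) + idist S x (G (α + s) (β + s)))) := by ring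
    _ ≤ _ := add_le_add h2 le_rfl
    _ = _ := by ring

end Pool.Agent.H436Z.Dense
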