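import Pool.Agent.H436Z.DenseB

set_option autoImplicit false
open Set ENNReal MeasureTheory Metric Filter Topology
open scoped NNReal

namespace Pool.Agent.H436Z.Dense
open Pool.Agent.H436Z.Stein

/-- cost of the best relatively open set containing `T` -/
noncomputable def mo (S : Set E3) (x : E3) (T : Set E3) : ℝ≥0∞ :=
  ⨅ (W : Set E3) (_ : IsOpen W ∧ T ⊆ W), phi S x (S ∩ W)

theorem mo_empty {S : Set E3} {x : E3} (hx : idist S x x ≠ ⊤) : mo S x ∅ = 0 :=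
  le_antisymm (iInf₂_le_of_le ∅ ⟨isOpen_empty, subset_rfl⟩ (by simp [phi_empty hx])) bot_le

noncomputable def nu {S : Set E3} {x : E3} (hx : idist S x x ≠ ⊤) : OuterMeasure E3 :=
  OuterMeasure.ofFunction (mo S x) (mo_empty hx)

theorem phi_le_nu {S : Set E3} (hS : IsCompact S) {x : E3} (hx : idist S x x ≠ ⊤) :
    phi S x S ≤ nu hx S := by
  unfold nu
  rw [OuterMeasure.ofFunction_apply]
  refine le_iInf₂ (fun t ht => ENNReal.le_of_forall_pos_le_add (fun η hη hfin => ?_))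
  obtain ⟨e, he, hsum⟩ := ENNReal.exists_pos_sum_of_countable (ε := η) (by simpa using hη.ne') ℕ
  have h1 : ∀ n, ∃ W, (IsOpen W ∧ t n ⊆ W) ∧ phi S x (S ∩ W) < mo S x (t n) + e n := by
    intro n
    have : mo S x (t n) < mo S x (t n) + e n :=
      ENNReal.lt_add_right (ne_top_of_le_ne_top hfin.ne (ENNReal.le_tsum n))
        (by simpa using (he n).ne')
    conv_lhs at this => unfold mo
    simpa only [iInf_lt_iff, exists_prop] using this
  choose W hW hlt using h1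
  obtain ⟨F, hF⟩ := hS.elim_finite_subcover W (fun n => (hW n).1)
    (ht.trans (iUnion_mono (fun n => (hW n).2)))
  have hsub : S ⊆ ⋃ n ∈ F, S ∩ W n := by
    intro y hy
    obtain ⟨n, hn, hyn⟩ := mem_iUnion₂.1 (hF hy)
    exact mem_iUnion₂.2 ⟨n, hn, hy, hyn⟩
  calc phi S x S ≤ _ := phi_mono S x hsub
    _ ≤ _ := phi_biUnion hx _ F
    _ ≤ ∑ n ∈ F, (mo S x (t n) + e n) := Finset.sum_le_sum (fun n _ => (hlt n).le)
    _ ≤ ∑' n, (mo S x (t n) + e n) := ENNReal.sum_le_tsum F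
    _ = _ := ENNReal.tsum_add
    _ ≤ _ := add_le_add le_rfl hsum.le

theorem dist_hor (a a' b : ℝ) : dist (!₂[a, b] : E2) !₂[a', b] = |a - a'| := by
  rw [EuclideanSpace.dist_eq]
  simp [Fin.sum_univ_two, Real.dist_eq, Real.sqrt_sq_eq_abs]

theorem dist_ver (a b b' : ℝ) : dist (!₂[a, b] : E2) !₂[a, b'] = |b - b'| := by
  rw [EuclideanSpace.dist_eq]
  simp [Fin.sum_univ_two, Real.dist_eq, Real.sqrt_sq_eq_abs]

theorem Chart.nu_square {S : Set E3} {g : E2 → E3} {U : Set E2} {k : ℝ≥0} (hc : Chart S g U k)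
    {x : E3} (hx : ∀ y ∈ S, idist S x y ≠ ⊤) (hx0 : idist S x x ≠ ⊤) {v : Fin 2 → ℝ} {ρ : ℝ}
    (hρ : 0 < ρ) (hU : ∀ w ∈ closedBall v ρ, (WithLp.toLp 2 w : E2) ∈ U) :
    nu hx0 (g '' {u : E2 | u.ofLp ∈ ball v ρ}) ≤ ENNReal.ofReal (k ^ 2 * (2 * ρ) ^ 2 / 2) := by
  have hmem : ∀ a ∈ Icc (v 0 - ρ) (v 0 - ρ + 2 * ρ), ∀ b ∈ Icc (v 1 - ρ) (v 1 - ρ + 2 * ρ),
      (!₂[a, b] : E2) ∈ U := by
    intro a ha b hb
    refine hU _ ?_
    rw [mem_closedBall, dist_pi_le_iff hρ.le, Fin.forall_fin_two]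
    simp only [Matrix.cons_val_zero, Matrix.cons_val_one, Real.dist_eq, abs_le]
    exact ⟨⟨by linarith [ha.1], by linarith [ha.2]⟩, ⟨by linarith [hb.1], by linarith [hb.2]⟩⟩
  have hsq : Sq S (fun a b => g !₂[a, b]) (v 0 - ρ) (v 1 - ρ) (2 * ρ) k :=
    { s_pos := by linarith
      k_nonneg := k.2
      mem := fun a ha b hb => hc.maps (hmem a ha b hb)
      hor := fun a ha a' ha' b hb => by
        rw [← dist_hor a a' b]; exact hc.lip.dist_le_mul _ (hmem a ha b hb) _ (hmem a' ha' b hb)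
      ver := fun a ha b hb b' hb' => by
        rw [← dist_ver a b b']; exact hc.lip.dist_le_mul _ (hmem a ha b hb) _ (hmem a ha b' hb') }
  obtain ⟨W, hW, hWe⟩ := hc.opn {u : E2 | u.ofLp ∈ ball v ρ}
    (fun u hu => hU _ (ball_subset_closedBall hu))
    (isOpen_ball.preimage (PiLp.continuous_ofLp 2 _))
  refine (OuterMeasure.ofFunction_le _).trans ?_
  refine (iInf₂_le_of_le W ⟨hW, by rw [hWe]; exact inter_subset_right⟩ le_rfl).trans ?_
  refine le_trans (phi_mono S x ?_) (hsq.phi_le hx)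
  rw [← hWe]
  rintro _ ⟨u, hu, rfl⟩
  have hu' : u.ofLp ∈ ball v ρ := hu
  rw [mem_ball, dist_pi_lt_iff hρ, Fin.forall_fin_two] at hu'
  simp only [Real.dist_eq, abs_lt] at hu'
  refine ⟨u 0, ⟨by linarith [hu'.1.1], by linarith [hu'.1.2]⟩, u 1,
    ⟨by linarith [hu'.2.1], by linarith [hu'.2.2]⟩, ?_⟩
  congr 1
  ext i
  fin_cases i <;> simp

theorem Chart.nu_le_aux {S : Set E3} {g : E2 → E3} {U : Set E2} {k : ℝ≥0} (hc : Chart S g U k)
    {x : E3} (hx : ∀ y ∈ S, idist S x y ≠ ⊤) (hx0 : idist S x x ≠ ⊤) {T : Set E2} (hT : T ⊆ U)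
    {δ : ℝ} (hδ : 0 < δ) :
    nu hx0 (g '' T) ≤ ENNReal.ofReal (k ^ 2 * (1 + δ) ^ 2 / 2) * (volume T + ENNReal.ofReal δ) := by
  have hU' : IsOpen {w : Fin 2 → ℝ | (WithLp.toLp 2 w : E2) ∈ U} :=
    hc.isOpen.preimage (PiLp.continuous_toLp 2 _)
  obtain ⟨t, r, htc, hts, hr, hcov, hsum⟩ :=
    Besicovitch.exists_closedBall_covering_tsum_measure_le (volume : Measure (Fin 2 → ℝ))
      (ε := ENNReal.ofReal δ) (by simpa using hδ)
      (fun v => {r | 0 < r ∧ ∀ w ∈ closedBall v ((1 + δ) * r), (WithLp.toLp 2 w : E2) ∈ U})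
      {w : Fin 2 → ℝ | (WithLp.toLp 2 w : E2) ∈ T} (by
        intro v hv η hη
        obtain ⟨e, he, hb⟩ := Metric.isOpen_iff.1 hU' v (hT hv)
        refine ⟨min (η / 2) (e / (2 * (1 + δ))), ⟨by positivity, fun w hw => hb ?_⟩,
          by positivity, (min_le_left _ _).trans_lt (by linarith)⟩
        refine closedBall_subset_ball ?_ hw
        calc (1 + δ) * min (η / 2) (e / (2 * (1 + δ))) ≤ (1 + δ) * (e / (2 * (1 + δ))) := by
              gcongr; exact min_le_right _ _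
          _ = e / 2 := by field_simp
          _ < e := by linarith)
  have hsub : g '' T ⊆ ⋃ v ∈ t, g '' {u : E2 | u.ofLp ∈ ball v ((1 + δ) * r v)} := by
    rintro _ ⟨u, hu, rfl⟩
    obtain ⟨v, hv, huv⟩ := mem_iUnion₂.1 (hcov (show u.ofLp ∈ _ from hu))
    refine mem_iUnion₂.2 ⟨v, hv, u, closedBall_subset_ball ?_ huv, rfl⟩
    have := (hr v hv).1
    nlinarith
  have hvol : volume {w : Fin 2 → ℝ | (WithLp.toLp 2 w : E2) ∈ T} ≤ volume T :=
    (PiLp.volume_preserving_toLp (Fin 2)).measure_preimage_le T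
  calc nu hx0 (g '' T) ≤ _ := measure_mono hsub
    _ ≤ _ := measure_biUnion_le _ htc _
    _ ≤ ∑' v : t, ENNReal.ofReal (k ^ 2 * (1 + δ) ^ 2 / 2) * volume (closedBall (v : Fin 2 → ℝ) (r v)) := by
        refine ENNReal.tsum_le_tsum (fun v => ?_)
        have h0 := (hr v v.2).1
        refine (hc.nu_square hx hx0 (by positivity) (hr v v.2).2).trans (le_of_eq ?_)
        rw [Real.volume_pi_closedBall _ h0.le, ← ENNReal.ofReal_mul (by positivity)]
        congr 1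
        simp only [Fintype.card_fin]
        ring
    _ = _ := ENNReal.tsum_mul_left
    _ ≤ _ := by gcongr; exact hsum.trans (add_le_add hvol le_rfl)

theorem Chart.nu_le {S : Set E3} {g : E2 → E3} {U : Set E2} {k : ℝ≥0} (hc : Chart S g U k)
    {x : E3} (hx : ∀ y ∈ S, idist S x y ≠ ⊤) (hx0 : idist S x x ≠ ⊤) {T : Set E2} (hT : T ⊆ U)
    (hfin : volume T ≠ ⊤) :
    nu hx0 (g '' T) ≤ ENNReal.ofReal (k ^ 2 / 2) * volume T := by
  have h1 : Tendsto (fun δ : ℝ => ENNReal.ofReal (k ^ 2 * (1 + δ) ^ 2 / 2)) (𝓝[>] 0)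
      (𝓝 (ENNReal.ofReal (k ^ 2 * (1 + 0) ^ 2 / 2))) := by
    refine ENNReal.tendsto_ofReal (Tendsto.mono_left ?_ nhdsWithin_le_nhds)
    exact Continuous.tendsto (f := fun δ : ℝ => (k:ℝ) ^ 2 * (1 + δ) ^ 2 / 2) (by fun_prop) 0
  have h2 : Tendsto (fun δ : ℝ => volume T + ENNReal.ofReal δ) (𝓝[>] 0)
      (𝓝 (volume T + ENNReal.ofReal 0)) :=
    tendsto_const_nhds.add ((ENNReal.continuous_ofReal.tendsto 0).mono_left nhdsWithin_le_nhds)
  have h3 := ENNReal.Tendsto.mul h1 (Or.inr (by simpa using hfin)) h2 (Or.inr (by simp))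
  simp only [add_zero, one_pow, mul_one, ENNReal.ofReal_zero] at h3
  exact ge_of_tendsto h3 (eventually_mem_nhdsWithin.mono (fun δ hδ => hc.nu_le_aux hx hx0 hT hδ))

theorem BiChart.vol_le {S : Set E3} {g : E2 → E3} {U : Set E2} {k : ℝ≥0} (hc : BiChart S g U k)
    {T : Set E2} (hT : T ⊆ U) : volume T ≤ (k : ℝ≥0∞) ^ 2 * area (g '' T) := by
  have hinj : InjOn g U := by
    intro a ha b hb hab
    have := hc.anti a ha b hb
    rw [hab, dist_self, mul_zero] at this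
    exact dist_le_zero.1 this
  have hl : LeftInvOn (Function.invFunOn g U) g U := hinj.leftInvOn_invFunOn
  have hlip : LipschitzOnWith k (Function.invFunOn g U) (g '' T) := by
    refine LipschitzOnWith.of_dist_le_mul ?_
    rintro _ ⟨a, ha, rfl⟩ _ ⟨b, hb, rfl⟩
    rw [hl (hT ha), hl (hT hb)]
    exact hc.anti a (hT ha) b (hT hb)
  refine le_trans (measure_mono ?_) (vol_image_le hlip)
  intro a ha
  exact ⟨g a, ⟨a, ha, rfl⟩, hl (hT ha)⟩

theorem nu_good {S G : Set E3} (hS : IsClosed S) (hA : area S ≠ ⊤) {x : E3}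
    (hx : ∀ y ∈ S, idist S x y ≠ ⊤) (hx0 : idist S x x ≠ ⊤) {k : ℝ≥0}
    (hgood : ∀ y ∈ S ∩ G, ∃ g U, BiChart S g U k ∧ y ∈ g '' U) :
    nu hx0 (S ∩ G) ≤ ENNReal.ofReal (k ^ 2 / 2) * (k : ℝ≥0∞) ^ 2 * area S := by
  have h1 : ∀ y : E3, ∃ g U W, BiChart S g U k ∧ IsOpen W ∧ g '' U = S ∩ W ∧ (y ∈ S ∩ G → y ∈ W) := by
    intro y
    by_cases hy : y ∈ S ∩ G
    · obtain ⟨g, U, hc, hyU⟩ := hgood y hy
      obtain ⟨W, hW, hWU⟩ := hc.opn U subset_rfl hc.isOpen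
      exact ⟨g, U, W, hc, hW, hWU, fun _ => (hWU ▸ hyU).2⟩
    · refine ⟨fun _ => 0, ∅, ∅, ⟨⟨isOpen_empty, mapsTo_empty _ _, by simp, fun V hV _ => ⟨∅, isOpen_empty, ?_⟩⟩,
        by simp⟩, isOpen_empty, by simp, fun h => absurd h hy⟩
      rw [subset_empty_iff.1 hV]; simp
  choose g U W hc hW hWU hyW using h1
  obtain ⟨t, -, htc, hcov⟩ := TopologicalSpace.countable_cover_nhdsWithin (f := W) (s := S ∩ G)
    (fun y hy => mem_nhdsWithin_of_mem_nhds ((hW y).mem_nhds (hyW y hy)))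
  obtain ⟨f, hf⟩ := Set.countable_iff_exists_subset_range.1 htc
  set D := disjointed (fun n => W (f n)) with hD
  have hDm : ∀ n, MeasurableSet (D n) :=
    MeasurableSet.disjointed (fun n => (hW (f n)).measurableSet)
  have hDW : ∀ n, D n ⊆ W (f n) := disjointed_subset _
  have hsub : S ∩ G ⊆ ⋃ n, S ∩ D n := by
    intro y hy
    obtain ⟨z, hz, hyz⟩ := mem_iUnion₂.1 (hcov hy)
    obtain ⟨n, rfl⟩ := hf hz
    have : y ∈ ⋃ n, D n := by rw [hD, iUnion_disjointed]; exact mem_iUnion.2 ⟨n, hyz⟩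
    obtain ⟨m, hm⟩ := mem_iUnion.1 this
    exact mem_iUnion.2 ⟨m, hy.1, hm⟩
  have hpiece : ∀ n, nu hx0 (S ∩ D n) ≤
      ENNReal.ofReal (k ^ 2 / 2) * (k : ℝ≥0∞) ^ 2 * area (S ∩ D n) := by
    intro n
    have e : g (f n) '' (U (f n) ∩ g (f n) ⁻¹' D n) = S ∩ D n := by
      rw [image_inter_preimage, hWU, inter_assoc, inter_eq_self_of_subset_right (hDW n)]
    have h2 := (hc (f n)).vol_le (T := U (f n) ∩ g (f n) ⁻¹' D n) inter_subset_left
    rw [e] at h2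
    have h3 : area (S ∩ D n) ≠ ⊤ := ne_top_of_le_ne_top hA (measure_mono inter_subset_left)
    have h4 := (hc (f n)).toChart.nu_le hx hx0 (T := U (f n) ∩ g (f n) ⁻¹' D n) inter_subset_left
      (ne_top_of_le_ne_top (by finiteness) h2)
    rw [e] at h4
    rw [mul_assoc]
    exact h4.trans (by gcongr)
  have hsum : ∑' n, area (S ∩ D n) ≤ area S := by
    unfold area
    rw [← measure_iUnion _ (fun n => hS.measurableSet.inter (hDm n))]
    · exact measure_mono (iUnion_subset (fun n => inter_subset_left))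
    · intro m n hmn
      exact (disjoint_disjointed _ hmn).mono inter_subset_right inter_subset_right
  calc nu hx0 (S ∩ G) ≤ _ := measure_mono hsub
    _ ≤ _ := measure_iUnion_le _
    _ ≤ _ := ENNReal.tsum_le_tsum hpiece
    _ = _ := ENNReal.tsum_mul_left
    _ ≤ _ := by gcongr

/-- the abstract theorem -/
theorem abstract_main {S G : Set E3} (hS : IsCompact S) {x : E3} (hxS : x ∈ S)
    (hx : ∀ y ∈ S, idist S x y ≠ ⊤)
    (hgood : ∀ y ∈ S ∩ G, ∀ k : ℝ≥0, 1 < k → ∃ g U, BiChart S g U k ∧ y ∈ g '' U)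
    (hall : ∀ y ∈ S, ∃ g U k, Chart S g U k ∧ y ∈ g '' U ∧ volume U ≠ ⊤ ∧
      volume (U ∩ g ⁻¹' Gᶜ) = 0) :
    area S < ⊤ ∧
      Tendsto (fun ε => ENNReal.ofReal ε * shortestDense S ε) (𝓝[>] (0:ℝ)) (𝓝 (area S / 2)) := by
  have hx0 := hx x hxS
  have h1 : ∀ y : S, ∃ g U k W, Chart S g U k ∧ IsOpen W ∧ g '' U = S ∩ W ∧ (y:E3) ∈ W ∧
      volume U ≠ ⊤ ∧ volume (U ∩ g ⁻¹' Gᶜ) = 0 := by
    intro y
    obtain ⟨g, U, k, hc, hyU, h2, h3⟩ := hall y y.2
    obtain ⟨W, hW, hWU⟩ := hc.opn U subset_rfl hc.isOpen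
    exact ⟨g, U, k, W, hc, hW, hWU, (hWU ▸ hyU).2, h2, h3⟩
  choose g U k W hc hW hWU hyW hfin hnull using h1
  obtain ⟨F, hF⟩ := hS.elim_finite_subcover W hW (fun y hy => mem_iUnion.2 ⟨⟨y, hy⟩, hyW _⟩)
  have hsub : S ⊆ ⋃ y ∈ F, g y '' U y := by
    intro z hz
    obtain ⟨y, hy, hzy⟩ := mem_iUnion₂.1 (hF hz)
    exact mem_iUnion₂.2 ⟨y, hy, by rw [hWU]; exact ⟨hz, hzy⟩⟩
  have hsub2 : S \ G ⊆ ⋃ y ∈ F, g y '' (U y ∩ g y ⁻¹' Gᶜ) := by
    intro z hz
    obtain ⟨y, hy, hzy⟩ := mem_iUnion₂.1 (hsub hz.1)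
    exact mem_iUnion₂.2 ⟨y, hy, by rw [image_inter_preimage]; exact ⟨hzy, hz.2⟩⟩
  have hA : area S < ⊤ := by
    refine (measure_mono hsub).trans_lt ((measure_biUnion_finset_le F _).trans_lt ?_)
    refine ENNReal.sum_lt_top.2 (fun y _ => (area_image_le (hc y).lip).trans_lt ?_)
    have := hfin y
    finiteness
  have hN : area (S \ G) = 0 := by
    refine le_antisymm ((measure_mono hsub2).trans ((measure_biUnion_finset_le F _).trans
      (le_of_eq (Finset.sum_eq_zero (fun y _ => ?_))))) bot_le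
    have := area_image_le ((hc y).lip.mono (inter_subset_left (t := g y ⁻¹' Gᶜ)))
    rw [hnull, mul_zero] at this
    exact le_antisymm this bot_le
  have hN2 : nu hx0 (S \ G) = 0 := by
    refine le_antisymm ((measure_mono hsub2).trans ((measure_biUnion_finset_le F _).trans
      (le_of_eq (Finset.sum_eq_zero (fun y _ => ?_))))) bot_le
    have := (hc y).nu_le hx hx0 (inter_subset_left (t := g y ⁻¹' Gᶜ)) (by rw [hnull]; simp)
    rw [hnull, mul_zero] at this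
    exact le_antisymm this bot_le
  refine ⟨hA, tendsto_of_le_liminf_of_limsup_le (lower_bound hN hgood) ?_⟩
  have h2 : limsup (fun ε => ENNReal.ofReal ε * shortestDense S ε) (𝓝[>] (0:ℝ)) ≤ phi S x S :=
    limsup_le_limsup (Eventually.of_forall (fun ε => by
      simp only; gcongr; exact shortest_le_Lc S ε x x))
  have h3 : nu hx0 S ≤ nu hx0 (S ∩ G) := by
    calc nu hx0 S ≤ nu hx0 (S ∩ G ∪ S \ G) := measure_mono (by rw [inter_union_sdiff])
      _ ≤ _ := measure_union_le _ _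
      _ = _ := by rw [hN2, add_zero]
  refine h2.trans ((phi_le_nu hS hx0).trans (h3.trans ?_))
  have h4 : Tendsto (fun k : ℝ≥0 => ENNReal.ofReal (k ^ 2 / 2) * (k : ℝ≥0∞) ^ 2 * area S) (𝓝[>] 1)
      (𝓝 (ENNReal.ofReal ((1:ℝ≥0) ^ 2 / 2) * ((1:ℝ≥0) : ℝ≥0∞) ^ 2 * area S)) := by
    refine ENNReal.Tendsto.mul_const (Tendsto.mono_left ?_ nhdsWithin_le_nhds) (Or.inr hA.ne)
    refine ENNReal.Tendsto.mul (ENNReal.tendsto_ofReal ?_) (Or.inr (by simp))
      (ENNReal.Tendsto.pow (ENNReal.continuous_coe.tendsto 1)) (Or.inr (by simp))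
    exact Continuous.tendsto (f := fun k : ℝ≥0 => (k:ℝ) ^ 2 / 2) (by fun_prop) 1
  have e : ENNReal.ofReal ((1:ℝ≥0) ^ 2 / 2) * ((1:ℝ≥0) : ℝ≥0∞) ^ 2 * area S = area S / 2 := by
    rw [ENNReal.ofReal_div_of_pos (by norm_num)]
    simp [ENNReal.div_eq_inv_mul]
  rw [e] at h4
  exact ge_of_tendsto h4 (eventually_mem_nhdsWithin.mono (fun k hk =>
    nu_good hS.isClosed hA.ne hx hx0 (fun y hy => hgood y hy k hk)))

end Pool.Agent.H436Z.Dense
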