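import Pool.Agent.H436Z.DenseC

set_option autoImplicit false
open Set ENNReal MeasureTheory Metric Filter Topology
open scoped NNReal

namespace Pool.Agent.H436Z.Dense
open Pool.Agent.H436Z.Stein

/-- an asymmetric norm on 3-space -/
structure Gauge (p : E3 → ℝ) (R : ℝ) (L : ℝ≥0) : Prop where
  R_pos : 0 < R
  hom : ∀ t : ℝ, 0 ≤ t → ∀ y, p (t • y) = t * p y
  add : ∀ x y, p (x + y) ≤ p x + p y
  low : ∀ y, ‖y‖ ≤ R * p y
  lip : LipschitzWith L p

def Surf (o : E3) (p : E3 → ℝ) : Set E3 := {x | p (x - o) = 1}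

noncomputable def rad (o : E3) (p : E3 → ℝ) (y : E3) : E3 := o + (p y)⁻¹ • y

variable {p : E3 → ℝ} {R : ℝ} {L : ℝ≥0}

theorem Gauge.pos (h : Gauge p R L) {y : E3} (hy : y ≠ 0) : 0 < p y := by
  have h1 := h.low y
  have h2 := norm_pos_iff.2 hy
  exact (mul_pos_iff_of_pos_left h.R_pos).1 (h2.trans_le h1)

theorem Gauge.zero (h : Gauge p R L) : p 0 = 0 := by
  simpa using h.hom 0 le_rfl 0

theorem Gauge.rad_mem (h : Gauge p R L) (o : E3) {y : E3} (hy : y ≠ 0) : rad o p y ∈ Surf o p := by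
  have := h.pos hy
  simp only [Surf, rad, mem_ofPred_eq, add_sub_cancel_left]
  rw [h.hom _ (by positivity), inv_mul_cancel₀ this.ne']

theorem Gauge.rad_lip (h : Gauge p R L) (o : E3) {c : ℝ} (hc : 0 < c) {y z : E3} (hy : c ≤ ‖y‖)
    (hz : c ≤ ‖z‖) : dist (rad o p y) (rad o p z) ≤ R / c * (1 + L * R) * dist y z := by
  have hR := h.R_pos
  have py := h.pos (norm_pos_iff.1 (hc.trans_le hy))
  have pz := h.pos (norm_pos_iff.1 (hc.trans_le hz))
  have h1 : (p y)⁻¹ ≤ R / c := by
    rw [inv_eq_one_div, div_le_div_iff₀ py hc]; linarith [h.low y]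
  have h2 : |p z - p y| ≤ L * dist y z := by
    rw [← Real.dist_eq, dist_comm]; exact h.lip.dist_le_mul y z
  have e : rad o p y - rad o p z = (p y)⁻¹ • ((y - z) + ((p z - p y) * (p z)⁻¹) • z) := by
    simp only [rad, smul_add, smul_sub, smul_smul]
    have : (p y)⁻¹ * ((p z - p y) * (p z)⁻¹) = (p y)⁻¹ - (p z)⁻¹ := by field_simp
    rw [this, sub_smul]
    abel
  have h3 : (p z)⁻¹ * ‖z‖ ≤ R := by
    rw [inv_mul_le_iff₀ pz]; linarith [h.low z]
  rw [dist_eq_norm, e, norm_smul, Real.norm_eq_abs, abs_of_pos (inv_pos.2 py), mul_assoc]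
  refine mul_le_mul h1 ((norm_add_le _ _).trans ?_) (norm_nonneg _) (by positivity)
  rw [norm_smul, Real.norm_eq_abs, abs_mul, abs_of_pos (inv_pos.2 pz), ← dist_eq_norm, mul_assoc]
  have h4 : |p z - p y| * ((p z)⁻¹ * ‖z‖) ≤ L * dist y z * R := by gcongr
  linarith

theorem Gauge.conn (h : Gauge p R L) (o : E3) {x y : E3} (hx : x ∈ Surf o p) (hy : y ∈ Surf o p) :
    idist (Surf o p) x y ≠ ⊤ := by
  have hR := h.R_pos
  have hne : ∀ z ∈ Surf o p, z - o ≠ 0 := by
    intro z hz h0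
    have : p (z - o) = 1 := hz
    rw [h0, h.zero] at this
    exact zero_ne_one this
  have hrad : ∀ z ∈ Surf o p, rad o p (z - o) = z := by
    intro z hz
    have : p (z - o) = 1 := hz
    simp [rad, this]
  have hcon : IsPreconnected ({0}ᶜ : Set E3) :=
    (isConnected_compl_singleton_of_one_lt_rank (by
      rw [← Module.finrank_eq_rank, finrank_euclideanSpace_fin]; norm_num) 0).isPreconnected
  have loc : ∀ a : E3, a ≠ 0 → ∀ b ∈ ball a (‖a‖ / 2),
      idist (Surf o p) (rad o p a) (rad o p b) ≠ ⊤ := by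
    intro a ha b hb
    have ha' := norm_pos_iff.2 ha
    have hlow : ∀ t ∈ Icc (0:ℝ) 1, ‖a‖ / 2 ≤ ‖AffineMap.lineMap a b t‖ := by
      intro t ht
      have h1 : AffineMap.lineMap a b t ∈ ball a (‖a‖ / 2) :=
        (convex_ball a _).segment_subset (mem_ball_self (by positivity)) hb
          (by rw [segment_eq_image_lineMap]; exact ⟨t, ht, rfl⟩)
      rw [mem_ball, dist_eq_norm'] at h1
      have := norm_sub_norm_le a (AffineMap.lineMap a b t)
      linarith
    have := idist_le_of_lip (S := Surf o p) (γ := fun t => rad o p (AffineMap.lineMap a b t))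
      (a := 0) (b := 1) (by norm_num) (R / (‖a‖ / 2) * (1 + L * R) * dist a b) (by positivity)
      (fun t ht => h.rad_mem o (norm_pos_iff.1 (lt_of_lt_of_le (by positivity) (hlow t ht))))
      (fun s hs t ht => by
        refine (h.rad_lip o (by positivity) (hlow s hs) (hlow t ht)).trans (le_of_eq ?_)
        rw [dist_lineMap_lineMap, Real.dist_eq]; ring)
    simp only [AffineMap.lineMap_apply_zero, AffineMap.lineMap_apply_one] at this
    exact ne_top_of_le_ne_top ENNReal.ofReal_ne_top this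
  have key := hcon.induction₂' (fun a b => idist (Surf o p) (rad o p a) (rad o p b) ≠ ⊤)
    (fun a ha => by
      have ha' := norm_pos_iff.2 ha
      filter_upwards [mem_nhdsWithin_of_mem_nhds (ball_mem_nhds a (show 0 < ‖a‖ / 2 by positivity))]
        with b hb
      exact ⟨loc a ha b hb, by rw [idist_comm]; exact loc a ha b hb⟩)
    (fun a b c _ _ _ hab hbc => ne_top_of_le_ne_top (ENNReal.add_ne_top.2 ⟨hab, hbc⟩)
      (idist_triangle _ _ _ _))
    (hne x hx) (hne y hy)
  rwa [hrad x hx, hrad y hy] at key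

/-- linear coordinates adapted to a vector `c` and a functional `l` -/
structure Frame (c : E3) (l : E3 →L[ℝ] ℝ) (A : E2 →L[ℝ] E3) (B : E3 →L[ℝ] E2) : Prop where
  normA : ∀ u, ‖A u‖ = ‖u‖
  lA : ∀ u, l (A u) = 0
  lc : l c = 1
  BA : ∀ u, B (A u) = u
  Bc : B c = 0
  dec : ∀ y, A (B y) + l y • c = y

theorem exists_frame {c : E3} {l : E3 →L[ℝ] ℝ} (h : l c = 1) : ∃ A B, Frame c l A B := by
  set n := (InnerProductSpace.toDual ℝ E3).symm l with hn
  have hl : ∀ y, l y = inner ℝ n y := fun y => by simp [hn]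
  have hn0 : n ≠ 0 := by
    intro h0
    rw [hl, h0, inner_zero_left] at h
    exact zero_ne_one h
  have : Fact (Module.finrank ℝ E3 = 2 + 1) := ⟨by simp⟩
  let e := (OrthonormalBasis.fromOrthogonalSpanSingleton (𝕜 := ℝ) 2 hn0).repr
  let P : E3 →L[ℝ] E3 := ContinuousLinearMap.id ℝ E3 - l.smulRight c
  have hP : ∀ y, P y = y - l y • c := fun y => rfl
  have hPm : ∀ y, P y ∈ (ℝ ∙ n)ᗮ := by
    intro y
    rw [Submodule.mem_orthogonal_singleton_iff_inner_right, ← hl, hP]
    simp [h]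
  let A : E2 →L[ℝ] E3 := (ℝ ∙ n)ᗮ.subtypeL.comp (e.symm.toContinuousLinearEquiv : E2 →L[ℝ] (ℝ ∙ n)ᗮ)
  let B : E3 →L[ℝ] E2 :=
    (e.toContinuousLinearEquiv : (ℝ ∙ n)ᗮ →L[ℝ] E2).comp (P.codRestrict _ hPm)
  have hA : ∀ u, A u = (e.symm u : E3) := fun u => rfl
  have hB : ∀ y, B y = e ⟨P y, hPm y⟩ := fun y => rfl
  have hlA : ∀ u, l (A u) = 0 := by
    intro u
    rw [hl, hA, ← Submodule.mem_orthogonal_singleton_iff_inner_right]
    exact (e.symm u).2
  refine ⟨A, B, fun u => ?_, hlA, h, fun u => ?_, ?_, fun y => ?_⟩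
  · rw [hA, ← e.symm.norm_map u]; rfl
  · have : (⟨P (A u), hPm _⟩ : (ℝ ∙ n)ᗮ) = e.symm u := by
      ext1
      show P (A u) = _
      rw [hP, hlA, zero_smul, sub_zero, hA]
    rw [hB, this, e.apply_symm_apply]
  · have : (⟨P c, hPm _⟩ : (ℝ ∙ n)ᗮ) = 0 := by
      ext1; simp [hP, h]
    rw [hB, this, map_zero]
  · rw [hB, hA, e.symm_apply_apply]
    show P y + _ = _
    rw [hP]; simp

variable {c : E3} {l : E3 →L[ℝ] ℝ} {A : E2 →L[ℝ] E3} {B : E3 →L[ℝ] E2}

theorem Frame.l_pt (f : Frame c l A B) (u : E2) : l (c + A u) = 1 := by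
  simp [f.lc, f.lA]

theorem Frame.ne (f : Frame c l A B) (u : E2) : c + A u ≠ 0 := by
  intro h
  have := f.l_pt u
  rw [h, map_zero] at this
  exact zero_ne_one this

theorem Frame.inv (f : Frame c l A B) {y : E3} (hy : l y ≠ 0) :
    c + A ((l y)⁻¹ • B y) = (l y)⁻¹ • y := by
  conv_rhs => rw [← f.dec y]
  simp only [map_smul, map_add, f.lA, f.lc, smul_eq_mul, mul_one, zero_add, smul_add, smul_smul,
    inv_mul_cancel₀ hy, one_smul]
  abel

theorem Frame.chart (f : Frame c l A B) (h : Gauge p R L) (o : E3) {U : Set E2} (hU : IsOpen U)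
    {k : ℝ≥0} (hk : LipschitzOnWith k (fun u => rad o p (c + A u)) U) :
    Chart (Surf o p) (fun u => rad o p (c + A u)) U k where
  isOpen := hU
  maps := fun u _ => h.rad_mem o (f.ne u)
  lip := hk
  opn := by
    intro V _ hV
    refine ⟨{x | 0 < l (x - o)} ∩ (fun x => (l (x - o))⁻¹ • B (x - o)) ⁻¹' V, ?_, ?_⟩
    · refine ContinuousOn.isOpen_inter_preimage ?_ (isOpen_lt continuous_const (by fun_prop)) hV
      have c1 : Continuous (fun x : E3 => l (x - o)) := by fun_prop
      have c2 : Continuous (fun x : E3 => B (x - o)) := by fun_prop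
      exact ContinuousOn.smul (c1.continuousOn.inv₀ (fun x hx => ne_of_gt hx)) c2.continuousOn
    · ext x
      constructor
      · rintro ⟨u, hu, rfl⟩
        have hp := h.pos (f.ne u)
        have e1 : l (rad o p (c + A u) - o) = (p (c + A u))⁻¹ := by
          simp only [rad, add_sub_cancel_left, map_smul, f.l_pt, smul_eq_mul, mul_one]
        have e2 : B (rad o p (c + A u) - o) = (p (c + A u))⁻¹ • u := by
          simp only [rad, add_sub_cancel_left, map_smul, map_add, f.Bc, f.BA, zero_add]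
        refine ⟨h.rad_mem o (f.ne u), ?_, ?_⟩
        · show 0 < l (rad o p (c + A u) - o)
          rw [e1]; positivity
        · show (l (rad o p (c + A u) - o))⁻¹ • B (rad o p (c + A u) - o) ∈ V
          rw [e1, e2, smul_smul, inv_mul_cancel₀ (by positivity), one_smul]
          exact hu
      · rintro ⟨hx, h0, hxV⟩
        have h0' : 0 < l (x - o) := h0
        have hx' : p (x - o) = 1 := hx
        refine ⟨_, hxV, ?_⟩
        simp only [f.inv h0'.ne', rad]
        rw [h.hom _ (by positivity), hx', mul_one, inv_inv, smul_smul,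
          mul_inv_cancel₀ h0'.ne', one_smul]
        abel

theorem Frame.lip (f : Frame c l A B) (h : Gauge p R L) (o : E3) :
    ∃ k, LipschitzWith k (fun u => rad o p (c + A u)) := by
  have hR := h.R_pos
  have hl : 0 < ‖l‖ := by
    rw [norm_pos_iff]
    intro h0
    have := f.lc
    rw [h0] at this
    simp at this
  have hlow : ∀ u, ‖l‖⁻¹ ≤ ‖c + A u‖ := by
    intro u
    have h1 := l.le_opNorm (c + A u)
    rw [f.l_pt, norm_one] at h1
    rw [inv_le_iff_one_le_mul₀' hl]
    exact h1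
  refine ⟨⟨R / ‖l‖⁻¹ * (1 + L * R), by positivity⟩, LipschitzWith.of_dist_le_mul (fun u v => ?_)⟩
  refine (h.rad_lip o (by positivity) (hlow u) (hlow v)).trans (le_of_eq ?_)
  rw [dist_add_left, dist_eq_norm, ← map_sub, f.normA, dist_eq_norm]
  rfl

theorem Frame.diff (f : Frame c l A B) (h : Gauge p R L) {u : E2}
    (hu : DifferentiableAt ℝ (fun u => p (c + A u)) u) {τ : ℝ} (hτ : 0 < τ) :
    DifferentiableAt ℝ p (τ • (c + A u)) := by
  have e1 : l (τ • (c + A u)) = τ := by simp only [map_smul, f.l_pt, smul_eq_mul, mul_one]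
  have e2 : (l (τ • (c + A u)))⁻¹ • B (τ • (c + A u)) = u := by
    rw [e1]
    simp only [map_smul, map_add, f.Bc, f.BA, zero_add, smul_smul, inv_mul_cancel₀ hτ.ne', one_smul]
  have h1 : DifferentiableAt ℝ (fun y => (l y)⁻¹ • B y) (τ • (c + A u)) :=
    (l.differentiableAt.inv (by rw [e1]; exact hτ.ne')).smul B.differentiableAt
  have h2 : DifferentiableAt ℝ (fun y => l y * p (c + A ((l y)⁻¹ • B y))) (τ • (c + A u)) :=
    l.differentiableAt.mul (DifferentiableAt.comp (g := fun u => p (c + A u)) _ (e2.symm ▸ hu) h1)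
  refine h2.congr_of_eventuallyEq ?_
  have h3 : ∀ᶠ y in 𝓝 (τ • (c + A u)), 0 < l y :=
    l.continuous.continuousAt.eventually (lt_mem_nhds (by rw [e1]; exact hτ))
  filter_upwards [h3] with y hy
  rw [f.inv hy.ne', h.hom _ (by positivity), ← mul_assoc, mul_inv_cancel₀ hy.ne', one_mul]

theorem Gauge.all_chart (h : Gauge p R L) (o : E3) {y : E3} (hy : y ∈ Surf o p) :
    ∃ g U k, Chart (Surf o p) g U k ∧ y ∈ g '' U ∧ volume U ≠ ⊤ ∧
      volume (U ∩ g ⁻¹' {x | DifferentiableAt ℝ p (x - o)}ᶜ) = 0 := by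
  have hy' : p (y - o) = 1 := hy
  have hne : y - o ≠ 0 := by
    intro h0
    rw [h0, h.zero] at hy'
    exact zero_ne_one hy'
  obtain ⟨l, hl⟩ : ∃ l : E3 →L[ℝ] ℝ, l (y - o) = 1 := by
    refine ⟨(‖y - o‖ ^ 2)⁻¹ • innerSL ℝ (y - o), ?_⟩
    have := norm_pos_iff.2 hne
    simp only [_root_.smul_apply, innerSL_apply_apply, real_inner_self_eq_norm_sq,
      smul_eq_mul]
    exact inv_mul_cancel₀ (by positivity)
  obtain ⟨A, B, f⟩ := exists_frame hl
  obtain ⟨k, hk⟩ := f.lip h o
  refine ⟨_, ball 0 1, k, f.chart h o isOpen_ball hk.lipschitzOnWith,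
    ⟨0, mem_ball_self one_pos, by simp [rad, hy']⟩, measure_ball_lt_top.ne, ?_⟩
  have hlip : LipschitzWith (L * ‖A‖₊) (fun u => p (y - o + A u)) := by
    have h1 : LipschitzWith ‖A‖₊ (fun u => y - o + A u) := by
      refine LipschitzWith.of_dist_le_mul (fun u v => ?_)
      rw [dist_add_left]
      exact A.lipschitz.dist_le_mul u v
    exact h.lip.comp h1
  refine measure_mono_null (fun u hu => ?_) (ae_iff.1 (hlip.ae_differentiableAt (μ := volume)))
  intro hd
  refine hu.2 ?_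
  have := f.diff h hd (inv_pos.2 (h.pos (f.ne u)))
  simpa [rad] using this

theorem strict_of_convex {ψ : E2 → ℝ} (hc : ConvexOn ℝ univ ψ) (h0 : ψ 0 = 0)
    (hd : HasFDerivAt ψ (0 : E2 →L[ℝ] ℝ) 0) : HasStrictFDerivAt ψ (0 : E2 →L[ℝ] ℝ) 0 := by
  rw [hasStrictFDerivAt_iff_isLittleO, Asymptotics.isLittleO_iff]
  intro δ hδ
  rw [hasFDerivAt_iff_isLittleO, Asymptotics.isLittleO_iff] at hd
  obtain ⟨r, hr, hb⟩ := Metric.eventually_nhds_iff.1 (hd (show 0 < δ / 4 by positivity))
  have hl := (hc.subset (subset_univ (ball 0 r)) (convex_ball _ _)).lipschitzOnWith_of_abs_le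
    (ε := r / 2) (M := δ / 4 * r) (by positivity) (fun a ha => by
      have := hb ha
      simp only [h0, sub_zero, _root_.zero_apply, Real.norm_eq_abs] at this
      rw [dist_zero_right] at ha
      exact this.trans (by gcongr))
  have hm : ball (0:E2) (r - r / 2) ∈ 𝓝 (0:E2) := ball_mem_nhds _ (by linarith)
  filter_upwards [prod_mem_nhds hm hm] with z hz
  have := hl.dist_le_mul z.1 hz.1 z.2 hz.2
  rw [Real.coe_toNNReal _ (by positivity), show 2 * (δ / 4 * r) / (r / 2) = δ by field_simp; ring,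
    dist_eq_norm, dist_eq_norm] at this
  simpa using this

theorem Gauge.good_chart (h : Gauge p R L) (o : E3) {y : E3} (hy : y ∈ Surf o p)
    (hd : DifferentiableAt ℝ p (y - o)) {k : ℝ≥0} (hk : 1 < k) :
    ∃ g U, BiChart (Surf o p) g U k ∧ y ∈ g '' U := by
  have hy' : p (y - o) = 1 := hy
  set c := y - o with hc
  have hk' : (1:ℝ) < k := hk
  have hl : fderiv ℝ p c c = 1 := by
    have h1 : HasDerivAt (fun t : ℝ => t • c) c 1 := by
      simpa using (hasDerivAt_id (1:ℝ)).smul_const c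
    have h2 : HasDerivAt (fun t : ℝ => p (t • c)) (fderiv ℝ p c c) 1 :=
      HasFDerivAt.comp_hasDerivAt_of_eq (1:ℝ) hd.hasFDerivAt h1 (by simp)
    have h3 : HasDerivAt (fun t : ℝ => p (t • c)) 1 1 := by
      refine (hasDerivAt_id (1:ℝ)).congr_of_eventuallyEq ?_
      filter_upwards [lt_mem_nhds (show (0:ℝ) < 1 by norm_num)] with t ht
      rw [h.hom t ht.le, hy', mul_one]; rfl
    exact h2.unique h3
  obtain ⟨A, B, f⟩ := exists_frame hl
  have hι : HasStrictFDerivAt (fun u => c + A u) A 0 := A.hasStrictFDerivAt.const_add c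
  have hψ : HasStrictFDerivAt (fun u => p (c + A u) - 1) (0 : E2 →L[ℝ] ℝ) 0 := by
    refine strict_of_convex ⟨convex_univ, fun u _ v _ a b ha hb hab => ?_⟩ (by simp [hy']) ?_
    · have e : c + A (a • u + b • v) = a • (c + A u) + b • (c + A v) := by
        simp only [map_add, map_smul, smul_add]
        conv_lhs => rw [← one_smul ℝ c, ← hab, add_smul]
        abel
      have := h.add (a • (c + A u)) (b • (c + A v))
      rw [h.hom a ha, h.hom b hb] at this
      simp only [e, smul_eq_mul]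
      nlinarith
    · have h1 : HasFDerivAt p (fderiv ℝ p c) (c + A 0) := by simpa using hd.hasFDerivAt
      have h2 := (h1.comp 0 hι.hasFDerivAt).sub_const 1
      have h3 : (fderiv ℝ p c).comp A = 0 := by ext1 u; exact f.lA u
      rwa [h3] at h2
  have hψ' : HasStrictFDerivAt (fun u => p (c + A u)) (0 : E2 →L[ℝ] ℝ) 0 := by
    simpa using hψ.add_const 1
  have hinv : HasStrictFDerivAt (fun u => (p (c + A u))⁻¹) (0 : E2 →L[ℝ] ℝ) 0 := by
    have h1 := (hasStrictDerivAt_inv (x := p (c + A 0)) (by simp [hy'])).comp_hasStrictFDerivAt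
      0 hψ'
    simpa [Function.comp_def] using h1
  have hg : HasStrictFDerivAt (fun u => rad o p (c + A u)) A 0 := by
    have h1 := (hinv.smul hι).const_add o
    simpa [hy', rad] using h1
  have hτ : (0:ℝ) < 1 - 1 / k := by
    rw [sub_pos, div_lt_one (by linarith)]; exact hk'
  obtain ⟨s, hs, hap⟩ := hg.approximates_deriv_on_nhds (c := ⟨1 - 1 / k, hτ.le⟩) (Or.inr hτ)
  obtain ⟨U, hUs, hU, h0U⟩ := _root_.mem_nhds_iff.1 hs
  have hap' : ∀ a ∈ U, ∀ b ∈ U,
      ‖rad o p (c + A a) - rad o p (c + A b) - A (a - b)‖ ≤ (1 - 1 / k) * ‖a - b‖ :=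
    fun a ha b hb => hap a (hUs ha) b (hUs hb)
  have hlip : LipschitzOnWith k (fun u => rad o p (c + A u)) U := by
    refine LipschitzOnWith.of_dist_le_mul (fun a ha b hb => ?_)
    have h1 := hap' a ha b hb
    have h2 := norm_sub_norm_le (rad o p (c + A a) - rad o p (c + A b)) (A (a - b))
    rw [f.normA] at h2
    rw [dist_eq_norm, dist_eq_norm]
    have h3 : 2 - 1 / (k:ℝ) ≤ k := by
      rw [sub_le_comm, le_div_iff₀ (by linarith)]; nlinarith [sq_nonneg ((k:ℝ) - 1)]
    nlinarith [norm_nonneg (a - b)]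
  refine ⟨_, U, ⟨f.chart h o hU hlip, fun a ha b hb => ?_⟩, ⟨0, h0U, by
    simp only [rad, map_zero, add_zero, hy', inv_one, one_smul]; simp [hc]⟩⟩
  have h1 := hap' a ha b hb
  have h2 := norm_sub_norm_le (A (a - b)) (rad o p (c + A a) - rad o p (c + A b))
  rw [f.normA, norm_sub_rev (A (a - b))] at h2
  rw [dist_eq_norm, dist_eq_norm, ← div_le_iff₀' (by linarith)]
  have : ‖a - b‖ / k = 1 / k * ‖a - b‖ := by ring
  linarith

theorem convex_main {K : Set E3} (hK : IsCompact K) (hc : Convex ℝ K)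
    (hi : (interior K).Nonempty) :
    area (frontier K) < ⊤ ∧
      Tendsto (fun ε => ENNReal.ofReal ε * shortestDense (frontier K) ε) (𝓝[>] (0:ℝ))
        (𝓝 (area (frontier K) / 2)) := by
  obtain ⟨o, ho⟩ := hi
  set K0 : Set E3 := (Homeomorph.addLeft o) ⁻¹' K with hK0
  have hc0 : Convex ℝ K0 := hc.translate_preimage_right o
  have hn0 : K0 ∈ 𝓝 (0:E3) :=
    (Homeomorph.addLeft o).continuous.continuousAt.preimage_mem_nhds
      (by simpa using mem_interior_iff_mem_nhds.1 ho)
  have hab : Absorbent ℝ K0 := absorbent_nhds_zero hn0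
  obtain ⟨L, hL⟩ := hc0.lipschitz_gauge hn0
  obtain ⟨R, hR, hKR⟩ := ((Homeomorph.addLeft o).isCompact_preimage.2 hK).isBounded.subset_closedBall_lt
    0 0
  have hg : Gauge (gauge K0) R L :=
    { R_pos := hR
      hom := fun t ht y => by rw [gauge_smul_of_nonneg ht]; rfl
      add := gauge_add_le hc0 hab
      low := fun y => by
        have := le_gauge_of_subset_closedBall (x := y) hab hR.le hKR
        rwa [div_le_iff₀' hR] at this
      lip := hL }
  have hS : frontier K = Surf o (gauge K0) := by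
    ext x
    rw [Surf, mem_ofPred_eq, gauge_eq_one_iff_mem_frontier hc0 hn0, hK0,
      ← Homeomorph.preimage_frontier]
    simp
  have hcomp : IsCompact (frontier K) :=
    hK.of_isClosed_subset isClosed_frontier hK.isClosed.frontier_subset
  have hx0 : rad o (gauge K0) (EuclideanSpace.single 0 1) ∈ Surf o (gauge K0) :=
    hg.rad_mem o (by simp)
  rw [hS] at hcomp ⊢
  exact abstract_main (G := {x | DifferentiableAt ℝ (gauge K0) (x - o)}) hcomp hx0
    (fun y hy => hg.conn o hx0 hy) (fun y hy k hk => hg.good_chart o hy.1 hy.2 hk)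
    (fun y hy => hg.all_chart o hy)

end Pool.Agent.H436Z.Dense
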