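import Mathlib

/-!
A finite relational signature and a class of structures closed under inverse homomorphisms
(those mapping to a fixed four element template) whose typical member changes with the parity
of the size.
-/

set_option autoImplicit false
open FirstOrder FirstOrder.Language

namespace Pool.Agent.H436Z.Forb

inductive Sym : Type
  | a1 | a2 | a3 | a4 | b1 | b2 | b3 | b4
  deriving DecidableEq

instance : Fintype Sym :=
  ⟨{Sym.a1, Sym.a2, Sym.a3, Sym.a4, Sym.b1, Sym.b2, Sym.b3, Sym.b4}, by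
    intro x; cases x <;> simp⟩

def ar : Sym → ℕ
  | .a1 => 5 | .a2 => 5 | .a3 => 4 | .a4 => 2 | .b1 => 5 | .b2 => 5 | .b3 => 4 | .b4 => 4

def side : Sym → Bool
  | .a1 => false | .a2 => false | .a3 => false | .a4 => false
  | .b1 => true | .b2 => true | .b3 => true | .b4 => true

def spec5 (i : ℕ) : Option Bool := if i = 0 then some false else if i = 1 then some true else none
def spec4 (i : ℕ) : Option Bool := if i = 0 then some false else none

def spec : Sym → ℕ → Option Bool
  | .a1 => spec5 | .a2 => spec5 | .a3 => fun _ => none | .a4 => fun _ => none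
  | .b1 => spec5 | .b2 => spec5 | .b3 => spec4 | .b4 => spec4

def ok (s : Sym) (i : ℕ) (col : Bool × Bool) : Prop :=
  col.1 = side s ∧ (spec s i = none ∨ spec s i = some col.2)

instance (s : Sym) (i : ℕ) (col : Bool × Bool) : Decidable (ok s i col) := by
  unfold ok; infer_instance

def LL : FirstOrder.Language.{0, 0} where
  Functions := fun _ => Empty
  Relations := fun l => {s : Sym // ar s = l}

abbrev Slot (M : Type) : Type := Σ s : Sym, (Fin (ar s) → M)

def toSet {M : Type} (S : LL.Structure M) : Set (Slot M) :=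
  {p | @Structure.RelMap LL M S (ar p.1) ⟨p.1, rfl⟩ p.2}

@[reducible] def ofSet {M : Type} (T : Set (Slot M)) : LL.Structure M where
  funMap := fun f _ => Empty.elim f
  RelMap := fun r v => (⟨r.1, v ∘ Fin.cast r.2⟩ : Slot M) ∈ T

def strEquiv (M : Type) : LL.Structure M ≃ Set (Slot M) where
  toFun := toSet
  invFun := ofSet
  left_inv := by
    intro S
    ext l
    · rename_i f _; exact Empty.elim f
    · rename_i r v
      obtain ⟨s, rfl⟩ := r
      rfl
  right_inv := by
    intro T
    ext ⟨s, v⟩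
    rfl

def Bad {M : Type} (T : Set (Slot M)) : Prop :=
  ∃ p ∈ T, ∃ q ∈ T, ∃ (i : Fin (ar p.1)) (j : Fin (ar q.1)), p.2 i = q.2 j ∧
    ¬ ∃ col, ok p.1 i col ∧ ok q.1 j col

def W {M : Type} (c : M → Bool × Bool) : Set (Slot M) := {p | ∀ i : Fin (ar p.1), ok p.1 i (c (p.2 i))}

theorem not_bad_iff {M : Type} (T : Set (Slot M)) : ¬ Bad T ↔ ∃ c, T ⊆ W c := by
  classical
  constructor
  · intro h
    have h' : ∀ p ∈ T, ∀ q ∈ T, ∀ (i : Fin (ar p.1)) (j : Fin (ar q.1)), p.2 i = q.2 j →
        ∃ col, ok p.1 i col ∧ ok q.1 j col := by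
      intro p hp q hq i j hij
      by_contra hc
      exact h ⟨p, hp, q, hq, i, j, hij, hc⟩
    refine ⟨fun x => (decide (∃ p ∈ T, ∃ i : Fin (ar p.1), p.2 i = x ∧ side p.1 = true),
      decide (∃ p ∈ T, ∃ i : Fin (ar p.1), p.2 i = x ∧ spec p.1 i = some true)), ?_⟩
    intro p hp i
    constructor
    · cases hs : side p.1
      · simp only [decide_eq_false_iff_not]
        rintro ⟨q, hq, j, hj, hsq⟩
        obtain ⟨col, h1, h2⟩ := h' p hp q hq i j hj.symm
        have := h1.1
        have := h2.1
        simp_all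
      · simp only [decide_eq_true_eq]
        exact ⟨p, hp, i, rfl, hs⟩
    · cases hs : spec p.1 i with
      | none => exact Or.inl rfl
      | some b =>
        right
        cases b
        · congr 1
          symm
          simp only [decide_eq_false_iff_not]
          rintro ⟨q, hq, j, hj, hsq⟩
          obtain ⟨col, h1, h2⟩ := h' p hp q hq i j hj.symm
          have := h1.2
          have := h2.2
          simp_all
        · congr 1
          symm
          simp only [decide_eq_true_eq]
          exact ⟨p, hp, i, rfl, hs⟩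
  · rintro ⟨c, hc⟩ ⟨p, hp, q, hq, i, j, hij, hn⟩
    exact hn ⟨c (p.2 i), hc hp i, by rw [hij]; exact hc hq j⟩

theorem ar_le (s : Sym) : ar s ≤ 5 := by cases s <;> simp [ar]

theorem bad_of_hom {M N : Type} (S : LL.Structure M) (S' : LL.Structure N)
    (f : @Language.Hom LL M N S S') (h : Bad (toSet S)) : Bad (toSet S') := by
  obtain ⟨p, hp, q, hq, i, j, hij, hn⟩ := h
  refine ⟨⟨p.1, f.toFun ∘ p.2⟩, f.map_rel' _ _ hp, ⟨q.1, f.toFun ∘ q.2⟩, f.map_rel' _ _ hq,
    i, j, ?_, hn⟩
  simp [hij]

theorem hom_of_bad {N : Type} (S' : LL.Structure N) (h : Bad (toSet S')) :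
    ∃ S : LL.Structure (Fin 10), Bad (toSet S) ∧ Nonempty (@Language.Hom LL (Fin 10) N S S') := by
  classical
  obtain ⟨p, hp, q, hq, i, j, hij, hn⟩ := h
  let T : Finset N := Finset.univ.image p.2 ∪ Finset.univ.image q.2
  have hT : T.card ≤ 10 := by
    have h1 : (Finset.univ.image p.2).card ≤ 5 :=
      Finset.card_image_le.trans (by simpa using ar_le p.1)
    have h2 : (Finset.univ.image q.2).card ≤ 5 :=
      Finset.card_image_le.trans (by simpa using ar_le q.1)
    exact (Finset.card_union_le _ _).trans (by omega)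
  have hcard : Fintype.card T ≤ Fintype.card (Fin 10) := by simpa using hT
  obtain ⟨g⟩ := Function.Embedding.nonempty_of_card_le hcard
  haveI : Nonempty T := ⟨⟨p.2 i, by simp [T]⟩⟩
  let f : Fin 10 → N := fun y => (Function.invFun g y : T)
  have hfg : ∀ x : T, f (g x) = x := by
    intro x
    simp only [f]
    rw [Function.leftInverse_invFun g.injective x]
  have hpT : ∀ k, p.2 k ∈ T := by intro k; simp [T]
  have hqT : ∀ k, q.2 k ∈ T := by intro k; simp [T]
  let U : Set (Slot (Fin 10)) := {r | (⟨r.1, f ∘ r.2⟩ : Slot N) ∈ toSet S'}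
  refine ⟨ofSet U, ?_, ⟨@Language.Hom.mk LL (Fin 10) N (ofSet U) S' f ?_ ?_⟩⟩
  · have e : toSet (ofSet U) = U := (strEquiv (Fin 10)).right_inv U
    rw [e]
    refine ⟨⟨p.1, fun k => g ⟨p.2 k, hpT k⟩⟩, ?_, ⟨q.1, fun k => g ⟨q.2 k, hqT k⟩⟩, ?_, i, j, ?_, hn⟩
    · have : (f ∘ fun k => g ⟨p.2 k, hpT k⟩) = p.2 := by ext k; simp [hfg]
      show (⟨p.1, f ∘ fun k => g ⟨p.2 k, hpT k⟩⟩ : Slot N) ∈ toSet S'
      rw [this]; exact hp
    · have : (f ∘ fun k => g ⟨q.2 k, hqT k⟩) = q.2 := by ext k; simp [hfg]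
      show (⟨q.1, f ∘ fun k => g ⟨q.2 k, hqT k⟩⟩ : Slot N) ∈ toSet S'
      rw [this]; exact hq
    · simp only
      congr 1
      exact Subtype.ext hij
  · intro n f'; exact Empty.elim f'
  · intro n r x hx
    obtain ⟨s, rfl⟩ := r
    exact hx

noncomputable def phi : LL.Sentence :=
  Formula.iInf (fun s : {s : Sym // side s = true} =>
    Formula.iAlls (Fin (ar s.1))
      (Formula.not (Relations.formula (L := LL) (n := ar s.1) ⟨s.1, rfl⟩
        (fun i => Term.var (Sum.inr i)))))

theorem realize_phi {M : Type} (S : LL.Structure M) :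
    (M ⊨ phi) ↔ ∀ p ∈ toSet S, side p.1 = false := by
  unfold phi Sentence.Realize
  rw [Formula.realize_iInf]
  simp only [Formula.realize_iAlls, Formula.realize_not]
  constructor
  · intro h p hp
    by_contra hs
    refine h ⟨p.1, by simpa using hs⟩ p.2 ?_
    exact (Formula.realize_rel (L := LL)).2 hp
  · intro h s v hv
    have := h ⟨s.1, v⟩ ((Formula.realize_rel (L := LL)).1 hv)
    have h2 := s.2
    simp_all

end Pool.Agent.H436Z.Forb
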