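import Pool.Agent.H436Z.ForbA

set_option autoImplicit false
open FirstOrder FirstOrder.Language

namespace Pool.Agent.H436Z.Forb

def cnt {n : ℕ} (c : Fin n → Bool × Bool) (col : Bool × Bool) : ℕ :=
  (Finset.univ.filter (fun x => c x = col)).card

def EE (k1 k2 k3 k4 : ℕ) : ℕ :=
  2 * (k1 * k2 * (k1 + k2) ^ 3) + (k1 + k2) ^ 4 + (k1 + k2) ^ 2 +
    2 * (k3 * k4 * (k3 + k4) ^ 3) + 2 * (k3 * (k3 + k4) ^ 3)

theorem card_filter_col {n : ℕ} (c : Fin n → Bool × Bool) (P : Bool × Bool → Prop)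
    [DecidablePred P] :
    (Finset.univ.filter (fun x => P (c x))).card =
      ∑ col ∈ Finset.univ.filter P, cnt c col := by
  rw [Finset.card_eq_sum_card_fiberwise (f := c) (t := Finset.univ.filter P)]
  · apply Finset.sum_congr rfl
    intro col hcol
    unfold cnt
    congr 1
    ext x
    simp only [Finset.mem_filter, Finset.mem_univ, true_and] at hcol ⊢
    constructor
    · exact fun h => h.2
    · intro h; exact ⟨h ▸ hcol, h⟩
  · intro x hx
    simpa using hx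

theorem cnt_sum {n : ℕ} (c : Fin n → Bool × Bool) :
    cnt c (false, false) + cnt c (false, true) + cnt c (true, false) + cnt c (true, true) = n := by
  have := card_filter_col c (fun _ => True)
  simp only [Finset.filter_true, Finset.card_univ, Fintype.card_fin, Fintype.sum_prod_type,
    Fintype.sum_bool] at this
  omega

theorem ncard_W {n : ℕ} (c : Fin n → Bool × Bool) :
    (W c).ncard = EE (cnt c (false, false)) (cnt c (false, true)) (cnt c (true, false))
      (cnt c (true, true)) := by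
  classical
  have h1 : W c = ((Finset.univ : Finset Sym).sigma (fun s => Fintype.piFinset
      (fun i : Fin (ar s) => Finset.univ.filter (fun x => ok s i (c x)))) :
        Finset (Slot (Fin n))) := by
    ext ⟨s, v⟩
    simp [W]
  rw [h1, Set.ncard_coe_finset, Finset.card_sigma]
  simp only [Fintype.card_piFinset, card_filter_col c (ok _ _)]
  have hu : (Finset.univ : Finset Sym) =
      {Sym.a1, Sym.a2, Sym.a3, Sym.a4, Sym.b1, Sym.b2, Sym.b3, Sym.b4} := rfl
  rw [hu]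
  rw [Finset.sum_insert (by decide), Finset.sum_insert (by decide), Finset.sum_insert (by decide),
    Finset.sum_insert (by decide), Finset.sum_insert (by decide), Finset.sum_insert (by decide),
    Finset.sum_insert (by decide), Finset.sum_singleton]
  simp only [Finset.sum_filter, Fintype.sum_prod_type, Fintype.sum_bool]
  show ∏ i : Fin 5, _ + (∏ i : Fin 5, _ + (∏ i : Fin 4, _ + (∏ i : Fin 2, _ + (∏ i : Fin 5, _ +
    (∏ i : Fin 5, _ + (∏ i : Fin 4, _ + ∏ i : Fin 4, _)))))) = _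
  simp only [Fin.prod_univ_succ, Fin.prod_univ_zero]
  simp [ok, side, spec, spec5, spec4, EE]
  ring

theorem ncard_pow_W {n : ℕ} (c : Fin n → Bool × Bool) :
    {T : Set (Slot (Fin n)) | T ⊆ W c}.ncard = 2 ^ (W c).ncard :=
  Set.ncard_powerset _ (Set.toFinite _)

theorem upper {n : ℕ} (A : Set (Set (Slot (Fin n)))) (b : ℕ)
    (h : ∀ T ∈ A, ∃ c, T ⊆ W c ∧ (W c).ncard ≤ b) : A.ncard ≤ 4 ^ n * 2 ^ b := by
  classical
  have hsub : A ⊆ ⋃ c : Fin n → Bool × Bool,
      {T : Set (Slot (Fin n)) | T ⊆ W c ∧ (W c).ncard ≤ b} := by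
    intro T hT
    obtain ⟨c, hc⟩ := h T hT
    exact Set.mem_iUnion.2 ⟨c, hc⟩
  refine (Set.ncard_le_ncard hsub (Set.toFinite _)).trans ?_
  refine (Set.ncard_iUnion_le_of_fintype _).trans ?_
  have : ∀ c : Fin n → Bool × Bool,
      {T : Set (Slot (Fin n)) | T ⊆ W c ∧ (W c).ncard ≤ b}.ncard ≤ 2 ^ b := by
    intro c
    by_cases hb : (W c).ncard ≤ b
    · simp only [hb, and_true]
      rw [ncard_pow_W]
      exact Nat.pow_le_pow_right (by norm_num) hb
    · simp [hb]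
  refine (Finset.sum_le_card_nsmul _ _ _ (fun c _ => this c)).trans ?_
  simp

theorem lower {n : ℕ} (c : Fin n → Bool × Bool) :
    2 ^ (W c).ncard ≤ {T : Set (Slot (Fin n)) | ¬ Bad T}.ncard := by
  rw [← ncard_pow_W]
  refine Set.ncard_le_ncard ?_ (Set.toFinite _)
  intro T hT
  exact (not_bad_iff T).2 ⟨c, hT⟩

theorem ineq_even (t k1 k2 k3 k4 : ℕ) (ht : 2 ≤ t) (hs : k1 + k2 + k3 + k4 = 2 * t)
    (hm : 1 ≤ k3 + k4) : EE k1 k2 k3 k4 + (2 * (2 * t) + 2) ≤ EE t t 0 0 := by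
  unfold EE
  obtain ⟨p, hp⟩ : ∃ p, p = k1 + k2 := ⟨_, rfl⟩
  obtain ⟨m, hm'⟩ : ∃ m, m = k3 + k4 := ⟨_, rfl⟩
  rw [← hp, ← hm']
  rw [← hm'] at hm
  have hpm : p + m = 2 * t := by omega
  have h12 : 4 * (k1 * k2) ≤ p ^ 2 := by
    rw [hp]; zify; nlinarith [sq_nonneg ((k1 : ℤ) - k2)]
  have e : t + t = p + m := by omega
  have et : 4 * (t * t) = (p + m) ^ 2 := by rw [hpm]; ring
  rw [e, ← hpm]
  rcases Nat.eq_zero_or_pos p with h0 | h0
  · subst h0
    have hm2 : m = 2 * t := by omega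
    have h34 : k3 * k4 + k3 ≤ t * t + t := by
      have : k4 = 2 * t - k3 := by omega
      have h3 : k3 ≤ 2 * t := by omega
      zify [h3] at this ⊢
      rw [this]
      rcases le_or_gt (k3 : ℤ) t with h | h
      · nlinarith
      · nlinarith
    have hk : k1 = 0 := by omega
    subst hk
    have h5 : (k3 * k4 + k3) * m ^ 3 ≤ (t * t + t) * m ^ 3 := Nat.mul_le_mul_right _ h34
    have h6 : m ^ 4 = 2 * (t * m ^ 3) := by rw [hm2]; ring
    have h7 : 2 * m + 2 ≤ m ^ 2 := by nlinarith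
    simp only [zero_add]
    nlinarith
  · have h34 : 4 * (k3 * k4 + k3) ≤ (m + 1) ^ 2 := by
      rw [hm']; zify; nlinarith [sq_nonneg ((k3 : ℤ) - k4 - 1)]
    have h5 : 4 * (k3 * k4 + k3) * m ^ 3 ≤ (m + 1) ^ 2 * m ^ 3 := Nat.mul_le_mul_right _ h34
    have h6 : 4 * (k1 * k2) * p ^ 3 ≤ p ^ 2 * p ^ 3 := Nat.mul_le_mul_right _ h12
    have h7 : 4 * (t * t) * (p + m) ^ 3 = (p + m) ^ 5 := by rw [et]; ring
    obtain ⟨p, rfl⟩ : ∃ q, p = q + 1 := ⟨p - 1, by omega⟩
    obtain ⟨m, rfl⟩ : ∃ q, m = q + 1 := ⟨m - 1, by omega⟩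
    have h8 : (p + 1) ^ 5 + 2 * (p + 1) ^ 4 + 2 * (p + 1) ^ 2 + (m + 1 + 1) ^ 2 * (m + 1) ^ 3
        + 2 * (2 * (p + 1 + (m + 1)) + 2) ≤ (p + 1 + (m + 1)) ^ 5 + 2 * (p + 1 + (m + 1)) ^ 4 +
          2 * (p + 1 + (m + 1)) ^ 2 := by
      ring_nf
      nlinarith [Nat.zero_le (p * m), Nat.zero_le (p * m ^ 2), Nat.zero_le (p * m ^ 3),
        Nat.zero_le (p * m ^ 4), Nat.zero_le (p ^ 2 * m), Nat.zero_le (p ^ 2 * m ^ 2),
        Nat.zero_le (p ^ 2 * m ^ 3), Nat.zero_le (p ^ 3 * m), Nat.zero_le (p ^ 3 * m ^ 2),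
        Nat.zero_le (p ^ 4 * m), Nat.zero_le (p ^ 2), Nat.zero_le (p ^ 3), Nat.zero_le (p ^ 4),
        Nat.zero_le (m ^ 2), Nat.zero_le (m ^ 3), Nat.zero_le (m ^ 4)]
    linarith

theorem ineq_odd (t k1 k2 : ℕ) (ht : 1 ≤ t) (hs : k1 + k2 = 2 * t + 1) :
    EE k1 k2 0 0 + (2 * (2 * t + 1) + 2) ≤ EE 0 0 (t + 1) t := by
  unfold EE
  rw [hs]
  have e : t + 1 + t = 2 * t + 1 := by ring
  rw [e]
  have h12 : k1 * k2 ≤ t * t + t := by
    have : k2 = 2 * t + 1 - k1 := by omega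
    have h3 : k1 ≤ 2 * t + 1 := by omega
    zify [h3] at this ⊢
    rw [this]
    rcases le_or_gt (k1 : ℤ) t with h | h
    · nlinarith
    · nlinarith
  obtain ⟨n, hn⟩ : ∃ n, n = 2 * t + 1 := ⟨_, rfl⟩
  rw [← hn]
  have h5 : k1 * k2 * n ^ 3 ≤ (t * t + t) * n ^ 3 := Nat.mul_le_mul_right _ h12
  have h6 : n ^ 4 = (2 * t + 1) * n ^ 3 := by rw [← hn]; ring
  have h7 : n ^ 2 + 2 * n + 2 ≤ n ^ 3 := by
    have : 3 ≤ n := by omega
    nlinarith
  nlinarith

theorem exists_col (n a : ℕ) (ha : a ≤ n) (s : Bool) : ∃ c : Fin n → Bool × Bool,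
    cnt c (s, false) = a ∧ cnt c (s, true) = n - a ∧ cnt c (!s, false) = 0 ∧
      cnt c (!s, true) = 0 := by
  obtain ⟨A, -, hA⟩ := Finset.exists_subset_card_eq (s := (Finset.univ : Finset (Fin n))) (n := a)
    (by simpa using ha)
  refine ⟨fun x => (s, decide (x ∉ A)), ?_, ?_, ?_, ?_⟩
  · unfold cnt; rw [← hA]; congr 1; ext x; simp
  · unfold cnt
    have : (Aᶜ).card = n - a := by rw [Finset.card_compl, hA]; simp
    rw [← this]; congr 1; ext x; simp
  · unfold cnt; simp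
  · unfold cnt; simp

theorem even_bound (t : ℕ) (ht : 2 ≤ t) :
    4 * {T : Set (Slot (Fin (2 * t))) | ¬ Bad T ∧ ¬ ∀ p ∈ T, side p.1 = false}.ncard ≤
      {T : Set (Slot (Fin (2 * t))) | ¬ Bad T}.ncard := by
  obtain ⟨c0, h1, h2, h3, h4⟩ := exists_col (2 * t) t (by omega) false
  have hl := lower c0
  simp only [Bool.not_false] at h3 h4
  rw [ncard_W, h1, h2, h3, h4, show 2 * t - t = t by omega] at hl
  have hge : 2 * (2 * t) + 2 ≤ EE t t 0 0 :=
    le_trans (Nat.le_add_left _ _) (ineq_even t 0 0 (2 * t) 0 ht (by omega) (by omega))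
  have hu := upper {T : Set (Slot (Fin (2 * t))) | ¬ Bad T ∧ ¬ ∀ p ∈ T, side p.1 = false}
    (EE t t 0 0 - (2 * (2 * t) + 2)) (by
      rintro T ⟨hT, hT2⟩
      obtain ⟨c, hc⟩ := (not_bad_iff T).1 hT
      refine ⟨c, hc, ?_⟩
      rw [ncard_W]
      have hm : 1 ≤ cnt c (true, false) + cnt c (true, true) := by
        push Not at hT2
        obtain ⟨p, hp, hs⟩ := hT2
        have hpos : 0 < ar p.1 := by cases p.1 <;> simp [ar]
        have := (hc hp ⟨0, hpos⟩).1
        have h1 : (c (p.2 ⟨0, hpos⟩)).1 = true := by rw [this]; simpa using hs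
        cases h2 : (c (p.2 ⟨0, hpos⟩)).2
        · have : 0 < cnt c (true, false) :=
            Finset.card_pos.2 ⟨p.2 ⟨0, hpos⟩, by simp [Prod.ext_iff, h1, h2]⟩
          omega
        · have : 0 < cnt c (true, true) :=
            Finset.card_pos.2 ⟨p.2 ⟨0, hpos⟩, by simp [Prod.ext_iff, h1, h2]⟩
          omega
      have := ineq_even t _ _ _ _ ht (cnt_sum c) hm
      omega)
  refine le_trans (Nat.mul_le_mul_left 4 hu) (le_trans (le_of_eq ?_) hl)
  obtain ⟨d, hd⟩ := Nat.exists_eq_add_of_le hge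
  rw [hd, Nat.add_sub_cancel_left, show (4 : ℕ) = 2 ^ 2 by norm_num, ← pow_mul, ← pow_add,
    ← pow_add]
  congr 1
  ring

theorem odd_bound (t : ℕ) (ht : 1 ≤ t) :
    4 * {T : Set (Slot (Fin (2 * t + 1))) | ¬ Bad T ∧ ∀ p ∈ T, side p.1 = false}.ncard ≤
      {T : Set (Slot (Fin (2 * t + 1))) | ¬ Bad T}.ncard := by
  obtain ⟨c0, h1, h2, h3, h4⟩ := exists_col (2 * t + 1) (t + 1) (by omega) true
  have hl := lower c0
  simp only [Bool.not_true] at h3 h4
  rw [ncard_W, h1, h2, h3, h4, show 2 * t + 1 - (t + 1) = t by omega] at hl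
  have hge : 2 * (2 * t + 1) + 2 ≤ EE 0 0 (t + 1) t :=
    le_trans (Nat.le_add_left _ _) (ineq_odd t 0 (2 * t + 1) ht (by omega))
  have hu := upper {T : Set (Slot (Fin (2 * t + 1))) | ¬ Bad T ∧ ∀ p ∈ T, side p.1 = false}
    (EE 0 0 (t + 1) t - (2 * (2 * t + 1) + 2)) (by
      rintro T ⟨hT, hT2⟩
      obtain ⟨c, hc⟩ := (not_bad_iff T).1 hT
      refine ⟨fun x => (false, (c x).2), ?_, ?_⟩
      · intro p hp i
        exact ⟨(hT2 p hp).symm, (hc hp i).2⟩
      · rw [ncard_W]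
        have e3 : cnt (fun x => (false, (c x).2)) (true, false) = 0 := by unfold cnt; simp
        have e4 : cnt (fun x => (false, (c x).2)) (true, true) = 0 := by unfold cnt; simp
        have hs := cnt_sum (fun x => (false, (c x).2))
        rw [e3, e4] at hs ⊢
        have := ineq_odd t _ _ ht (by simpa using hs)
        omega)
  refine le_trans (Nat.mul_le_mul_left 4 hu) (le_trans (le_of_eq ?_) hl)
  obtain ⟨d, hd⟩ := Nat.exists_eq_add_of_le hge
  rw [hd, Nat.add_sub_cancel_left, show (4 : ℕ) = 2 ^ 2 by norm_num, ← pow_mul, ← pow_add,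
    ← pow_add]
  congr 1
  ring

theorem good_pos (n : ℕ) : 0 < {T : Set (Slot (Fin n)) | ¬ Bad T}.ncard :=
  lt_of_lt_of_le (by positivity) (lower (fun _ => (false, false)))

theorem no_limit (c : ℝ) : ¬ Filter.Tendsto (fun n : ℕ =>
    (({T : Set (Slot (Fin n)) | ¬ Bad T ∧ ∀ p ∈ T, side p.1 = false}.ncard : ℕ) : ℝ) /
      (({T : Set (Slot (Fin n)) | ¬ Bad T}.ncard : ℕ) : ℝ)) Filter.atTop (nhds c) := by
  intro h
  have he : Filter.Tendsto (fun t : ℕ => 2 * t) Filter.atTop Filter.atTop :=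
    Filter.tendsto_atTop_mono (fun t => by show t ≤ 2 * t; omega) Filter.tendsto_id
  have ho : Filter.Tendsto (fun t : ℕ => 2 * t + 1) Filter.atTop Filter.atTop :=
    Filter.tendsto_atTop_mono (fun t => by show t ≤ 2 * t + 1; omega) Filter.tendsto_id
  have h1 : (3 / 4 : ℝ) ≤ c := by
    refine ge_of_tendsto (h.comp he) ?_
    filter_upwards [Filter.eventually_ge_atTop 2] with t ht
    have hb := even_bound t ht
    have hp := good_pos (2 * t)
    have hsplit : {T : Set (Slot (Fin (2 * t))) | ¬ Bad T}.ncard ≤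
        {T : Set (Slot (Fin (2 * t))) | ¬ Bad T ∧ ∀ p ∈ T, side p.1 = false}.ncard +
        {T : Set (Slot (Fin (2 * t))) | ¬ Bad T ∧ ¬ ∀ p ∈ T, side p.1 = false}.ncard := by
      refine le_trans (Set.ncard_le_ncard ?_ (Set.toFinite _)) (Set.ncard_union_le _ _)
      intro T hT
      by_cases h' : ∀ p ∈ T, side p.1 = false
      · exact Or.inl ⟨hT, h'⟩
      · exact Or.inr ⟨hT, h'⟩
    simp only [Function.comp]
    rw [le_div_iff₀ (by exact_mod_cast hp)]
    have hb' := (Nat.cast_le (α := ℝ)).2 hb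
    have hs' := (Nat.cast_le (α := ℝ)).2 hsplit
    push_cast at hb' hs'
    linarith
  have h2 : c ≤ (1 / 4 : ℝ) := by
    refine le_of_tendsto (h.comp ho) ?_
    filter_upwards [Filter.eventually_ge_atTop 1] with t ht
    have hb := odd_bound t ht
    have hp := good_pos (2 * t + 1)
    simp only [Function.comp]
    rw [div_le_iff₀ (by exact_mod_cast hp)]
    have hb' := (Nat.cast_le (α := ℝ)).2 hb
    push_cast at hb'
    linarith
  linarith

end Pool.Agent.H436Z.Forb
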