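import Mathlib

set_option autoImplicit false
open Set Real

namespace Pool.Agent.H436Z.Fr

noncomputable def W (f c : ℝ) : ℝ := f * sin (arccos (c / f)) - c * arccos (c / f)

theorem sin_tangent {α φ : ℝ} (hα : α ∈ Icc 0 π) (hφ : φ ∈ Icc 0 π) :
    sin α ≤ sin φ + cos φ * (α - φ) := by
  have hc := strictConcaveOn_sin_Icc.concaveOn
  rcases lt_trichotomy φ α with h | h | h
  · have := hc.slope_le_of_hasDerivAt hφ hα h (hasDerivAt_sin φ)
    rw [slope_def_field, div_le_iff₀ (by linarith)] at this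
    linarith
  · subst h; simp
  · have := hc.le_slope_of_hasDerivAt hα hφ h (hasDerivAt_sin φ)
    rw [slope_def_field, le_div_iff₀ (by linarith)] at this
    linarith

theorem cos_arccos_div {f c : ℝ} (hc : 0 ≤ c) (hf : c ≤ f) : f * cos (arccos (c / f)) = c := by
  rcases eq_or_lt_of_le (hc.trans hf) with h | h
  · have : c = 0 := by linarith
    rw [← h, this]; simp
  · rw [cos_arccos (by have : 0 ≤ c / f := by positivity
                       linarith) ((div_le_one h).2 hf)]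
    field_simp

theorem W_ge {f c α : ℝ} (hc : 0 ≤ c) (hf : c ≤ f) (hα : α ∈ Icc 0 π) :
    f * sin α - c * α ≤ W f c := by
  have h1 := sin_tangent hα (φ := arccos (c / f)) ⟨arccos_nonneg _, arccos_le_pi _⟩
  have h2 := cos_arccos_div hc hf
  have h3 := mul_le_mul_of_nonneg_left h1 (hc.trans hf)
  unfold W
  have e : f * (sin (arccos (c / f)) + cos (arccos (c / f)) * (α - arccos (c / f))) =
      f * sin (arccos (c / f)) + c * (α - arccos (c / f)) := by
    rw [mul_add, ← mul_assoc, h2]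
  linarith

theorem W_of_le {f c : ℝ} (hf : 0 < f) (h : f ≤ c) : W f c = 0 := by
  unfold W
  rw [arccos_eq_zero.2 ((one_le_div hf).2 h)]
  simp

theorem W_self {c : ℝ} (hc : 0 ≤ c) : W c c = 0 := by
  rcases eq_or_lt_of_le hc with h | h
  · rw [← h]; simp [W]
  · exact W_of_le h le_rfl

theorem W_lip {c f1 f2 : ℝ} (hc : 0 ≤ c) (h1 : c ≤ f1) (h2 : f1 ≤ f2) :
    0 ≤ W f2 c - W f1 c ∧ W f2 c - W f1 c ≤ (f2 - f1) * sin (arccos (c / f2)) := by
  constructor
  · have := W_ge hc (h1.trans h2) (α := arccos (c / f1)) ⟨arccos_nonneg _, arccos_le_pi _⟩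
    have hs : 0 ≤ sin (arccos (c / f1)) := sin_nonneg_of_nonneg_of_le_pi (arccos_nonneg _)
      (arccos_le_pi _)
    have : f1 * sin (arccos (c / f1)) ≤ f2 * sin (arccos (c / f1)) := by gcongr
    unfold W at *
    linarith
  · have := W_ge hc h1 (α := arccos (c / f2)) ⟨arccos_nonneg _, arccos_le_pi _⟩
    unfold W at *
    linarith

theorem W_convex {c x y l : ℝ} (hc : 0 ≤ c) (hx : c ≤ x) (hy : c ≤ y) (h0 : 0 ≤ l) (h1 : l ≤ 1) :
    W (l * x + (1 - l) * y) c ≤ l * W x c + (1 - l) * W y c := by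
  set φ := arccos (c / (l * x + (1 - l) * y)) with hφ
  have a1 := W_ge hc hx (α := φ) ⟨arccos_nonneg _, arccos_le_pi _⟩
  have a2 := W_ge hc hy (α := φ) ⟨arccos_nonneg _, arccos_le_pi _⟩
  have e : W (l * x + (1 - l) * y) c = l * (x * sin φ - c * φ) + (1 - l) * (y * sin φ - c * φ) := by
    unfold W; rw [← hφ]; ring
  rw [e]
  have : 0 ≤ 1 - l := by linarith
  gcongr

theorem W_lower {f c : ℝ} (hf : 0 < f) (hc : 0 ≤ c) (h : c ≤ f) :
    f - c * π / 2 + c ^ 2 / (2 * f) ≤ W f c := by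
  have h0 : 0 ≤ c / f := by positivity
  have h1 : c / f ≤ 1 := (div_le_one hf).2 h
  have := W_ge hc h (α := π / 2 - c / f) ⟨by linarith [pi_gt_three], by linarith [pi_pos]⟩
  rw [sin_pi_div_two_sub] at this
  have h2 := one_sub_sq_div_two_le_cos (x := c / f)
  have h3 := mul_le_mul_of_nonneg_left h2 hf.le
  have e1 : f * (1 - (c / f) ^ 2 / 2) = f - c ^ 2 / (2 * f) := by field_simp
  have e2 : c * (π / 2 - c / f) = c * π / 2 - 2 * (c ^ 2 / (2 * f)) := by field_simp
  linarith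

theorem tau_le {ψ : ℝ} (h0 : 0 ≤ ψ) (h1 : ψ ≤ π / 2) :
    ψ * sin ψ + cos ψ - 1 ≤ 4 / 7 * sin ψ ^ 2 := by
  let h : ℝ → ℝ := fun x => 4 / 7 * sin x ^ 2 - x * sin x - cos x + 1
  have hd : ∀ x, HasDerivAt h (cos x * (8 / 7 * sin x - x)) x := by
    intro x
    have := ((((hasDerivAt_sin x).pow 2).const_mul (4 / 7)).sub
      ((hasDerivAt_id x).mul (hasDerivAt_sin x))).sub (hasDerivAt_cos x) |>.add_const 1
    refine this.congr_deriv ?_
    simp only [id]
    push_cast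
    ring
  have hcont : Continuous h := by fun_prop
  have hcc := strictConcaveOn_sin_Icc.concaveOn
  suffices 0 ≤ h ψ by simp only [h] at this; linarith
  rcases le_total ψ (8 / 7 * sin ψ) with hk | hk
  · have hm : MonotoneOn h (Icc 0 ψ) := by
      refine monotoneOn_of_deriv_nonneg (convex_Icc _ _) hcont.continuousOn
        (fun x _ => (hd x).differentiableAt.differentiableWithinAt) (fun x hx => ?_)
      rw [interior_Icc] at hx
      rw [(hd x).deriv]
      refine mul_nonneg (cos_nonneg_of_neg_pi_div_two_le_of_le (by linarith [hx.1, pi_pos])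
        (by linarith [hx.2])) ?_
      have hψ : 0 < ψ := by linarith [hx.1, hx.2]
      have := hcc.2 (show (0:ℝ) ∈ Icc 0 π from ⟨le_rfl, pi_pos.le⟩)
        (show ψ ∈ Icc 0 π from ⟨h0, by linarith [pi_pos]⟩)
        (show 0 ≤ 1 - x / ψ by have := (div_le_one hψ).2 hx.2.le; linarith)
        (show 0 ≤ x / ψ by have := hx.1; positivity) (by ring)
      simp only [smul_eq_mul, sin_zero, mul_zero, zero_add] at this
      rw [div_mul_cancel₀ _ hψ.ne'] at this
      have h4 : x / ψ * ψ ≤ x / ψ * (8 / 7 * sin ψ) :=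
        mul_le_mul_of_nonneg_left hk (by have := hx.1; positivity)
      rw [div_mul_cancel₀ _ hψ.ne'] at h4
      nlinarith
    have := hm ⟨le_rfl, h0⟩ ⟨h0, le_rfl⟩ h0
    simpa [h] using this
  · rcases eq_or_lt_of_le h0 with hψ | hψ
    · rw [← hψ]; simp [h]
    have hm : AntitoneOn h (Icc ψ (π / 2)) := by
      refine antitoneOn_of_deriv_nonpos (convex_Icc _ _) hcont.continuousOn
        (fun x _ => (hd x).differentiableAt.differentiableWithinAt) (fun x hx => ?_)
      rw [interior_Icc] at hx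
      rw [(hd x).deriv]
      refine mul_nonpos_of_nonneg_of_nonpos (cos_nonneg_of_neg_pi_div_two_le_of_le
        (by linarith [hx.1, pi_pos]) (by linarith [hx.2])) ?_
      have hx0 : 0 < x := by linarith [hx.1]
      have := hcc.2 (show (0:ℝ) ∈ Icc 0 π from ⟨le_rfl, pi_pos.le⟩)
        (show x ∈ Icc 0 π from ⟨hx0.le, by linarith [pi_pos, hx.2]⟩)
        (show 0 ≤ 1 - ψ / x by have := (div_le_one hx0).2 hx.1.le; linarith)
        (show 0 ≤ ψ / x by positivity) (by ring)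
      simp only [smul_eq_mul, sin_zero, mul_zero, zero_add] at this
      rw [div_mul_cancel₀ _ hx0.ne'] at this
      have h4 : ψ / x * (8 / 7 * sin x) ≤ ψ / x * x := by
        rw [div_mul_cancel₀ _ hx0.ne']; nlinarith
      have := le_of_mul_le_mul_left h4 (by positivity)
      linarith
    have := hm ⟨le_rfl, h1⟩ ⟨h1, le_rfl⟩ h1
    have h5 : 0 ≤ h (π / 2) := by
      simp only [h, sin_pi_div_two, cos_pi_div_two]
      linarith [pi_lt_d4]
    linarith

theorem W_upper {f c : ℝ} (hf : 0 < f) (hc : 0 ≤ c) (h : c ≤ f) :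
    W f c ≤ f - c * π / 2 + 4 / 7 * c ^ 2 / f := by
  have h0 : 0 ≤ c / f := by positivity
  have h1 : c / f ≤ 1 := (div_le_one hf).2 h
  have ht := tau_le (ψ := arcsin (c / f)) (arcsin_nonneg.2 h0) (arcsin_le_pi_div_two _)
  rw [sin_arcsin (by linarith) h1] at ht
  unfold W
  rw [arccos_eq_pi_div_two_sub_arcsin, sin_pi_div_two_sub]
  have h3 := mul_le_mul_of_nonneg_left ht hf.le
  have e1 : f * (arcsin (c / f) * (c / f) + cos (arcsin (c / f)) - 1) =
      c * arcsin (c / f) + f * cos (arcsin (c / f)) - f := by field_simp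
  have e2 : f * (4 / 7 * (c / f) ^ 2) = 4 / 7 * c ^ 2 / f := by field_simp
  linarith

theorem W_geom {c X Y H : ℝ} (hc : 0 ≤ c) (hX : c ≤ X) (hY : c ≤ Y) (hH : 0 < H)
    (h : H ^ 2 = X ^ 2 + Y ^ 2) : H ≤ c * π / 2 + W X c + W Y c := by
  have hX0 : 0 ≤ X := hc.trans hX
  have hY0 : 0 ≤ Y := hc.trans hY
  have hXH : X / H ≤ 1 := by
    rw [div_le_one hH]; nlinarith
  have hXH0 : 0 ≤ X / H := by positivity
  set γ := arcsin (X / H) with hγ
  have g0 : 0 ≤ γ := arcsin_nonneg.2 hXH0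
  have g1 : γ ≤ π / 2 := arcsin_le_pi_div_two _
  have hs : sin γ = X / H := sin_arcsin (by linarith) hXH
  have hcos : cos γ = Y / H := by
    rw [hγ, cos_arcsin]
    have : 1 - (X / H) ^ 2 = (Y / H) ^ 2 := by field_simp; linarith
    rw [this, sqrt_sq (by positivity)]
  have a1 := W_ge hc hX (α := γ) ⟨g0, by linarith [pi_pos]⟩
  have a2 := W_ge hc hY (α := π / 2 - γ) ⟨by linarith, by linarith [pi_pos]⟩
  rw [sin_pi_div_two_sub, hcos] at a2
  rw [hs] at a1
  have e : X * (X / H) + Y * (Y / H) = H := by field_simp; linarith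
  linarith

noncomputable def ff (r : ℝ) : ℝ := if r ≤ 1 then r else if r ≤ 2 then (3 - r) / 2 else 5 / 2 - r

noncomputable def Lam (c r : ℝ) : ℝ :=
  if r ≤ 1 then W r c else if r ≤ 2 then 3 * W 1 c - 2 * W ((3 - r) / 2) c
    else 3 * W 1 c - W (1 / 2) c - W (5 / 2 - r) c

noncomputable def FF (a : ℝ) : ℝ := if 1 ≤ a ∧ a ≤ 3 / 2 then 18 / (a + 3) - 3 else 5 / 2 - a

theorem ff_top {r : ℝ} (h : r ≤ 1) : ff r = r := if_pos h

theorem ff_side {r : ℝ} (h : 1 ≤ r) (h2 : r ≤ 2) : ff r = (3 - r) / 2 := by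
  unfold ff
  split_ifs with h3
  · linarith
  · rfl

theorem ff_bot {r : ℝ} (h : 2 ≤ r) : ff r = 5 / 2 - r := by
  unfold ff
  rw [if_neg (by linarith)]
  split_ifs with h3
  · linarith
  · rfl

theorem Lam_top (c : ℝ) {r : ℝ} (h : r ≤ 1) : Lam c r = W r c := if_pos h

theorem Lam_side (c : ℝ) {r : ℝ} (h : 1 ≤ r) (h2 : r ≤ 2) :
    Lam c r = 3 * W 1 c - 2 * W ((3 - r) / 2) c := by
  unfold Lam
  split_ifs with h3
  · have : r = 1 := by linarith
    subst this
    norm_num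
    ring
  · rfl

theorem Lam_bot (c : ℝ) {r : ℝ} (h : 2 ≤ r) :
    Lam c r = 3 * W 1 c - W (1 / 2) c - W (5 / 2 - r) c := by
  unfold Lam
  rw [if_neg (by linarith)]
  split_ifs with h3
  · have : r = 2 := by linarith
    subst this
    norm_num
    ring
  · rfl

theorem FF_mid {a : ℝ} (h : 1 ≤ a) (h2 : a ≤ 3 / 2) : FF a = 18 / (a + 3) - 3 := if_pos ⟨h, h2⟩

theorem FF_low {a : ℝ} (h : a ≤ 1) : FF a = 5 / 2 - a := by
  unfold FF
  split_ifs with h3
  · have : a = 1 := by linarith [h3.1]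
    subst this; norm_num
  · rfl

theorem FF_high {a : ℝ} (h : 3 / 2 ≤ a) : FF a = 5 / 2 - a := by
  unfold FF
  split_ifs with h3
  · have : a = 3 / 2 := by linarith [h3.2]
    subst this; norm_num
  · rfl

theorem FF_mid_prop {a : ℝ} (h : 1 ≤ a) (h2 : a ≤ 3 / 2) :
    (a + 3) * (FF a + 3) = 18 ∧ 1 ≤ FF a ∧ FF a ≤ 3 / 2 ∧ a + FF a ≤ 5 / 2 ∧ 49 / 20 ≤ a + FF a := by
  have e : (a + 3) * (FF a + 3) = 18 := by
    rw [FF_mid h h2]; field_simp; ring
  refine ⟨e, ?_, ?_, ?_, ?_⟩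
  · by_contra hn; push Not at hn; nlinarith
  · by_contra hn; push Not at hn; nlinarith
  · by_contra hn; push Not at hn; nlinarith [mul_nonneg (sub_nonneg.2 h) (sub_nonneg.2 h2)]
  · by_contra hn; push Not at hn; nlinarith [sq_nonneg (a - 49 / 40)]

theorem FF_FF (a : ℝ) : FF (FF a) = a := by
  rcases le_total a 1 with h | h
  · rw [FF_low h, FF_high (by linarith)]; ring
  · rcases le_total a (3 / 2) with h2 | h2
    · obtain ⟨e, h3, h4, -⟩ := FF_mid_prop h h2
      rw [FF_mid h3 h4, ← e]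
      field_simp
      ring
    · rw [FF_high h2, FF_low (by linarith)]; ring

theorem FF_mem {a : ℝ} (h : a ∈ Icc (0:ℝ) (5 / 2)) : FF a ∈ Icc (0:ℝ) (5 / 2) := by
  rcases le_total a 1 with h1 | h1
  · rw [FF_low h1]; constructor <;> linarith [h.1, h.2]
  · rcases le_total a (3 / 2) with h2 | h2
    · obtain ⟨-, h3, h4, -⟩ := FF_mid_prop h1 h2
      constructor <;> linarith
    · rw [FF_high h2]; constructor <;> linarith [h.1, h.2]

theorem side_S {x y c : ℝ} (hc : 0 ≤ c) (hx : c ≤ x / 2) (hy : c ≤ y / 2) (hx1 : 3 / 2 ≤ x)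
    (hy1 : 3 / 2 ≤ y) (hs : 7 / 2 ≤ x + y) (hs2 : x + y < 6)
    (hH : (6 - x - y) ^ 2 = x ^ 2 + y ^ 2) :
    6 - x - y ≤ c * π - 2 * W (1 / 2) c + 2 * W (x / 2) c + 2 * W (y / 2) c := by
  rcases le_total c (1 / 2) with h | h
  · have a1 := W_upper (f := 1 / 2) (by norm_num) hc h
    have a2 := W_lower (f := x / 2) (by linarith) hc hx
    have a3 := W_lower (f := y / 2) (by linarith) hc hy
    have e1 : c ^ 2 / (2 * (x / 2)) = c ^ 2 * (1 / x) := by field_simp
    have e2 : c ^ 2 / (2 * (y / 2)) = c ^ 2 * (1 / y) := by field_simp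
    have b1 : 2 * (4 / 7) - (4 / 7) ^ 2 * x ≤ 1 / x := by
      rw [le_div_iff₀ (by linarith)]; nlinarith [sq_nonneg (4 / 7 * x - 1)]
    have b2 : 2 * (4 / 7) - (4 / 7) ^ 2 * y ≤ 1 / y := by
      rw [le_div_iff₀ (by linarith)]; nlinarith [sq_nonneg (4 / 7 * y - 1)]
    have c2 : c ^ 2 ≤ 1 / 4 := by nlinarith
    have b3 := mul_le_mul_of_nonneg_left (add_le_add b1 b2) (sq_nonneg c)
    have b4 : c ^ 2 * (x + y - 7 / 2) ≤ 1 / 4 * (x + y - 7 / 2) :=
      mul_le_mul_of_nonneg_right c2 (by linarith)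
    rw [e1] at a2
    rw [e2] at a3
    have e3 : 4 / 7 * c ^ 2 / (1 / 2) = 8 / 7 * c ^ 2 := by ring
    rw [e3] at a1
    nlinarith
  · rw [W_of_le (by norm_num) h]
    have := W_geom hc hx hy (H := (6 - x - y) / 2) (by linarith) (by nlinarith)
    linarith

theorem ineq_low {a c : ℝ} (h0 : 0 ≤ a) (h1 : a ≤ 1) (hc : 0 ≤ c) (hca : c ≤ ff a)
    (hcb : c ≤ ff (FF a)) :
    a + FF a ≤ c * π + Lam c a + Lam c (FF a) ∧
      a + FF a ≤ c * π + 2 * (3 * W 1 c - W (1 / 2) c) - Lam c a - Lam c (FF a) := by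
  rw [FF_low h1] at hcb ⊢
  rw [ff_top h1] at hca
  rw [Lam_top c h1]
  have l1 := W_lower (f := 1) one_pos hc (by linarith)
  rcases le_total a (1 / 2) with h | h
  · rw [Lam_bot c (by linarith), show 5 / 2 - (5 / 2 - a) = a by ring]
    have u1 := W_upper (f := 1 / 2) (by norm_num) hc (by linarith)
    constructor <;> nlinarith [sq_nonneg c]
  · rw [ff_side (by linarith) (by linarith)] at hcb
    rw [Lam_side c (by linarith) (by linarith)]
    set g := (3 - (5 / 2 - a)) / 2 with hg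
    constructor
    · have l2 := W_lower (f := a) (by linarith) hc hca
      have u1 := W_upper (f := g) (by linarith) hc hcb
      have b1 : 8 / 7 * (1 / g) ≤ 3 / 2 + 1 / (2 * a) := by
        have hg' : g = (2 * a + 1) / 4 := by rw [hg]; ring
        rw [hg']
        have : 0 < a := by linarith
        rw [← sub_nonneg]
        have e : 3 / 2 + 1 / (2 * a) - 8 / 7 * (1 / ((2 * a + 1) / 4)) =
            (42 * a ^ 2 - 29 * a + 7) / (14 * a * (2 * a + 1)) := by field_simp; ring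
        rw [e]
        apply div_nonneg _ (by positivity)
        nlinarith [sq_nonneg (84 * a - 29)]
      have b2 := mul_le_mul_of_nonneg_left b1 (sq_nonneg c)
      have e1 : c ^ 2 / (2 * a) = c ^ 2 * (1 / (2 * a)) := by ring
      have e2 : 4 / 7 * c ^ 2 / g = 4 / 7 * (c ^ 2 * (1 / g)) := by ring
      rw [e1] at l2
      rw [e2] at u1
      nlinarith
    · have hs := side_S (x := 2) (y := 3 / 2) hc (by linarith) (by linarith) (by norm_num)
        (by norm_num) (by norm_num) (by norm_num) (by norm_num)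
      have hd : 0 < 3 - 2 * a := by linarith
      have c1 := W_convex (x := g) (y := 1) (l := 1 / (3 - 2 * a)) hc hcb (by linarith)
        (by positivity) (by rw [div_le_one hd]; linarith)
      have c2 := W_convex (x := g) (y := 1) (l := 4 * (1 - a) / (3 - 2 * a)) hc hcb (by linarith)
        (div_nonneg (by linarith) hd.le) (by rw [div_le_one hd]; linarith)
      have e1 : 1 / (3 - 2 * a) * g + (1 - 1 / (3 - 2 * a)) * 1 = 3 / 2 / 2 := by
        rw [hg]; field_simp; ring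
      have e3 : 4 * (1 - a) / (3 - 2 * a) = 2 - 2 * (1 / (3 - 2 * a)) := by
        rw [div_eq_iff hd.ne', sub_mul, mul_assoc, one_div_mul_cancel hd.ne']; ring
      have e2 : 4 * (1 - a) / (3 - 2 * a) * g + (1 - 4 * (1 - a) / (3 - 2 * a)) * 1 = a := by
        rw [e3]; linear_combination (-2) * e1 + 2 * hg
      rw [e1] at c1
      rw [e2, e3] at c2
      rw [show (2:ℝ) / 2 = 1 by norm_num] at hs
      linarith

theorem ineq_mid {a c : ℝ} (h0 : 1 ≤ a) (h1 : a ≤ 3 / 2) (hc : 0 ≤ c) (hca : c ≤ ff a)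
    (hcb : c ≤ ff (FF a)) :
    a + FF a ≤ c * π + Lam c a + Lam c (FF a) ∧
      a + FF a ≤ c * π + 2 * (3 * W 1 c - W (1 / 2) c) - Lam c a - Lam c (FF a) := by
  obtain ⟨e, h3, h4, h5, h6⟩ := FF_mid_prop h0 h1
  generalize FF a = b at *
  rw [ff_side h0 (by linarith)] at hca
  rw [ff_side h3 (by linarith)] at hcb
  rw [Lam_side c h0 (by linarith), Lam_side c h3 (by linarith)]
  constructor
  · have l1 := W_lower (f := 1) one_pos hc (by linarith)
    have u1 := W_upper (f := (3 - a) / 2) (by linarith) hc hca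
    have u2 := W_upper (f := (3 - b) / 2) (by linarith) hc hcb
    have b1 : 1 / (3 - a) ≤ 1 / 2 + (a - 1) / 3 := by
      rw [div_le_iff₀ (by linarith)]
      nlinarith [mul_nonneg (sub_nonneg.2 h0) (sub_nonneg.2 h1)]
    have b2 : 1 / (3 - b) ≤ 1 / 2 + (b - 1) / 3 := by
      rw [div_le_iff₀ (by linarith)]
      nlinarith [mul_nonneg (sub_nonneg.2 h3) (sub_nonneg.2 h4)]
    have b3 : 1 / (3 - a) + 1 / (3 - b) ≤ 7 / 6 := by linarith
    have b4 := mul_le_mul_of_nonneg_left b3 (sq_nonneg c)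
    have e1 : 4 / 7 * c ^ 2 / ((3 - a) / 2) = 8 / 7 * (c ^ 2 * (1 / (3 - a))) := by
      have : 3 - a ≠ 0 := by linarith
      field_simp; ring
    have e2 : 4 / 7 * c ^ 2 / ((3 - b) / 2) = 8 / 7 * (c ^ 2 * (1 / (3 - b))) := by
      have : 3 - b ≠ 0 := by linarith
      field_simp; ring
    rw [e1] at u1
    rw [e2] at u2
    nlinarith [sq_nonneg c]
  · have hs := side_S (x := 3 - a) (y := 3 - b) hc hca hcb (by linarith) (by linarith)
      (by linarith) (by linarith) (by nlinarith)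
    linarith

theorem ineq_all {a c : ℝ} (ha : a ∈ Icc (0:ℝ) (5 / 2)) (hc : 0 ≤ c) (hca : c ≤ ff a)
    (hcb : c ≤ ff (FF a)) :
    a + FF a ≤ c * π + Lam c a + Lam c (FF a) ∧
      a + FF a ≤ c * π + 2 * (3 * W 1 c - W (1 / 2) c) - Lam c a - Lam c (FF a) := by
  rcases le_total a 1 with h | h
  · exact ineq_low ha.1 h hc hca hcb
  · rcases le_total a (3 / 2) with h2 | h2
    · exact ineq_mid h h2 hc hca hcb
    · have hb : FF a ≤ 1 := by rw [FF_high h2]; linarith
      have := ineq_low (FF_mem ha).1 hb hc hcb (by rw [FF_FF]; exact hca)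
      rw [FF_FF] at this
      constructor <;> linarith [this.1, this.2]

def InPiece (r s : ℝ) : Prop :=
  (r ≤ 1 ∧ s ≤ 1) ∨ (1 ≤ r ∧ r ≤ 2 ∧ 1 ≤ s ∧ s ≤ 2) ∨ (2 ≤ r ∧ 2 ≤ s)

theorem W_abs {c f1 f2 : ℝ} (hc : 0 ≤ c) (h1 : c ≤ f1) (h2 : c ≤ f2) :
    |W f1 c - W f2 c| ≤ |f1 - f2| * sin (arccos (c / max f1 f2)) := by
  rcases le_total f1 f2 with h | h
  · have := W_lip hc h1 h
    rw [max_eq_right h, abs_sub_comm, abs_of_nonneg this.1, abs_sub_comm,
      abs_of_nonneg (sub_nonneg.2 h)]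
    exact this.2
  · have := W_lip hc h2 h
    rw [max_eq_left h, abs_of_nonneg this.1, abs_of_nonneg (sub_nonneg.2 h)]
    exact this.2

theorem Lam_lip {c r s : ℝ} (hc : 0 ≤ c) (h1 : c ≤ ff r) (h2 : c ≤ ff s) (h : InPiece r s) :
    |Lam c r - Lam c s| ≤ |r - s| * sin (arccos (c / max (ff r) (ff s))) ∧
      |ff r - ff s| ≤ |r - s| := by
  have hw := W_abs hc h1 h2
  rcases h with ⟨a, b⟩ | ⟨a, b, a', b'⟩ | ⟨a, b⟩
  · rw [Lam_top c a, Lam_top c b]
    rw [ff_top a, ff_top b] at *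
    exact ⟨hw, le_rfl⟩
  · rw [Lam_side c a b, Lam_side c a' b']
    rw [ff_side a b, ff_side a' b'] at *
    have e1 : |(3 - r) / 2 - (3 - s) / 2| = |r - s| / 2 := by
      rw [show (3 - r) / 2 - (3 - s) / 2 = -(r - s) / 2 by ring, abs_div, abs_neg]; norm_num
    rw [e1] at hw ⊢
    refine ⟨?_, by linarith [abs_nonneg (r - s)]⟩
    rw [show 3 * W 1 c - 2 * W ((3 - r) / 2) c - (3 * W 1 c - 2 * W ((3 - s) / 2) c) =
      -2 * (W ((3 - r) / 2) c - W ((3 - s) / 2) c) by ring, abs_mul]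
    norm_num
    linarith
  · rw [Lam_bot c a, Lam_bot c b]
    rw [ff_bot a, ff_bot b] at *
    have e1 : |5 / 2 - r - (5 / 2 - s)| = |r - s| := by
      rw [show 5 / 2 - r - (5 / 2 - s) = -(r - s) by ring, abs_neg]
    rw [e1] at hw ⊢
    refine ⟨?_, le_rfl⟩
    rw [show 3 * W 1 c - W (1 / 2) c - W (5 / 2 - r) c - (3 * W 1 c - W (1 / 2) c - W (5 / 2 - s) c) =
      -(W (5 / 2 - r) c - W (5 / 2 - s) c) by ring, abs_neg]
    exact hw

theorem Lam_min {s : ℝ} (hs : s ∈ Icc (0:ℝ) (5 / 2)) :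
    Lam (ff s) s = 0 ∨ Lam (ff s) s = 3 * W 1 (ff s) - W (1 / 2) (ff s) := by
  rcases le_total s 1 with h | h
  · left; rw [Lam_top _ h, ff_top h, W_self hs.1]
  · right
    rcases le_total s 2 with h2 | h2
    · rw [Lam_side _ h h2, ff_side h h2, W_self (by linarith),
        W_of_le (f := 1 / 2) (by norm_num) (by linarith)]
      ring
    · rw [Lam_bot _ h2, ff_bot h2, W_self (by linarith [hs.2])]
      ring

theorem ff_nonneg {s : ℝ} (hs : s ∈ Icc (0:ℝ) (5 / 2)) : 0 ≤ ff s := by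
  rcases le_total s 1 with h | h
  · rw [ff_top h]; exact hs.1
  · rcases le_total s 2 with h2 | h2
    · rw [ff_side h h2]; linarith
    · rw [ff_bot h2]; linarith [hs.2]

end Pool.Agent.H436Z.Fr
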