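import Pool.Agent.H436Z.SteinC
import Pool.Agent.H436Z.FrA

set_option autoImplicit false
open Set ENNReal

namespace Pool.Agent.H436Z.Fr
open Pool.Agent.H436Z.Stein

noncomputable def hh : ℝ := Real.sqrt 3

theorem hh_sq : hh ^ 2 = 3 := Real.sq_sqrt (by norm_num)
theorem hh_pos : 0 < hh := Real.sqrt_pos.2 (by norm_num)

/-- the truncated cone -/
def KF : Set E3 := {x | 3 * (x 0 ^ 2 + x 1 ^ 2) ≤ x 2 ^ 2 ∧ x 2 ≤ hh ∧ hh / 2 ≤ x 2}

def SF : Set E3 :=
  {x | x ∈ KF ∧ (3 * (x 0 ^ 2 + x 1 ^ 2) = x 2 ^ 2 ∨ x 2 = hh ∨ x 2 = hh / 2)}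

theorem KF_closed : IsClosed KF := by
  have h1 : IsClosed {x : E3 | 3 * (x 0 ^ 2 + x 1 ^ 2) ≤ x 2 ^ 2} :=
    isClosed_le (by fun_prop) (by fun_prop)
  have h2 : IsClosed {x : E3 | x 2 ≤ hh} := isClosed_le (by fun_prop) (by fun_prop)
  have h3 : IsClosed {x : E3 | hh / 2 ≤ x 2} := isClosed_le (by fun_prop) (by fun_prop)
  exact h1.inter (h2.inter h3)

theorem KF_convex : Convex ℝ KF := by
  intro x hx y hy a b ha hb hab
  obtain ⟨h1, h2, h3⟩ := hx
  obtain ⟨k1, k2, k3⟩ := hy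
  have hp := hh_pos
  have hx2 : 0 < x 2 := by linarith
  have hy2 : 0 < y 2 := by linarith
  have cs : 3 * (x 0 * y 0 + x 1 * y 1) ≤ x 2 * y 2 := by
    apply le_of_sq_le_sq _ (by positivity) |> fun h => h
    have e : (3 * (x 0 * y 0 + x 1 * y 1)) ^ 2 ≤
        (3 * (x 0 ^ 2 + x 1 ^ 2)) * (3 * (y 0 ^ 2 + y 1 ^ 2)) := by
      nlinarith [sq_nonneg (x 0 * y 1 - x 1 * y 0)]
    have e2 : (3 * (x 0 ^ 2 + x 1 ^ 2)) * (3 * (y 0 ^ 2 + y 1 ^ 2)) ≤ x 2 ^ 2 * y 2 ^ 2 :=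
      mul_le_mul h1 k1 (by positivity) (by positivity)
    nlinarith
  refine ⟨?_, ?_, ?_⟩ <;> simp only [PiLp.add_apply, PiLp.smul_apply, smul_eq_mul]
  · have t1 := mul_le_mul_of_nonneg_left h1 (sq_nonneg a)
    have t2 := mul_le_mul_of_nonneg_left k1 (sq_nonneg b)
    have t3 := mul_le_mul_of_nonneg_left cs (mul_nonneg ha hb)
    nlinarith
  · have hb' : b = 1 - a := by linarith
    subst hb'
    nlinarith
  · have hb' : b = 1 - a := by linarith
    subst hb'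
    nlinarith

theorem KF_compact : IsCompact KF := by
  refine Metric.isCompact_of_isClosed_isBounded KF_closed ?_
  refine (Metric.isBounded_closedBall (x := (0 : E3)) (r := 2)).subset ?_
  rintro x ⟨h1, h2, h3⟩
  rw [mem_closedBall_zero_iff]
  have hp := hh_pos
  have hs := hh_sq
  have h4 : x 2 ^ 2 ≤ 3 := by nlinarith
  have : ‖x‖ ^ 2 ≤ 2 ^ 2 := by
    rw [norm_sq3]
    nlinarith
  exact (pow_le_pow_iff_left₀ (norm_nonneg _) (by norm_num) two_ne_zero).1 this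

def KFO : Set E3 := {x | 3 * (x 0 ^ 2 + x 1 ^ 2) < x 2 ^ 2 ∧ x 2 < hh ∧ hh / 2 < x 2}

theorem KFO_open : IsOpen KFO := by
  have h1 : IsOpen {x : E3 | 3 * (x 0 ^ 2 + x 1 ^ 2) < x 2 ^ 2} :=
    isOpen_lt (by fun_prop) (by fun_prop)
  have h2 : IsOpen {x : E3 | x 2 < hh} := isOpen_lt (by fun_prop) (by fun_prop)
  have h3 : IsOpen {x : E3 | hh / 2 < x 2} := isOpen_lt (by fun_prop) (by fun_prop)
  exact h1.inter (h2.inter h3)

theorem interior_KF : interior KF = KFO := by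
  apply Subset.antisymm
  · intro x hx
    obtain ⟨ε, hε, hb⟩ := Metric.mem_nhds_iff.1 (mem_interior_iff_mem_nhds.1 hx)
    have hxK : x ∈ KF := interior_subset hx
    have hp := hh_pos
    have hs := hh_sq
    have hmove : ∀ v : E3, ‖v‖ ^ 2 ≤ 1 → x + (ε / 2) • v ∈ KF := by
      intro v hv
      apply hb
      have hv' : ‖v‖ ≤ 1 := by nlinarith [norm_nonneg v]
      rw [Metric.mem_ball, dist_eq_norm, add_sub_cancel_left, norm_smul, Real.norm_eq_abs,
        abs_of_pos (by linarith)]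
      nlinarith [norm_nonneg v]
    have hd := hmove !₂[0, 0, -1] (by rw [norm_sq3]; simp)
    refine ⟨?_, ?_, ?_⟩
    · have h1 := hd.1
      have h2 := hd.2.2
      simp at h1 h2
      have h3 := hxK.2.2
      nlinarith
    · have := (hmove !₂[0, 0, 1] (by rw [norm_sq3]; simp)).2.1
      simp at this
      linarith
    · have := hd.2.2
      simp at this
      linarith
  · exact interior_maximal (fun x hx => ⟨hx.1.le, hx.2.1.le, hx.2.2.le⟩) KFO_open

theorem frontier_KF : frontier KF = SF := by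
  rw [KF_closed.frontier_eq, interior_KF]
  ext x
  constructor
  · rintro ⟨hx, hn⟩
    refine ⟨hx, ?_⟩
    by_contra hc
    push Not at hc
    exact hn ⟨lt_of_le_of_ne hx.1 hc.1, lt_of_le_of_ne hx.2.1 hc.2.1,
      lt_of_le_of_ne hx.2.2 (Ne.symm hc.2.2)⟩
  · rintro ⟨hx, h⟩
    refine ⟨hx, fun ho => ?_⟩
    rcases h with h | h | h
    · exact ho.1.ne h
    · exact ho.2.1.ne h
    · exact ho.2.2.ne' h

noncomputable def zz (r : ℝ) : ℝ :=
  if r ≤ 1 then hh else if r ≤ 2 then hh * ((3 - r) / 2) else hh / 2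

theorem zz_top {r : ℝ} (h : r ≤ 1) : zz r = hh := if_pos h

theorem zz_side {r : ℝ} (h : 1 ≤ r) (h2 : r ≤ 2) : zz r = hh * ((3 - r) / 2) := by
  unfold zz
  split_ifs with h3
  · have : r = 1 := by linarith
    subst this; norm_num
  · rfl

theorem zz_bot {r : ℝ} (h : 2 ≤ r) : zz r = hh / 2 := by
  unfold zz
  rw [if_neg (by linarith)]
  split_ifs with h3
  · have : r = 2 := by linarith
    subst this; ring
  · rfl

noncomputable def MF (u : ℝ × ℝ) (r : ℝ) : E3 := !₂[ff r * u.1, ff r * u.2, zz r]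

theorem MF0 (u : ℝ × ℝ) (r : ℝ) : MF u r 0 = ff r * u.1 := rfl
theorem MF1 (u : ℝ × ℝ) (r : ℝ) : MF u r 1 = ff r * u.2 := rfl
theorem MF2 (u : ℝ × ℝ) (r : ℝ) : MF u r 2 = zz r := rfl

theorem MF_rad {u : ℝ × ℝ} (hu : Circ u) (r : ℝ) : MF u r 0 ^ 2 + MF u r 1 ^ 2 = ff r ^ 2 := by
  rw [MF0, MF1]
  unfold Circ at hu
  linear_combination ff r ^ 2 * hu

theorem dist_MF {u v : ℝ × ℝ} (hu : Circ u) (hv : Circ v) {r s : ℝ} (h : InPiece r s) :
    dist (MF u r) (MF v s) ^ 2 = (r - s) ^ 2 + ff r * ff s * ch2 u v := by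
  have e : (ff r - ff s) ^ 2 + (zz r - zz s) ^ 2 = (r - s) ^ 2 := by
    rcases h with ⟨a, b⟩ | ⟨a, b, a', b'⟩ | ⟨a, b⟩
    · rw [ff_top a, ff_top b, zz_top a, zz_top b]; ring
    · rw [ff_side a b, ff_side a' b', zz_side a b, zz_side a' b']
      linear_combination ((r - s) ^ 2 / 4) * hh_sq
    · rw [ff_bot a, ff_bot b, zz_bot a, zz_bot b]; ring
  rw [dist_sq3, MF0, MF0, MF1, MF1, MF2, MF2]
  unfold Circ at hu hv
  unfold ch2
  linear_combination e + (ff r ^ 2 - ff r * ff s) * hu + (ff s ^ 2 - ff r * ff s) * hv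

theorem MF_mem {u : ℝ × ℝ} (hu : Circ u) {r : ℝ} (hr : r ∈ Icc (0:ℝ) (5 / 2)) : MF u r ∈ SF := by
  have hp := hh_pos
  have hs := hh_sq
  have e := MF_rad hu r
  simp only [SF, KF, mem_ofPred_eq]
  rw [e, MF2]
  rcases le_total r 1 with h | h
  · rw [ff_top h, zz_top h]
    exact ⟨⟨by nlinarith [hr.1], le_rfl, by linarith⟩, Or.inr (Or.inl rfl)⟩
  · rcases le_total r 2 with h2 | h2
    · rw [ff_side h h2, zz_side h h2]
      have e2 : 3 * ((3 - r) / 2) ^ 2 = (hh * ((3 - r) / 2)) ^ 2 := by rw [mul_pow, hs]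
      exact ⟨⟨e2.le, by nlinarith, by nlinarith⟩, Or.inl e2⟩
    · rw [ff_bot h2, zz_bot h2]
      exact ⟨⟨by nlinarith [hr.2], by linarith, le_rfl⟩, Or.inr (Or.inr rfl)⟩

theorem MF_surj : ∀ x ∈ SF, ∃ u r, Circ u ∧ r ∈ Icc (0:ℝ) (5 / 2) ∧ MF u r = x := by
  rintro x ⟨⟨h1, h2, h3⟩, h⟩
  obtain ⟨u, t, hu, ht, e1, e2⟩ := exists_polar (x 0) (x 1)
  have hp := hh_pos
  have hs := hh_sq
  have et : x 0 ^ 2 + x 1 ^ 2 = t ^ 2 := by
    rw [← e1, ← e2]; unfold Circ at hu; linear_combination t ^ 2 * hu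
  rw [et] at h1 h
  have fin : ∀ r, ff r = t → zz r = x 2 → MF u r = x := by
    intro r a b
    ext i
    fin_cases i
    · exact (MF0 u r).trans (by rw [a]; exact e1)
    · exact (MF1 u r).trans (by rw [a]; exact e2)
    · exact (MF2 u r).trans b
  rcases h with h | h | h
  · have e3 : hh * t = x 2 := by
      have : (hh * t) ^ 2 = x 2 ^ 2 := by rw [mul_pow, hs]; exact h
      exact (pow_left_inj₀ (by positivity) (by linarith) two_ne_zero).1 this
    have t1 : t ≤ 1 := by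
      by_contra hn; push Not at hn; nlinarith
    have t2 : 1 / 2 ≤ t := by
      by_contra hn; push Not at hn; nlinarith
    refine ⟨u, 3 - 2 * t, hu, ⟨by linarith, by linarith⟩, fin _ ?_ ?_⟩
    · rw [ff_side (by linarith) (by linarith)]; ring
    · rw [zz_side (by linarith) (by linarith), ← e3]; ring
  · have t1 : t ≤ 1 := by
      rw [h, hs] at h1; nlinarith
    exact ⟨u, t, hu, ⟨ht, by linarith⟩, fin _ (ff_top t1) (by rw [zz_top t1, h])⟩
  · have t1 : t ≤ 1 / 2 := by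
      rw [h] at h1; nlinarith
    refine ⟨u, 5 / 2 - t, hu, ⟨by linarith, by linarith⟩, fin _ ?_ ?_⟩
    · rw [ff_bot (by linarith)]; ring
    · rw [zz_bot (by linarith), h]

theorem lipF {u : ℝ × ℝ} (hu : Circ u) {r s : ℝ} (h0 : 0 ≤ r) (hrs : r ≤ s) (hs : s ≤ 5 / 2)
    (h : ∀ a ∈ Icc r s, ∀ b ∈ Icc r s, InPiece a b) :
    idist SF (MF u r) (MF u s) ≤ ENNReal.ofReal (s - r) := by
  have := idist_le_of_lip (S := SF) (γ := MF u) hrs 1 zero_le_one
    (fun t ht => MF_mem hu ⟨by linarith [ht.1], by linarith [ht.2]⟩)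
    (fun a ha b hb => by
      rw [one_mul]
      apply le_of_eq
      have := dist_MF hu hu (h a ha b hb)
      rw [ch2_self, mul_zero, add_zero, ← sq_abs (a - b)] at this
      exact (pow_left_inj₀ dist_nonneg (abs_nonneg _) two_ne_zero).1 this)
  simpa using this

theorem MF_lip (u : ℝ × ℝ) (r s : ℝ) (hu : Circ u) (h0 : 0 ≤ r) (hrs : r ≤ s) (hs : s ≤ 5 / 2) :
    idist SF (MF u r) (MF u s) ≤ ENNReal.ofReal (s - r) := by
  have p1 : ∀ r s, 0 ≤ r → r ≤ s → s ≤ 1 →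
      idist SF (MF u r) (MF u s) ≤ ENNReal.ofReal (s - r) := fun r s h0 hrs hs =>
    lipF hu h0 hrs (by linarith) (fun a ha b hb => Or.inl ⟨ha.2.trans hs, hb.2.trans hs⟩)
  have p2 : ∀ r s, 1 ≤ r → r ≤ s → s ≤ 2 →
      idist SF (MF u r) (MF u s) ≤ ENNReal.ofReal (s - r) := fun r s h0 hrs hs =>
    lipF hu (by linarith) hrs (by linarith) (fun a ha b hb =>
      Or.inr (Or.inl ⟨h0.trans ha.1, ha.2.trans hs, h0.trans hb.1, hb.2.trans hs⟩))
  have p3 : ∀ r s, 2 ≤ r → r ≤ s → s ≤ 5 / 2 →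
      idist SF (MF u r) (MF u s) ≤ ENNReal.ofReal (s - r) := fun r s h0 hrs hs =>
    lipF hu (by linarith) hrs hs (fun a ha b hb => Or.inr (Or.inr ⟨h0.trans ha.1, h0.trans hb.1⟩))
  have tr : ∀ a b c : ℝ, a ≤ b → b ≤ c → idist SF (MF u a) (MF u b) ≤ ENNReal.ofReal (b - a) →
      idist SF (MF u b) (MF u c) ≤ ENNReal.ofReal (c - b) →
      idist SF (MF u a) (MF u c) ≤ ENNReal.ofReal (c - a) := by
    intro a b c hab hbc h1 h2
    refine (idist_triangle SF _ (MF u b) _).trans ?_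
    rw [show c - a = (b - a) + (c - b) by ring, ENNReal.ofReal_add (by linarith) (by linarith)]
    gcongr
  have p23 : ∀ r s, 1 ≤ r → r ≤ s → s ≤ 5 / 2 →
      idist SF (MF u r) (MF u s) ≤ ENNReal.ofReal (s - r) := by
    intro r s h0 hrs hs
    rcases le_total s 2 with h | h
    · exact p2 r s h0 hrs h
    · rcases le_total r 2 with h2 | h2
      · exact tr r _ s h2 h (p2 r _ h0 h2 le_rfl) (p3 _ s le_rfl h hs)
      · exact p3 r s h2 hrs hs
  rcases le_total s 1 with h | h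
  · exact p1 r s h0 hrs h
  · rcases le_total r 1 with h2 | h2
    · exact tr r _ s h2 h (p1 r _ h0 h2 le_rfl) (p23 _ s le_rfl h hs)
    · exact p23 r s h2 hrs hs

theorem meridF : Merid SF MF (5 / 2) where
  pos := by norm_num
  mem := fun _ _ hu hr => MF_mem hu hr
  surj := MF_surj
  lip := MF_lip
  north := by
    intro u v _ _
    simp [MF, ff_top (r := 0) (by norm_num)]
  south := by
    intro u v _ _
    simp [MF, ff_bot (r := 5 / 2) (by norm_num)]
  flat := by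
    refine ⟨1, by norm_num, fun u v r hu hv h0 hr => ?_⟩
    have hd : dist (MF u r) (MF v r) = r * Real.sqrt (ch2 u v) := by
      have : dist (MF u r) (MF v r) ^ 2 = (r * Real.sqrt (ch2 u v)) ^ 2 := by
        rw [dist_MF hu hv (Or.inl ⟨hr, hr⟩), mul_pow, Real.sq_sqrt (ch2_nonneg u v), ff_top hr]
        ring
      exact (pow_left_inj₀ dist_nonneg (by positivity) two_ne_zero).1 this
    rw [← hd]
    apply idist_le_of_segment
    rintro x ⟨a, b, ha, hb, hab, rfl⟩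
    have k1 := (MF_mem hu (r := r) ⟨h0, by linarith⟩).1
    have k3 := (MF_mem hv (r := r) ⟨h0, by linarith⟩).1
    refine ⟨KF_convex k1 k3 ha hb hab, Or.inr (Or.inl ?_)⟩
    simp only [PiLp.add_apply, PiLp.smul_apply, smul_eq_mul]
    rw [MF2, MF2, zz_top hr]
    linear_combination hh * hab

def piecesF : List (Set E3) :=
  [{x | 3 * (x 0 ^ 2 + x 1 ^ 2) = x 2 ^ 2}, {x | x 2 = hh}, {x | x 2 = hh / 2}]

theorem piecesF_cover : ∀ x ∈ SF, ∃ A ∈ piecesF, x ∈ A := by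
  rintro x ⟨-, h | h | h⟩
  · exact ⟨_, List.mem_cons_self, h⟩
  · exact ⟨_, List.mem_cons_of_mem _ List.mem_cons_self, h⟩
  · exact ⟨_, List.mem_cons_of_mem _ (List.mem_cons_of_mem _ List.mem_cons_self), h⟩

theorem piecesF_closed : ∀ A ∈ piecesF, IsClosed A := by
  intro A hA
  simp only [piecesF, List.mem_cons, List.not_mem_nil, or_false] at hA
  rcases hA with rfl | rfl | rfl <;> exact isClosed_eq (by fun_prop) (by fun_prop)

theorem inPiece_of {u v : ℝ × ℝ} (hu : Circ u) (hv : Circ v) {r s : ℝ}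
    (hr : r ∈ Icc (0:ℝ) (5 / 2)) (hs : s ∈ Icc (0:ℝ) (5 / 2)) :
    ∀ A ∈ piecesF, MF u r ∈ A → MF v s ∈ A → InPiece r s := by
  have hp := hh_pos
  have hq := hh_sq
  have k1 : ∀ {u : ℝ × ℝ} {r : ℝ}, Circ u → r ∈ Icc (0:ℝ) (5 / 2) →
      3 * (MF u r 0 ^ 2 + MF u r 1 ^ 2) = MF u r 2 ^ 2 → 1 ≤ r ∧ r ≤ 2 := by
    intro u r hu hr h
    rw [MF_rad hu, MF2] at h
    constructor
    · by_contra hn; push Not at hn
      rw [ff_top hn.le, zz_top hn.le] at h
      nlinarith [hr.1]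
    · by_contra hn; push Not at hn
      rw [ff_bot hn.le, zz_bot hn.le] at h
      nlinarith [hr.2]
  have k2 : ∀ {u : ℝ × ℝ} {r : ℝ}, MF u r 2 = hh → r ≤ 1 := by
    intro u r h
    rw [MF2] at h
    by_contra hn; push Not at hn
    rcases le_total r 2 with h2 | h2
    · rw [zz_side hn.le h2] at h; nlinarith
    · rw [zz_bot h2] at h; linarith
  have k3 : ∀ {u : ℝ × ℝ} {r : ℝ}, MF u r 2 = hh / 2 → 2 ≤ r := by
    intro u r h
    rw [MF2] at h
    by_contra hn; push Not at hn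
    rcases le_total r 1 with h2 | h2
    · rw [zz_top h2] at h; linarith
    · rw [zz_side h2 hn.le] at h; nlinarith
  intro A hA h1 h2
  simp only [piecesF, List.mem_cons, List.not_mem_nil, or_false] at hA
  rcases hA with rfl | rfl | rfl
  · exact Or.inr (Or.inl ⟨(k1 hu hr h1).1, (k1 hu hr h1).2, (k1 hv hs h2).1, (k1 hv hs h2).2⟩)
  · exact Or.inl ⟨k2 h1, k2 h2⟩
  · exact Or.inr (Or.inr ⟨k3 h1, k3 h2⟩)

noncomputable def ev (u : ℝ × ℝ) : E3 := !₂[u.1, u.2, 0]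

theorem norm_ev {u : ℝ × ℝ} (hu : Circ u) : ‖ev u‖ = 1 := by
  have h : ‖ev u‖ ^ 2 = 1 ^ 2 := by
    rw [norm_sq3]; unfold Circ at hu; simp [ev, hu]
  exact (pow_left_inj₀ (norm_nonneg _) zero_le_one two_ne_zero).1 h

theorem dist_ev (u v : ℝ × ℝ) : dist (ev u) (ev v) ^ 2 = ch2 u v := by
  rw [dist_sq3]; simp [ev, ch2]

theorem ev_neg (u : ℝ × ℝ) : ev (-u) = -ev u := by
  ext i; fin_cases i <;> simp [ev]

theorem local_est {c k : ℝ} (hc : 0 ≤ c) (hk : 1 < k) : ∃ δ > 0, ∀ (v w : ℝ × ℝ) (r s : ℝ),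
    Circ v → Circ w → InPiece r s → c ≤ ff r → c ≤ ff s → dist (MF v r) (MF w s) < δ →
      c * InnerProductGeometry.angle (ev v) (ev w) + |Lam c r - Lam c s| ≤
        k * dist (MF v r) (MF w s) := by
  rcases eq_or_lt_of_le hc with h0 | h0
  · refine ⟨1, one_pos, fun v w r s hv hw hp h1 h2 _ => ?_⟩
    have hl := (Lam_lip hc h1 h2 hp).1
    have hd := dist_MF hv hw hp
    have h3 : |r - s| ≤ dist (MF v r) (MF w s) := by
      apply le_of_sq_le_sq _ dist_nonneg |> fun h => h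
      rw [sq_abs, hd]
      have := mul_nonneg (mul_nonneg (hc.trans h1) (hc.trans h2)) (ch2_nonneg v w)
      linarith
    have h4 := Real.sin_le_one (Real.arccos (c / max (ff r) (ff s)))
    have h5 : |r - s| * Real.sin (Real.arccos (c / max (ff r) (ff s))) ≤ |r - s| := by
      nlinarith [abs_nonneg (r - s)]
    have h6 : c * InnerProductGeometry.angle (ev v) (ev w) = 0 := by rw [← h0]; simp
    nlinarith [dist_nonneg (x := MF v r) (y := MF w s)]
  · set k1 := Real.sqrt k with hk1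
    have hk1' : 1 < k1 := by rw [hk1, Real.lt_sqrt (by norm_num)]; linarith
    have hkk : k1 * k1 = k := Real.mul_self_sqrt (by linarith)
    obtain ⟨η, hη, ha⟩ := angle_le_chord hk1'
    refine ⟨min (c * η) (c * (k1 - 1)), lt_min (by positivity) (mul_pos h0 (by linarith)),
      fun v w r s hv hw hp h1 h2 hd0 => ?_⟩
    obtain ⟨hl, hf⟩ := Lam_lip hc h1 h2 hp
    have hd := dist_MF hv hw hp
    rw [← dist_ev] at hd
    set D := dist (MF v r) (MF w s)
    set e := dist (ev v) (ev w)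
    have hD : 0 ≤ D := dist_nonneg
    have he : 0 ≤ e := dist_nonneg
    have hff : c * c ≤ ff r * ff s := mul_le_mul h1 h2 hc (hc.trans h1)
    have h3 : |r - s| ≤ D := by
      apply le_of_sq_le_sq _ hD |> fun h => h
      rw [sq_abs, hd]
      have := mul_nonneg (mul_nonneg (hc.trans h1) (hc.trans h2)) (sq_nonneg e)
      linarith
    have h4 : c * e ≤ D := by
      apply le_of_sq_le_sq _ hD |> fun h => h
      rw [hd]
      nlinarith [sq_nonneg (r - s), mul_le_mul_of_nonneg_right hff (sq_nonneg e)]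
    have h5 : e < η := by
      have := lt_of_lt_of_le hd0 (min_le_left _ _)
      by_contra hn; push Not at hn
      nlinarith
    have h6 := ha _ _ (norm_ev hv) (norm_ev hw) h5
    set Mx := max (ff r) (ff s) with hMx
    have hcM : c ≤ Mx := h1.trans (le_max_left _ _)
    have h7 : Mx ^ 2 ≤ k1 ^ 2 * (ff r * ff s) := by
      have hδ := lt_of_lt_of_le hd0 (min_le_right _ _)
      have a1 := (abs_le.1 (hf.trans h3))
      have r0 : 0 ≤ ff r := hc.trans h1
      have s0 : 0 ≤ ff s := hc.trans h2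
      have b1 : Mx ≤ k1 * ff r := by
        apply max_le
        · nlinarith
        · nlinarith [a1.1]
      have b2 : Mx ≤ k1 * ff s := by
        apply max_le
        · nlinarith [a1.2]
        · nlinarith
      calc Mx ^ 2 = Mx * Mx := by ring
        _ ≤ (k1 * ff r) * (k1 * ff s) := mul_le_mul b1 b2 (hc.trans hcM) (by positivity)
        _ = _ := by ring
    have hcos := cos_arccos_div hc hcM
    set φ := Real.arccos (c / Mx)
    have hsc := Real.sin_sq_add_cos_sq φ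
    have hs0 : 0 ≤ Real.sin φ :=
      Real.sin_nonneg_of_nonneg_of_le_pi (Real.arccos_nonneg _) (Real.arccos_le_pi _)
    have h8 : c * e + |r - s| * Real.sin φ ≤ k1 * D := by
      apply le_of_sq_le_sq _ (by positivity) |> fun h => h
      have c1 : (c * e + |r - s| * Real.sin φ) ^ 2 ≤ (Mx * e) ^ 2 + |r - s| ^ 2 := by
        rw [← hcos]
        nlinarith [sq_nonneg (Mx * e * Real.sin φ - |r - s| * Real.cos φ)]
      rw [sq_abs] at c1
      have c2 : (Mx * e) ^ 2 ≤ k1 ^ 2 * (ff r * ff s) * e ^ 2 := by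
        rw [mul_pow]; exact mul_le_mul_of_nonneg_right h7 (sq_nonneg e)
      have c3 : (r - s) ^ 2 ≤ k1 ^ 2 * (r - s) ^ 2 := by
        have : 1 ≤ k1 ^ 2 := by nlinarith
        nlinarith [sq_nonneg (r - s)]
      rw [mul_pow, hd]
      nlinarith
    have h9 : c * InnerProductGeometry.angle (ev v) (ev w) ≤ k1 * (c * e) := by
      have := mul_le_mul_of_nonneg_left h6 hc
      linarith
    have h10 : |r - s| * Real.sin φ ≤ k1 * (|r - s| * Real.sin φ) := by
      have : 0 ≤ |r - s| * Real.sin φ := by positivity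
      nlinarith
    have h11 := mul_le_mul_of_nonneg_left h8 (by linarith : 0 ≤ k1)
    rw [← hkk]
    nlinarith

theorem MF_inj {u v : ℝ × ℝ} (hu : Circ u) (hv : Circ v) {r s : ℝ} (hr : r ∈ Icc (0:ℝ) (5 / 2))
    (hs : s ∈ Icc (0:ℝ) (5 / 2)) (h : MF u r = MF v s) : r = s ∧ (0 < ff r → u = v) := by
  obtain ⟨A, hA, hxA⟩ := piecesF_cover _ (MF_mem hu hr)
  have hp := inPiece_of hu hv hr hs A hA hxA (h ▸ hxA)
  have hd := dist_MF hu hv hp
  rw [h, dist_self] at hd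
  have h1 := mul_nonneg (mul_nonneg (ff_nonneg hr) (ff_nonneg hs)) (ch2_nonneg u v)
  have h2 : r = s := by nlinarith [sq_nonneg (r - s)]
  subst h2
  refine ⟨rfl, fun h0 => ?_⟩
  have h3 : ch2 u v = 0 := by
    by_contra hn
    have : 0 < ch2 u v := lt_of_le_of_ne (ch2_nonneg u v) (Ne.symm hn)
    have := mul_pos (mul_pos h0 h0) this
    nlinarith
  unfold ch2 at h3
  ext
  · nlinarith [sq_nonneg (u.1 - v.1), sq_nonneg (u.2 - v.2)]
  · nlinarith [sq_nonneg (u.1 - v.1), sq_nonneg (u.2 - v.2)]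

theorem lowF (u : ℝ × ℝ) (a : ℝ) (hu : Circ u) (ha : a ∈ Icc (0:ℝ) (5 / 2)) :
    ENNReal.ofReal (a + FF a) ≤ idist SF (MF u a) (MF (-u) (FF a)) := by
  have hex : ∀ x : E3, ∃ p : (ℝ × ℝ) × ℝ, x ∈ SF →
      Circ p.1 ∧ p.2 ∈ Icc (0:ℝ) (5 / 2) ∧ MF p.1 p.2 = x := by
    intro x
    by_cases hx : x ∈ SF
    · obtain ⟨u, r, h⟩ := MF_surj x hx
      exact ⟨(u, r), fun _ => h⟩
    · exact ⟨0, fun h => absurd h hx⟩
  choose P hP using hex
  have hb := FF_mem ha
  refine le_idist (fun γ hγ => ?_)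
  let ρ : E3 → ℝ := fun x => Real.sqrt (x 0 ^ 2 + x 1 ^ 2)
  have hρc : Continuous ρ := by fun_prop
  have hρ : ∀ x ∈ SF, ρ x = ff (P x).2 := by
    intro x hx
    obtain ⟨h1, h2, h3⟩ := hP x hx
    have := MF_rad h1 (P x).2
    rw [h3] at this
    simp only [ρ]
    rw [this, Real.sqrt_sq (ff_nonneg h2)]
  obtain ⟨t0, ht0, hmin⟩ := isCompact_Icc.exists_isMinOn (nonempty_Icc.2 zero_le_one)
    (hρc.comp_continuousOn hγ.1)
  have hy : γ t0 ∈ SF := hγ.2.2.2 t0 ht0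
  set c := ρ (γ t0) with hcdef
  have hc : 0 ≤ c := Real.sqrt_nonneg _
  let Sc : Set E3 := {x | x ∈ SF ∧ c ≤ ρ x}
  have hSc : ∀ t ∈ Icc (0:ℝ) 1, γ t ∈ Sc := fun t ht => ⟨hγ.2.2.2 t ht, hmin ht⟩
  have key : ∀ (e : E3) (σ : ℝ), |σ| = 1 → ∀ k > (1:ℝ), ∀ x ∈ Sc, ∃ δ > 0, ∀ y ∈ Sc, dist x y < δ →
      |(c * InnerProductGeometry.angle e (ev (P x).1) + σ * Lam c (P x).2) -
        (c * InnerProductGeometry.angle e (ev (P y).1) + σ * Lam c (P y).2)| ≤ k * dist x y := by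
    intro e σ hσ k hk x hx
    obtain ⟨δ, hδ, h1⟩ := local_est hc hk
    obtain ⟨δ', hδ', h2⟩ := loc_of_cover (S := SF) (P := fun x y => InPiece (P x).2 (P y).2)
      piecesF piecesF_closed piecesF_cover (fun A hA x hx y hy hxA hyA => by
        obtain ⟨h1, h2, h3⟩ := hP _ hx
        obtain ⟨k1, k2, k3⟩ := hP _ hy
        exact inPiece_of h1 k1 h2 k2 A hA (by rw [h3]; exact hxA) (by rw [k3]; exact hyA)) x hx.1
    refine ⟨min δ δ', lt_min hδ hδ', fun y hy hxy => ?_⟩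
    obtain ⟨a1, a2, a3⟩ := hP _ hx.1
    obtain ⟨b1, b2, b3⟩ := hP _ hy.1
    have h3 := h1 _ _ _ _ a1 b1 (h2 y hy.1 (lt_of_lt_of_le hxy (min_le_right _ _)))
      (by rw [← hρ x hx.1]; exact hx.2) (by rw [← hρ y hy.1]; exact hy.2)
      (by rw [a3, b3]; exact lt_of_lt_of_le hxy (min_le_left _ _))
    rw [a3, b3] at h3
    have t1 := InnerProductGeometry.angle_le_angle_add_angle e (ev (P x).1) (ev (P y).1)
    have t2 := InnerProductGeometry.angle_le_angle_add_angle e (ev (P y).1) (ev (P x).1)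
    rw [InnerProductGeometry.angle_comm (ev (P y).1) (ev (P x).1)] at t2
    have t3 : |σ * Lam c (P x).2 - σ * Lam c (P y).2| = |Lam c (P x).2 - Lam c (P y).2| := by
      rw [← mul_sub, abs_mul, hσ, one_mul]
    have t4 := abs_le.1 t3.le
    have t5 := mul_le_mul_of_nonneg_left t1 hc
    have t6 := mul_le_mul_of_nonneg_left t2 hc
    rw [abs_le]
    constructor <;> nlinarith [t4.1, t4.2]
  obtain ⟨p1, p2, p3⟩ := hP _ (MF_mem hu ha)
  obtain ⟨q1, q2, q3⟩ := hP _ (MF_mem hu.neg hb)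
  obtain ⟨y1, y2, y3⟩ := hP _ hy
  obtain ⟨pa, pu⟩ := MF_inj hu p1 ha p2 p3.symm
  obtain ⟨qa, qu⟩ := MF_inj hu.neg q1 hb q2 q3.symm
  have hca : c ≤ ff a := by
    have := (hSc 0 (left_mem_Icc.2 zero_le_one)).2
    rwa [hγ.2.1, hρ _ (MF_mem hu ha), ← pa] at this
  have hcb : c ≤ ff (FF a) := by
    have := (hSc 1 (right_mem_Icc.2 zero_le_one)).2
    rwa [hγ.2.2.1, hρ _ (MF_mem hu.neg hb), ← qa] at this
  have hcy : c = ff (P (γ t0)).2 := hρ _ hy
  have ang0 : ∀ w : ℝ × ℝ, Circ w → InnerProductGeometry.angle (ev w) (ev w) = 0 := fun w hw =>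
    InnerProductGeometry.angle_self (by
      intro h; have := norm_ev hw; rw [h] at this; simp at this)
  have hang : c * Real.pi ≤ c * InnerProductGeometry.angle (ev (P (MF u a)).1) (ev (P (γ t0)).1) +
      c * InnerProductGeometry.angle (ev (P (γ t0)).1) (ev (P (MF (-u) (FF a))).1) := by
    rcases eq_or_lt_of_le hc with h0 | h0
    · rw [← h0]; simp
    · rw [← pu (by linarith), ← qu (by linarith), ← mul_add]
      refine mul_le_mul_of_nonneg_left ?_ hc
      refine le_trans (le_of_eq ?_) (InnerProductGeometry.angle_le_angle_add_angle _ _ _)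
      rw [ev_neg, InnerProductGeometry.angle_self_neg_of_nonzero]
      intro h; have := norm_ev hu; rw [h] at this; simp at this
  have main : ∀ σ : ℝ, |σ| = 1 → ENNReal.ofReal (c * Real.pi +
      σ * (2 * Lam c (P (γ t0)).2 - Lam c a - Lam c (FF a))) ≤ eVariationOn γ (Icc 0 1) := by
    intro σ hσ
    have s1 := ofReal_sub_le_evar (key (ev (P (MF u a)).1) σ hσ) ht0.1
      (hγ.1.mono (Icc_subset_Icc le_rfl ht0.2)) (fun t ht => hSc t ⟨ht.1, ht.2.trans ht0.2⟩)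
    have s2 := ofReal_sub_le_evar (key (ev (P (γ t0)).1) (-σ) (by rw [abs_neg, hσ])) ht0.2
      (hγ.1.mono (Icc_subset_Icc ht0.1 le_rfl)) (fun t ht => hSc t ⟨ht0.1.trans ht.1, ht.2⟩)
    rw [hγ.2.1, ang0 _ p1, ← pa] at s1
    rw [hγ.2.2.1, ang0 _ y1, ← qa] at s2
    have h4 := eVariationOn.Icc_add_Icc γ (s := univ) ht0.1 ht0.2 (mem_univ _)
    simp only [univ_inter] at h4
    rw [← h4]
    refine le_trans ?_ (add_le_add s1 s2)
    refine le_trans (ENNReal.ofReal_le_ofReal ?_) ENNReal.ofReal_add_le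
    linarith
  obtain ⟨iN, iS⟩ := ineq_all ha hc hca hcb
  have hm := Lam_min y2
  rw [← hcy] at hm
  rcases hm with hm | hm
  · refine le_trans (ENNReal.ofReal_le_ofReal ?_) (main (-1) (by simp))
    rw [hm]; linarith
  · refine le_trans (ENNReal.ofReal_le_ofReal ?_) (main 1 (by simp))
    rw [hm]; linarith

end Pool.Agent.H436Z.Fr
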