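import Pool.Agent.H436Z.FrB

set_option autoImplicit false
open Set ENNReal

namespace Pool.Agent.H436Z.Fr
open Pool.Agent.H436Z.Stein

def sqc (e : ℝ × ℝ) : ℝ × ℝ := (e.1 ^ 2 - e.2 ^ 2, 2 * e.1 * e.2)

theorem circ_sqc {e : ℝ × ℝ} (he : Circ e) : Circ (sqc e) := by
  unfold Circ sqc at *
  simp only
  linear_combination (e.1 ^ 2 + e.2 ^ 2 + 1) * he

theorem ch2_sqc {e e' : ℝ × ℝ} (he : Circ e) (he' : Circ e') :
    ch2 (sqc e) (sqc e') ≤ 4 * ch2 e e' := by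
  have h1 : ch2 (sqc e) (sqc e') = ch2 e e' * (4 - ch2 e e') := by
    unfold Circ at he he'
    unfold ch2 sqc
    simp only
    have : (e.1 + e'.1) ^ 2 + (e.2 + e'.2) ^ 2 = 4 - ((e.1 - e'.1) ^ 2 + (e.2 - e'.2) ^ 2) := by
      linear_combination 2 * he + 2 * he'
    rw [← this]
    ring
  rw [h1]
  nlinarith [ch2_nonneg e e']

theorem exists_sqrt_circ {u : ℝ × ℝ} (hu : Circ u) : ∃ e, Circ e ∧ sqc e = u := by
  have hb := hu.abs
  have h1 : 0 ≤ (1 + u.1) / 2 := by linarith [hb.1]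
  have h2 : 0 ≤ (1 - u.1) / 2 := by linarith [hb.2]
  have s1 := Real.sq_sqrt h1
  have s2 := Real.sq_sqrt h2
  set A := Real.sqrt ((1 + u.1) / 2)
  set B := Real.sqrt ((1 - u.1) / 2)
  have hA : 0 ≤ A := Real.sqrt_nonneg _
  have hB : 0 ≤ B := Real.sqrt_nonneg _
  have e : (2 * A * B) ^ 2 = u.2 ^ 2 := by
    unfold Circ at hu
    rw [mul_pow, mul_pow, s1, s2]
    linarith
  rcases le_total 0 u.2 with h | h
  · refine ⟨(A, B), by unfold Circ; simp only; linarith, ?_⟩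
    ext
    · simp only [sqc]; linarith
    · simp only [sqc]
      exact (pow_left_inj₀ (by positivity) h two_ne_zero).1 e
  · refine ⟨(A, -B), by unfold Circ; simp only; rw [neg_sq]; linarith, ?_⟩
    ext
    · simp only [sqc]; rw [neg_sq]; linarith
    · simp only [sqc]
      have : 2 * A * B = -u.2 :=
        (pow_left_inj₀ (by positivity) (by linarith) two_ne_zero).1 (by rw [e]; ring)
      linarith

theorem side_path {e e' : ℝ × ℝ} (he : Circ e) (he' : Circ e')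
    (hin : 0 ≤ e.1 * e'.1 + e.2 * e'.2) {x y : ℝ} (hx : 29 / 20 ≤ x) (hx2 : x ≤ 2)
    (hy : 29 / 20 ≤ y) (hy2 : y ≤ 2) :
    idist SF (MF (sqc e) (3 - x)) (MF (sqc e') (3 - y)) ≤
      ENNReal.ofReal (Real.sqrt (x ^ 2 + y ^ 2)) := by
  have hex : ∀ t : ℝ, ∃ p : (ℝ × ℝ) × ℝ, Circ p.1 ∧ 0 ≤ p.2 ∧
      p.2 * p.1.1 = (1 - t) * (x * e.1) + t * (y * e'.1) ∧
      p.2 * p.1.2 = (1 - t) * (x * e.2) + t * (y * e'.2) := by
    intro t
    obtain ⟨u, s, h⟩ := exists_polar ((1 - t) * (x * e.1) + t * (y * e'.1))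
      ((1 - t) * (x * e.2) + t * (y * e'.2))
    exact ⟨(u, s), h⟩
  choose P hP using hex
  have hin1 : e.1 * e'.1 + e.2 * e'.2 ≤ 1 := by
    unfold Circ at he he'
    nlinarith [sq_nonneg (e.1 - e'.1), sq_nonneg (e.2 - e'.2)]
  set ι := e.1 * e'.1 + e.2 * e'.2 with hι
  have hs : ∀ t, (P t).2 ^ 2 = (1 - t) ^ 2 * x ^ 2 + t ^ 2 * y ^ 2 + 2 * ((1 - t) * t * (x * y)) * ι := by
    intro t
    obtain ⟨h1, h2, h3, h4⟩ := hP t
    unfold Circ at h1 he he'
    have : (P t).2 ^ 2 = ((P t).2 * (P t).1.1) ^ 2 + ((P t).2 * (P t).1.2) ^ 2 := by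
      linear_combination (-(P t).2 ^ 2) * h1
    rw [this, h3, h4, hι]
    linear_combination ((1 - t) ^ 2 * x ^ 2) * he + (t ^ 2 * y ^ 2) * he'
  have hrange : ∀ t ∈ Icc (0:ℝ) 1, 1 ≤ (P t).2 ∧ (P t).2 ≤ 2 := by
    intro t ht
    have h0 := (hP t).2.1
    have h1 := hs t
    have ht1 : 0 ≤ 1 - t := by linarith [ht.2]
    have hw : 0 ≤ (1 - t) * t * (x * y) := by have := ht.1; positivity
    constructor
    · apply le_of_sq_le_sq _ h0 |> fun h => h
      have a1 : (29 / 20) ^ 2 ≤ x ^ 2 := by nlinarith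
      have a2 : (29 / 20) ^ 2 ≤ y ^ 2 := by nlinarith
      have a3 := mul_le_mul_of_nonneg_left a1 (sq_nonneg (1 - t))
      have a4 := mul_le_mul_of_nonneg_left a2 (sq_nonneg t)
      have a5 := mul_nonneg hw hin
      nlinarith [sq_nonneg (2 * t - 1)]
    · apply le_of_sq_le_sq _ (by norm_num) |> fun h => h
      have a1 := mul_le_mul_of_nonneg_left hin1 hw
      have a2 : (1 - t) * x + t * y ≤ 2 := by nlinarith [ht.1]
      have a3 : 0 ≤ (1 - t) * x + t * y := by have := ht.1; positivity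
      nlinarith
  set ℓ := Real.sqrt (x ^ 2 + y ^ 2) with hℓ
  have hℓ0 : 0 ≤ ℓ := Real.sqrt_nonneg _
  have hℓ2 : ℓ ^ 2 = x ^ 2 + y ^ 2 := Real.sq_sqrt (by positivity)
  have main := idist_le_of_lip (S := SF) (γ := fun t => MF (sqc (P t).1) (3 - (P t).2))
    zero_le_one ℓ hℓ0
    (fun t ht => MF_mem (circ_sqc (hP t).1) ⟨by linarith [(hrange t ht).2],
      by linarith [(hrange t ht).1]⟩)
    (fun s hs' t ht => by
      obtain ⟨a1, a2⟩ := hrange s hs'
      obtain ⟨b1, b2⟩ := hrange t ht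
      obtain ⟨h1, h2, h3, h4⟩ := hP s
      obtain ⟨k1, k2, k3, k4⟩ := hP t
      apply le_of_sq_le_sq _ (by positivity) |> fun h => h
      rw [dist_MF (circ_sqc h1) (circ_sqc k1) (Or.inr (Or.inl ⟨by linarith, by linarith,
        by linarith, by linarith⟩)), ff_side (by linarith) (by linarith),
        ff_side (by linarith) (by linarith), mul_pow, sq_abs, hℓ2]
      have c1 := ch2_sqc h1 k1
      have c2 := mul_le_mul_of_nonneg_left c1 (mul_nonneg h2 k2)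
      have c3 : ((P s).2 - (P t).2) ^ 2 + (P s).2 * (P t).2 * ch2 (P s).1 (P t).1 =
          (s - t) ^ 2 * (x ^ 2 + y ^ 2 - 2 * (x * y) * ι) := by
        have : ((P s).2 - (P t).2) ^ 2 + (P s).2 * (P t).2 * ch2 (P s).1 (P t).1 =
            ((P s).2 * (P s).1.1 - (P t).2 * (P t).1.1) ^ 2 +
              ((P s).2 * (P s).1.2 - (P t).2 * (P t).1.2) ^ 2 := by
          unfold Circ at h1 k1
          unfold ch2
          linear_combination (-(P s).2 ^ 2 + (P s).2 * (P t).2) * h1 +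
            (-(P t).2 ^ 2 + (P s).2 * (P t).2) * k1
        rw [this, h3, h4, k3, k4, hι]
        unfold Circ at he he'
        linear_combination ((s - t) ^ 2 * x ^ 2) * he + ((s - t) ^ 2 * y ^ 2) * he'
      have c4 : 0 ≤ (s - t) ^ 2 * ((x * y) * ι) := by
        have : 0 ≤ x * y := by positivity
        positivity
      nlinarith)
  have end0 : ∀ (t z : ℝ) (d : ℝ × ℝ), Circ d → 0 < z → (P t).2 * (P t).1.1 = z * d.1 →
      (P t).2 * (P t).1.2 = z * d.2 → (P t).2 = z ∧ (P t).1 = d := by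
    intro t z d hd hz h3 h4
    obtain ⟨h1, h2, -, -⟩ := hP t
    unfold Circ at h1 hd
    have : (P t).2 ^ 2 = z ^ 2 := by
      have : (P t).2 ^ 2 = ((P t).2 * (P t).1.1) ^ 2 + ((P t).2 * (P t).1.2) ^ 2 := by
        linear_combination (-(P t).2 ^ 2) * h1
      rw [this, h3, h4]
      linear_combination z ^ 2 * hd
    have e1 : (P t).2 = z := (pow_left_inj₀ h2 hz.le two_ne_zero).1 this
    rw [e1] at h3 h4
    exact ⟨e1, Prod.ext (mul_left_cancel₀ hz.ne' h3) (mul_left_cancel₀ hz.ne' h4)⟩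
  obtain ⟨u1, u2⟩ := end0 0 x e he (by linarith) (by rw [(hP 0).2.2.1]; ring)
    (by rw [(hP 0).2.2.2]; ring)
  obtain ⟨v1, v2⟩ := end0 1 y e' he' (by linarith) (by rw [(hP 1).2.2.1]; ring)
    (by rw [(hP 1).2.2.2]; ring)
  simp only [u1, u2, v1, v2, sub_zero, mul_one] at main
  exact main

theorem upF (u v : ℝ × ℝ) (a r : ℝ) (hu : Circ u) (hv : Circ v) (ha : a ∈ Icc (0:ℝ) (5 / 2))
    (hr : r ∈ Icc (0:ℝ) (5 / 2)) (h : FF a < r) :
    idist SF (MF u a) (MF v r) < ENNReal.ofReal (a + FF a) := by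
  have hb := FF_mem ha
  by_cases h1 : (5 / 2 - a) + (5 / 2 - r) < a + FF a
  · refine lt_of_le_of_lt (meridF.via_south hu hv ha hr) ?_
    rw [ENNReal.ofReal_lt_ofReal_iff (by linarith [ha.2, hr.2])]
    exact h1
  · push Not at h1
    have a1 : 1 ≤ a := by
      by_contra hn; push Not at hn
      rw [FF_low hn.le] at h h1; linarith
    have a2 : a ≤ 3 / 2 := by
      by_contra hn; push Not at hn
      rw [FF_high hn.le] at h h1; linarith
    obtain ⟨e, h3, h4, h5, h6⟩ := FF_mid_prop a1 a2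
    obtain ⟨d, hd, rfl⟩ := exists_sqrt_circ hu
    obtain ⟨d', hd', hin, rfl⟩ : ∃ d', Circ d' ∧ 0 ≤ d.1 * d'.1 + d.2 * d'.2 ∧ sqc d' = v := by
      obtain ⟨d', hd', e'⟩ := exists_sqrt_circ hv
      rcases le_total 0 (d.1 * d'.1 + d.2 * d'.2) with h7 | h7
      · exact ⟨d', hd', h7, e'⟩
      · refine ⟨-d', hd'.neg, by simp; linarith, ?_⟩
        rw [← e']; simp [sqc]
    have := side_path hd hd' hin (x := 3 - a) (y := 3 - r) (by linarith) (by linarith)
      (by linarith) (by linarith)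
    rw [sub_sub_cancel 3 a, sub_sub_cancel 3 r] at this
    refine lt_of_le_of_lt this ?_
    rw [ENNReal.ofReal_lt_ofReal_iff (by linarith), Real.sqrt_lt' (by linarith)]
    nlinarith

theorem far (u : ℝ × ℝ) (a : ℝ) (hu : Circ u) (ha : a ∈ Icc (0:ℝ) (5 / 2)) :
    ∀ x ∈ SF, x ≠ MF (-u) (FF a) → idist SF (MF u a) x < ENNReal.ofReal (a + FF a) := by
  intro x hx hne
  obtain ⟨v, r, hv, hr, rfl⟩ := MF_surj x hx
  have hb := FF_mem ha
  rcases lt_trichotomy r (FF a) with h | h | h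
  · refine lt_of_le_of_lt (meridF.via_north hu hv ha hr) ?_
    rw [ENNReal.ofReal_lt_ofReal_iff (by linarith [ha.1, hr.1])]
    linarith
  · subst h
    refine meridF.corner hu hv ha hr ?_ ?_ ?_
    · rcases eq_or_lt_of_le ha.1 with h2 | h2
      · exfalso; apply hne
        rw [← h2, FF_low (by norm_num), sub_zero]
        exact meridF.south _ _ hv hu.neg
      · exact h2
    · rcases eq_or_lt_of_le hr.1 with h2 | h2
      · exfalso; apply hne; rw [← h2]; exact meridF.north _ _ hv hu.neg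
      · exact h2
    · rintro rfl; exact hne rfl
  · exact upF u v a r hu hv ha hr h

theorem far_le (u : ℝ × ℝ) (a : ℝ) (hu : Circ u) (ha : a ∈ Icc (0:ℝ) (5 / 2)) :
    ∀ x ∈ SF, idist SF (MF u a) x ≤ ENNReal.ofReal (a + FF a) := by
  intro x hx
  by_cases h : x = MF (-u) (FF a)
  · rw [h]; exact meridF.via_north hu hu.neg ha (FF_mem ha)
  · exact (far u a hu ha x hx h).le

theorem max_iff (u : ℝ × ℝ) (a : ℝ) (hu : Circ u) (ha : a ∈ Icc (0:ℝ) (5 / 2)) (y : E3)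
    (hy : y ∈ SF) :
    (∀ z ∈ SF, idist SF (MF u a) z ≤ idist SF (MF u a) y) ↔ y = MF (-u) (FF a) := by
  constructor
  · intro h
    by_contra hne
    exact absurd (far u a hu ha y hy hne)
      (not_lt.2 ((lowF u a hu ha).trans (h _ (MF_mem hu.neg (FF_mem ha)))))
  · rintro rfl z hz
    exact (far_le u a hu ha z hz).trans (lowF u a hu ha)

theorem main :
    (∀ x ∈ SF, ∃! y, y ∈ SF ∧ ∀ z ∈ SF, idist SF x z ≤ idist SF x y) ∧
    (∀ x ∈ SF, ∀ y ∈ SF, (∀ z ∈ SF, idist SF x z ≤ idist SF x y) →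
      ∀ w ∈ SF, idist SF y w ≤ idist SF y x) ∧
    (∃ x ∈ SF, ∃ y ∈ SF, (⨆ z ∈ SF, idist SF x z) ≠ (⨆ z ∈ SF, idist SF y z)) := by
  refine ⟨?_, ?_, ?_⟩
  · intro x hx
    obtain ⟨u, a, hu, ha, rfl⟩ := MF_surj x hx
    have hm := MF_mem hu.neg (FF_mem ha)
    exact ⟨MF (-u) (FF a), ⟨hm, (max_iff u a hu ha _ hm).2 rfl⟩,
      fun y hy => (max_iff u a hu ha y hy.1).1 hy.2⟩
  · intro x hx y hy h
    obtain ⟨u, a, hu, ha, rfl⟩ := MF_surj x hx
    rw [(max_iff u a hu ha y hy).1 h]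
    refine (max_iff (-u) (FF a) hu.neg (FF_mem ha) _ hx).2 ?_
    rw [neg_neg, FF_FF]
  · have hu : Circ (1, 0) := by simp [Circ]
    have h0 : (0:ℝ) ∈ Icc (0:ℝ) (5 / 2) := ⟨le_rfl, by norm_num⟩
    have h1 : (5 / 4 : ℝ) ∈ Icc (0:ℝ) (5 / 2) := ⟨by norm_num, by norm_num⟩
    refine ⟨_, MF_mem hu h0, _, MF_mem hu h1, ne_of_gt ?_⟩
    have a1 : (⨆ z ∈ SF, idist SF (MF (1, 0) (5 / 4)) z) ≤ ENNReal.ofReal (5 / 4 + FF (5 / 4)) :=
      iSup₂_le (far_le _ _ hu h1)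
    have a2 : ENNReal.ofReal (0 + FF 0) ≤ ⨆ z ∈ SF, idist SF (MF (1, 0) 0) z :=
      (lowF _ _ hu h0).trans (le_iSup₂_of_le _ (MF_mem hu.neg (FF_mem h0)) le_rfl)
    refine lt_of_le_of_lt a1 (lt_of_lt_of_le ?_ a2)
    rw [FF_mid (by norm_num) (by norm_num), FF_low (by norm_num),
      ENNReal.ofReal_lt_ofReal_iff (by norm_num)]
    norm_num

theorem interior_ne : (interior KF).Nonempty := by
  rw [interior_KF]
  have hp := hh_pos
  refine ⟨!₂[0, 0, 3 / 4 * hh], ?_, ?_, ?_⟩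
  · simp; positivity
  · simp; linarith
  · simp; linarith

end Pool.Agent.H436Z.Fr
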