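import Mathlib

set_option autoImplicit false

open scoped ENNReal Topology
open Set Filter

namespace Pool.Agent.H436Z.Mil

/-- Euclidean 3-space. -/
abbrev E3 := EuclideanSpace ℝ (Fin 3)

/-- The coordinate basis `1, i` of the plane `ℂ = ℝ²`. -/
def e : Fin 2 → ℂ := ![1, Complex.I]

/-- First fundamental form of `f` at `z` in the coordinates `x, y`. -/
noncomputable def formI (f : ℂ → E3) (z : ℂ) : Matrix (Fin 2) (Fin 2) ℝ :=
  Matrix.of fun i j => inner ℝ (fderiv ℝ f z (e i)) (fderiv ℝ f z (e j))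

/-- Second fundamental form of `f` at `z` for the normal vector `N`. -/
noncomputable def formII (f : ℂ → E3) (z : ℂ) (N : E3) : Matrix (Fin 2) (Fin 2) ℝ :=
  Matrix.of fun i j => inner ℝ (fderiv ℝ (fun w => fderiv ℝ f w (e i)) z (e j)) N

/-- `k₁, k₂` are the principal curvatures of `f` at `z`: the eigenvalues, with multiplicity, of
the shape operator `I⁻¹ II` for a unit normal `N`. -/
def IsPrincipal (f : ℂ → E3) (z : ℂ) (k₁ k₂ : ℝ) : Prop :=
  ∃ N : E3, ‖N‖ = 1 ∧ (∀ v, inner ℝ (fderiv ℝ f z v) N = 0) ∧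
    ((formI f z)⁻¹ * formII f z N).charpoly =
      (Polynomial.X - Polynomial.C k₁) * (Polynomial.X - Polynomial.C k₂)

/-- Distance of the metric induced by `f` on `U`: the infimum of the lengths of the images of
`C¹` curves in `U` from `p` to `q`. -/
noncomputable def idist (f : ℂ → E3) (U : Set ℂ) (p q : ℂ) : ℝ≥0∞ :=
  ⨅ (γ : ℝ → ℂ) (_ : ContDiffOn ℝ 1 γ (Icc 0 1)) (_ : MapsTo γ (Icc 0 1) U) (_ : γ 0 = p)
    (_ : γ 1 = q), eVariationOn (f ∘ γ) (Icc 0 1)

/-- The metric induced by `f` on `U` is complete. -/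
def Complete (f : ℂ → E3) (U : Set ℂ) : Prop :=
  ∀ u : ℕ → ℂ, (∀ n, u n ∈ U) →
    (∀ ε > 0, ∃ N, ∀ m ≥ N, ∀ n ≥ N, idist f U (u m) (u n) < ε) →
    ∃ p ∈ U, Tendsto (fun n => idist f U (u n) p) atTop (𝓝 0)

/-- Height of the surface with (rescaled) support function `g` in stereographic coordinates. -/
noncomputable def TT (g : ℂ → ℝ) (z : ℂ) : ℝ := (fderiv ℝ g z z - g z) / (1 + ‖z‖ ^ 2)

/-- The quadratic form of the radii of curvature (up to the factor `(1+|z|²)/2`). -/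
noncomputable def QQ (g : ℂ → ℝ) (z v : ℂ) : ℝ :=
  fderiv ℝ (fun w => fderiv ℝ g w v) z v / 2 - TT g z * ‖v‖ ^ 2

/-- The surface with support function `g / (1+|z|²)`. -/
noncomputable def XX (g : ℂ → ℝ) (z : ℂ) : E3 :=
  !₂[fderiv ℝ g z 1 / 2 - z.re * TT g z, fderiv ℝ g z Complex.I / 2 - z.im * TT g z, TT g z]

end Pool.Agent.H436Z.Mil
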