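import Pool.Agent.H436Z.SteinDefs

set_option autoImplicit false
open Set ENNReal

namespace Pool.Agent.H436Z.Stein

def IsPath (S : Set E3) (γ : ℝ → E3) (x y : E3) : Prop :=
  ContinuousOn γ (Set.Icc (0:ℝ) 1) ∧ γ 0 = x ∧ γ 1 = y ∧ ∀ t ∈ Set.Icc (0:ℝ) 1, γ t ∈ S

theorem idist_le {S : Set E3} {γ : ℝ → E3} {x y : E3} (h : IsPath S γ x y) :
    idist S x y ≤ eVariationOn γ (Icc 0 1) :=
  iInf₂_le_of_le γ h le_rfl

theorem le_idist {S : Set E3} {x y : E3} {c : ENNReal}
    (h : ∀ γ, IsPath S γ x y → c ≤ eVariationOn γ (Icc 0 1)) : c ≤ idist S x y :=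
  le_iInf₂ h

/-- a curve on any interval -/
theorem idist_le_Icc {S : Set E3} {γ : ℝ → E3} {a b : ℝ} (hab : a ≤ b)
    (hc : ContinuousOn γ (Icc a b)) (hS : ∀ t ∈ Icc a b, γ t ∈ S) :
    idist S (γ a) (γ b) ≤ eVariationOn γ (Icc a b) := by
  have hm : MapsTo (fun t : ℝ => a + t * (b - a)) (Icc 0 1) (Icc a b) := by
    intro t ht
    constructor <;> nlinarith [ht.1, ht.2]
  have hp : IsPath S (γ ∘ fun t : ℝ => a + t * (b - a)) (γ a) (γ b) := by
    refine ⟨hc.comp (by fun_prop) hm, by simp, by simp, fun t ht => hS _ (hm ht)⟩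
  refine (idist_le hp).trans ?_
  refine eVariationOn.comp_le_of_monotoneOn γ _ ?_ hm
  intro s _ t _ hst
  simp only
  nlinarith

theorem idist_comm_le (S : Set E3) (x y : E3) : idist S y x ≤ idist S x y := by
  refine le_idist (fun γ hγ => ?_)
  have hm : MapsTo (fun t : ℝ => 1 - t) (Icc 0 1) (Icc 0 1) := by
    intro t ht
    constructor <;> linarith [ht.1, ht.2]
  have hp : IsPath S (γ ∘ fun t : ℝ => 1 - t) y x := by
    refine ⟨hγ.1.comp (by fun_prop) hm, by simp [hγ.2.2.1], by simp [hγ.2.1],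
      fun t ht => hγ.2.2.2 _ (hm ht)⟩
  refine (idist_le hp).trans ?_
  refine eVariationOn.comp_le_of_antitoneOn γ _ ?_ hm
  intro s _ t _ hst
  simp only
  linarith

theorem idist_comm (S : Set E3) (x y : E3) : idist S x y = idist S y x :=
  le_antisymm (idist_comm_le S y x) (idist_comm_le S x y)

theorem idist_triangle (S : Set E3) (x y z : E3) :
    idist S x z ≤ idist S x y + idist S y z := by
  unfold idist
  refine le_iInf₂_add_iInf₂ (fun γ hγ δ hδ => ?_)
  let c : ℝ → E3 := fun t => if t ≤ 1 then γ t else δ (t - 1)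
  have h1 : EqOn c γ (Icc 0 1) := fun t ht => if_pos ht.2
  have h2 : EqOn c (δ ∘ fun t => t - 1) (Icc 1 2) := by
    intro t ht
    by_cases h : t ≤ 1
    · have : t = 1 := le_antisymm h ht.1
      subst this
      simp [c, hγ.2.2.1, hδ.2.1]
    · simp [c, h]
  have hm : MapsTo (fun t : ℝ => t - 1) (Icc 1 2) (Icc 0 1) := by
    intro t ht
    constructor <;> linarith [ht.1, ht.2]
  have hu : Icc (0:ℝ) 2 = Icc 0 1 ∪ Icc 1 2 := (Icc_union_Icc_eq_Icc (by norm_num) (by norm_num)).symm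
  have hc : ContinuousOn c (Icc 0 2) := by
    rw [hu]
    exact ContinuousOn.union_of_isClosed (hγ.1.congr h1)
      ((hδ.1.comp (by fun_prop) hm).congr h2) isClosed_Icc isClosed_Icc
  have hS : ∀ t ∈ Icc (0:ℝ) 2, c t ∈ S := by
    intro t ht
    rw [hu] at ht
    rcases ht with ht | ht
    · rw [h1 ht]; exact hγ.2.2.2 t ht
    · rw [h2 ht]; exact hδ.2.2.2 _ (hm ht)
  have h3 := idist_le_Icc (by norm_num) hc hS
  have e0 : c 0 = x := by simp [c, hγ.2.1]
  have e2 : c 2 = z := by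
    have : (2:ℝ) - 1 = 1 := by norm_num
    simp [c, this, hδ.2.2.1]
  rw [e0, e2] at h3
  refine h3.trans ?_
  have h4 := eVariationOn.Icc_add_Icc c (s := univ) (a := 0) (b := 1) (c := 2) (by norm_num)
    (by norm_num) (mem_univ _)
  simp only [univ_inter] at h4
  rw [← h4, eVariationOn.congr h1, eVariationOn.congr h2]
  gcongr
  refine eVariationOn.comp_le_of_monotoneOn δ _ ?_ hm
  intro s _ t _ hst
  simp only
  linarith

theorem evar_le_of_lip {γ : ℝ → E3} {a b : ℝ} (hab : a ≤ b) (k : ℝ) (hk : 0 ≤ k)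
    (h : ∀ s ∈ Icc a b, ∀ t ∈ Icc a b, dist (γ s) (γ t) ≤ k * |s - t|) :
    eVariationOn γ (Icc a b) ≤ ENNReal.ofReal (k * (b - a)) := by
  have hl : LipschitzOnWith k.toNNReal γ (Icc a b) := by
    refine LipschitzOnWith.of_dist_le_mul (fun s hs t ht => ?_)
    rw [Real.coe_toNNReal k hk, Real.dist_eq]
    exact h s hs t ht
  have h1 := hl.comp_eVariationOn_le (g := id) (s := Icc a b) (fun t ht => ht)
  have h2 : eVariationOn (id : ℝ → ℝ) (Icc a b) ≤ ENNReal.ofReal (b - a) := by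
    have := MonotoneOn.eVariationOn_eq (f := (id : ℝ → ℝ)) (s := Icc a b)
      (fun _ _ _ _ h => h) (left_mem_Icc.2 hab) (right_mem_Icc.2 hab)
    simp
  rw [ENNReal.ofReal_mul hk]
  calc eVariationOn γ (Icc a b) = eVariationOn (γ ∘ id) (Icc a b) := rfl
    _ ≤ _ := h1
    _ ≤ _ := by gcongr; exact le_rfl

theorem idist_le_of_lip {S : Set E3} {γ : ℝ → E3} {a b : ℝ} (hab : a ≤ b) (k : ℝ) (hk : 0 ≤ k)
    (hS : ∀ t ∈ Icc a b, γ t ∈ S)
    (h : ∀ s ∈ Icc a b, ∀ t ∈ Icc a b, dist (γ s) (γ t) ≤ k * |s - t|) :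
    idist S (γ a) (γ b) ≤ ENNReal.ofReal (k * (b - a)) := by
  refine (idist_le_Icc hab ?_ hS).trans (evar_le_of_lip hab k hk h)
  have hl : LipschitzOnWith k.toNNReal γ (Icc a b) := by
    refine LipschitzOnWith.of_dist_le_mul (fun s hs t ht => ?_)
    rw [Real.coe_toNNReal k hk, Real.dist_eq]
    exact h s hs t ht
  exact hl.continuousOn

theorem idist_le_of_segment {S : Set E3} {x y : E3} (h : segment ℝ x y ⊆ S) :
    idist S x y ≤ ENNReal.ofReal (dist x y) := by
  have := idist_le_of_lip (S := S) (γ := fun t => AffineMap.lineMap x y t) (a := 0) (b := 1)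
    (by norm_num) (dist x y) dist_nonneg
    (fun t ht => h (by rw [segment_eq_image_lineMap]; exact ⟨t, ht, rfl⟩))
    (fun s _ t _ => by rw [dist_lineMap_lineMap, Real.dist_eq, mul_comm])
  simpa using this

/-- local to global Lipschitz estimate along a curve -/
theorem sub_le_evar {S : Set E3} {g : E3 → ℝ} {k : ℝ} (hk : 0 ≤ k)
    (hg : ∀ x ∈ S, ∃ δ > 0, ∀ y ∈ S, dist x y < δ → |g x - g y| ≤ k * dist x y)
    {γ : ℝ → E3} {a b : ℝ} (hab : a ≤ b) (hc : ContinuousOn γ (Icc a b))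
    (hS : ∀ t ∈ Icc a b, γ t ∈ S) (hV : eVariationOn γ (Icc a b) ≠ ⊤) :
    g (γ b) - g (γ a) ≤ k * (eVariationOn γ (Icc a b)).toReal := by
  have hfin : ∀ s t, a ≤ s → t ≤ b → eVariationOn γ (Icc s t) ≠ ⊤ := fun s t hs ht =>
    ne_top_of_le_ne_top hV (eVariationOn.mono γ (Icc_subset_Icc hs ht))
  let v : ℝ → ℝ := fun t => (eVariationOn γ (Icc a t)).toReal
  have hv : ∀ s t, a ≤ s → s ≤ t → t ≤ b → v s + dist (γ s) (γ t) ≤ v t := by
    intro s t hs hst ht
    have h4 := eVariationOn.Icc_add_Icc γ (s := univ) hs hst (mem_univ _)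
    simp only [univ_inter] at h4
    have h5 : edist (γ s) (γ t) ≤ eVariationOn γ (Icc s t) :=
      eVariationOn.edist_le γ (left_mem_Icc.2 hst) (right_mem_Icc.2 hst)
    have h6 := ENNReal.toReal_mono (hfin s t hs ht) h5
    rw [← dist_edist] at h6
    simp only [v]
    rw [← h4, ENNReal.toReal_add (hfin a s le_rfl (hst.trans ht)) (hfin s t hs ht)]
    linarith
  have hloc : ∀ c ∈ Icc a b, ∃ η > 0, ∀ t ∈ Icc a b, |t - c| < η →
      |g (γ c) - g (γ t)| ≤ k * dist (γ c) (γ t) := by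
    intro c hcm
    obtain ⟨δ, hδ, h⟩ := hg (γ c) (hS c hcm)
    obtain ⟨η, hη, h2⟩ := Metric.continuousWithinAt_iff.1 (hc c hcm) δ hδ
    refine ⟨η, hη, fun t ht htc => h _ (hS t ht) ?_⟩
    rw [dist_comm]
    exact h2 ht (by rwa [Real.dist_eq])
  let A : Set ℝ := {t | t ∈ Icc a b ∧ g (γ t) - g (γ a) ≤ k * v t}
  have haA : a ∈ A := ⟨left_mem_Icc.2 hab, by simp only [sub_self]; positivity⟩
  have hbdd : BddAbove A := ⟨b, fun t ht => ht.1.2⟩
  set c := sSup A with hcdef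
  have hac : a ≤ c := le_csSup hbdd haA
  have hcb : c ≤ b := csSup_le ⟨a, haA⟩ (fun t ht => ht.1.2)
  obtain ⟨η, hη, hl⟩ := hloc c ⟨hac, hcb⟩
  have hcA : c ∈ A := by
    obtain ⟨t, htA, ht⟩ := exists_lt_of_lt_csSup ⟨a, haA⟩ (show c - η < sSup A by linarith)
    have htc : t ≤ c := le_csSup hbdd htA
    refine ⟨⟨hac, hcb⟩, ?_⟩
    have h1 := hl t htA.1 (by rw [abs_lt]; constructor <;> linarith)
    have h2 := hv t c htA.1.1 htc hcb
    have h3 := htA.2
    have h4 := le_abs_self (g (γ c) - g (γ t))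
    rw [dist_comm] at h2
    nlinarith
  rcases eq_or_lt_of_le hcb with h | h
  · have := hcA.2
    rw [h] at this
    exact this
  · exfalso
    let t := min b (c + η / 2)
    have hct : c < t := lt_min h (by linarith)
    have htb : t ≤ b := min_le_left _ _
    have ht2 : t ≤ c + η / 2 := min_le_right _ _
    have htA : t ∈ A := by
      refine ⟨⟨by linarith, htb⟩, ?_⟩
      have h1 := hl t ⟨by linarith, htb⟩ (by rw [abs_lt]; constructor <;> linarith)
      have h2 := hv c t hac hct.le htb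
      have h3 := hcA.2
      have h4 := neg_abs_le (g (γ c) - g (γ t))
      nlinarith
    have := le_csSup hbdd htA
    linarith

theorem ofReal_sub_le_evar {S : Set E3} {g : E3 → ℝ}
    (hg : ∀ k > (1:ℝ), ∀ x ∈ S, ∃ δ > 0, ∀ y ∈ S, dist x y < δ → |g x - g y| ≤ k * dist x y)
    {γ : ℝ → E3} {a b : ℝ} (hab : a ≤ b) (hc : ContinuousOn γ (Icc a b))
    (hS : ∀ t ∈ Icc a b, γ t ∈ S) :
    ENNReal.ofReal (g (γ b) - g (γ a)) ≤ eVariationOn γ (Icc a b) := by
  by_cases hV : eVariationOn γ (Icc a b) = ⊤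
  · rw [hV]; exact le_top
  · refine ENNReal.ofReal_le_of_le_toReal ?_
    set V := (eVariationOn γ (Icc a b)).toReal
    have hV0 : 0 ≤ V := ENNReal.toReal_nonneg
    refine le_of_forall_pos_le_add (fun ε hε => ?_)
    have hk : (1:ℝ) < 1 + ε / (V + 1) := by
      have : 0 < ε / (V + 1) := by positivity
      linarith
    have := sub_le_evar (by linarith) (hg _ hk) hab hc hS hV
    have h2 : ε / (V + 1) * V ≤ ε := by
      rw [div_mul_eq_mul_div, div_le_iff₀ (by positivity)]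
      nlinarith
    nlinarith

theorem angle_le_chord {k : ℝ} (hk : 1 < k) : ∃ δ > 0, ∀ a b : E3, ‖a‖ = 1 → ‖b‖ = 1 →
    dist a b < δ → InnerProductGeometry.angle a b ≤ k * dist a b := by
  refine ⟨min 1 (1 - 1 / k), lt_min one_pos (by
    have : 1 / k < 1 := by rw [div_lt_one (by linarith)]; exact hk
    linarith), fun a b ha hb hd => ?_⟩
  set θ := InnerProductGeometry.angle a b with hθ
  have h0 : 0 ≤ θ := InnerProductGeometry.angle_nonneg a b
  have hπ : θ ≤ Real.pi := InnerProductGeometry.angle_le_pi a b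
  have hcos : Real.cos θ = inner ℝ a b := by
    rw [hθ, InnerProductGeometry.cos_angle, ha, hb]; simp
  have hs0 : 0 ≤ Real.sin (θ / 2) := Real.sin_nonneg_of_nonneg_of_le_pi (by linarith) (by
    linarith [Real.pi_pos])
  have hd2 : dist a b = 2 * Real.sin (θ / 2) := by
    have e1 : dist a b ^ 2 = (2 * Real.sin (θ / 2)) ^ 2 := by
      rw [dist_eq_norm, norm_sub_sq_real, ha, hb, ← hcos]
      have := Real.sin_sq_eq_half_sub (θ / 2)
      rw [show 2 * (θ / 2) = θ by ring] at this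
      nlinarith
    exact (pow_left_inj₀ dist_nonneg (by positivity) two_ne_zero).1 e1
  have hd1 : dist a b < 1 := lt_of_lt_of_le hd (min_le_left _ _)
  have hd3 : dist a b < 1 - 1 / k := lt_of_lt_of_le hd (min_le_right _ _)
  have hj : 2 / Real.pi * (θ / 2) ≤ Real.sin (θ / 2) := Real.mul_le_sin (by linarith) (by linarith)
  have hθ2 : θ ≤ 2 * dist a b := by
    have h4 : Real.pi ≤ 4 := Real.pi_le_four
    have h5 : θ / Real.pi ≤ Real.sin (θ / 2) := by
      have : 2 / Real.pi * (θ / 2) = θ / Real.pi := by field_simp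
      linarith
    rw [div_le_iff₀ Real.pi_pos] at h5
    nlinarith
  rcases eq_or_lt_of_le h0 with h | h
  · rw [← h]; have := dist_nonneg (x := a) (y := b); positivity
  · have hc := Real.sin_gt_sub_cube (x := θ / 2) (by linarith)
    have hk0 : 0 < k := by linarith
    have h6 : θ * (1 / k) ≤ dist a b := by
      have h7 : θ ^ 2 / 16 ≤ 1 - 1 / k := by nlinarith [dist_nonneg (x := a) (y := b)]
      nlinarith
    have h8 : θ = k * (θ * (1 / k)) := by field_simp
    rw [h8]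
    exact mul_le_mul_of_nonneg_left h6 hk0.le

/-- comparison with a round sphere of radius `R` along a curve -/
theorem angle_le_evar {S : Set E3} {Φ : E3 → E3} {R : ℝ} (hR : 0 < R)
    (hΦ : ∀ x ∈ S, ‖Φ x‖ = 1)
    (hloc : ∀ x ∈ S, ∃ δ > 0, ∀ y ∈ S, dist x y < δ → R * dist (Φ x) (Φ y) ≤ dist x y)
    {γ : ℝ → E3} {a b : ℝ} (hab : a ≤ b) (hc : ContinuousOn γ (Icc a b))
    (hS : ∀ t ∈ Icc a b, γ t ∈ S) :
    ENNReal.ofReal (R * InnerProductGeometry.angle (Φ (γ a)) (Φ (γ b))) ≤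
      eVariationOn γ (Icc a b) := by
  have hp := hΦ _ (hS a (left_mem_Icc.2 hab))
  have := ofReal_sub_le_evar (S := S) (g := fun x => R * InnerProductGeometry.angle (Φ (γ a)) (Φ x))
    (fun k hk x hx => by
      obtain ⟨δ, hδ, h1⟩ := hloc x hx
      obtain ⟨η, hη, h2⟩ := angle_le_chord hk
      refine ⟨min δ (R * η), lt_min hδ (by positivity), fun y hy hxy => ?_⟩
      have h3 := h1 y hy (lt_of_lt_of_le hxy (min_le_left _ _))
      have h4 : dist (Φ x) (Φ y) < η := by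
        have := lt_of_lt_of_le hxy (min_le_right _ _)
        by_contra hn
        push Not at hn
        nlinarith
      have h5 := h2 _ _ (hΦ x hx) (hΦ y hy) h4
      have t1 := InnerProductGeometry.angle_le_angle_add_angle (Φ (γ a)) (Φ x) (Φ y)
      have t2 := InnerProductGeometry.angle_le_angle_add_angle (Φ (γ a)) (Φ y) (Φ x)
      rw [InnerProductGeometry.angle_comm (Φ y) (Φ x)] at t2
      rw [abs_le]
      constructor <;> nlinarith) hab hc hS
  have h0 : InnerProductGeometry.angle (Φ (γ a)) (Φ (γ a)) = 0 :=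
    InnerProductGeometry.angle_self (by intro h; rw [h] at hp; simp at hp)
  simpa [h0] using this

theorem loc_of_cover {S : Set E3} {P : E3 → E3 → Prop} (𝒜 : List (Set E3))
    (hcl : ∀ A ∈ 𝒜, IsClosed A) (hcov : ∀ x ∈ S, ∃ A ∈ 𝒜, x ∈ A)
    (h : ∀ A ∈ 𝒜, ∀ x ∈ S, ∀ y ∈ S, x ∈ A → y ∈ A → P x y) :
    ∀ x ∈ S, ∃ δ > 0, ∀ y ∈ S, dist x y < δ → P x y := by
  intro x hx
  have h1 : ∀ A ∈ 𝒜, ∀ᶠ y in nhds x, y ∈ A → x ∈ A := by
    intro A hA
    by_cases hxA : x ∈ A
    · exact Filter.Eventually.of_forall (fun _ _ => hxA)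
    · filter_upwards [(hcl A hA).isOpen_compl.mem_nhds hxA] with y hy hyA
      exact absurd hyA hy
  have h2 : ∀ᶠ y in nhds x, ∀ A ∈ 𝒜, y ∈ A → x ∈ A :=
    (Filter.eventually_all_finite (List.finite_toSet 𝒜)).2 h1
  obtain ⟨δ, hδ, h3⟩ := Metric.eventually_nhds_iff.1 h2
  refine ⟨δ, hδ, fun y hy hxy => ?_⟩
  obtain ⟨A, hA, hyA⟩ := hcov y hy
  exact h A hA x hx y hy (h3 (by rwa [dist_comm]) A hA hyA) hyA

end Pool.Agent.H436Z.Stein
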