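import Pool.Agent.H436Z.SteinA

set_option autoImplicit false
open Set ENNReal

namespace Pool.Agent.H436Z.Stein

def Circ (u : ℝ × ℝ) : Prop := u.1 ^ 2 + u.2 ^ 2 = 1

/-- squared chord -/
def ch2 (u v : ℝ × ℝ) : ℝ := (u.1 - v.1) ^ 2 + (u.2 - v.2) ^ 2

theorem Circ.neg {u : ℝ × ℝ} (h : Circ u) : Circ (-u) := by
  unfold Circ at *; simpa using h

theorem ch2_lt {u v : ℝ × ℝ} (hu : Circ u) (hv : Circ v) (h : v ≠ -u) : ch2 u v < 4 := by
  unfold Circ ch2 at *
  by_contra hn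
  push Not at hn
  apply h
  have h1 : (u.1 + v.1) ^ 2 + (u.2 + v.2) ^ 2 ≤ 0 := by nlinarith
  have h2 : u.1 + v.1 = 0 := by nlinarith [sq_nonneg (u.1 + v.1), sq_nonneg (u.2 + v.2)]
  have h3 : u.2 + v.2 = 0 := by nlinarith [sq_nonneg (u.1 + v.1), sq_nonneg (u.2 + v.2)]
  ext
  · simp; linarith
  · simp; linarith

/-- A surface swept by meridians from a north pole to a south pole. -/
structure Merid (S : Set E3) (M : ℝ × ℝ → ℝ → E3) (L : ℝ) : Prop where
  pos : 0 < L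
  mem : ∀ u r, Circ u → r ∈ Icc 0 L → M u r ∈ S
  surj : ∀ x ∈ S, ∃ u r, Circ u ∧ r ∈ Icc 0 L ∧ M u r = x
  lip : ∀ u r s, Circ u → 0 ≤ r → r ≤ s → s ≤ L → idist S (M u r) (M u s) ≤ ENNReal.ofReal (s - r)
  north : ∀ u v, Circ u → Circ v → M u 0 = M v 0
  south : ∀ u v, Circ u → Circ v → M u L = M v L
  flat : ∃ δ > 0, ∀ u v r, Circ u → Circ v → 0 ≤ r → r ≤ δ →
    idist S (M u r) (M v r) ≤ ENNReal.ofReal (r * Real.sqrt (ch2 u v))

variable {S : Set E3} {M : ℝ × ℝ → ℝ → E3} {L : ℝ}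

theorem Merid.via_north (h : Merid S M L) {u v : ℝ × ℝ} {r s : ℝ} (hu : Circ u) (hv : Circ v)
    (hr : r ∈ Icc 0 L) (hs : s ∈ Icc 0 L) : idist S (M u r) (M v s) ≤ ENNReal.ofReal (r + s) := by
  refine (idist_triangle S _ (M u 0) _).trans ?_
  rw [ENNReal.ofReal_add hr.1 hs.1, idist_comm S (M u r)]
  gcongr
  · simpa using h.lip u 0 r hu le_rfl hr.1 hr.2
  · rw [h.north u v hu hv]
    simpa using h.lip v 0 s hv le_rfl hs.1 hs.2

theorem Merid.via_south (h : Merid S M L) {u v : ℝ × ℝ} {r s : ℝ} (hu : Circ u) (hv : Circ v)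
    (hr : r ∈ Icc 0 L) (hs : s ∈ Icc 0 L) :
    idist S (M u r) (M v s) ≤ ENNReal.ofReal ((L - r) + (L - s)) := by
  refine (idist_triangle S _ (M u L) _).trans ?_
  rw [ENNReal.ofReal_add (by linarith [hr.2]) (by linarith [hs.2])]
  gcongr
  · exact h.lip u r L hu hr.1 hr.2 le_rfl
  · rw [h.south u v hu hv, idist_comm]
    exact h.lip v s L hv hs.1 hs.2 le_rfl

theorem Merid.corner (h : Merid S M L) {u v : ℝ × ℝ} {r s : ℝ} (hu : Circ u) (hv : Circ v)
    (hr : r ∈ Icc 0 L) (hs : s ∈ Icc 0 L) (hr0 : 0 < r) (hs0 : 0 < s) (hne : v ≠ -u) :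
    idist S (M u r) (M v s) < ENNReal.ofReal (r + s) := by
  obtain ⟨δ, hδ, hf⟩ := h.flat
  set t := min δ (min r s) with ht
  have ht0 : 0 < t := lt_min hδ (lt_min hr0 hs0)
  have htδ : t ≤ δ := min_le_left _ _
  have htr : t ≤ r := (min_le_right _ _).trans (min_le_left _ _)
  have hts : t ≤ s := (min_le_right _ _).trans (min_le_right _ _)
  have hq : Real.sqrt (ch2 u v) < 2 := by
    rw [Real.sqrt_lt' (by norm_num)]
    have := ch2_lt hu hv hne
    linarith
  have hq0 := Real.sqrt_nonneg (ch2 u v)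
  have h1 : idist S (M u r) (M v s) ≤
      ENNReal.ofReal ((r - t) + (t * Real.sqrt (ch2 u v) + (s - t))) := by
    refine (idist_triangle S _ (M u t) _).trans ?_
    rw [ENNReal.ofReal_add (by linarith) (by positivity)]
    gcongr
    · rw [idist_comm]; exact h.lip u t r hu ht0.le htr hr.2
    · refine (idist_triangle S _ (M v t) _).trans ?_
      rw [ENNReal.ofReal_add (by positivity) (by linarith)]
      gcongr
      · exact hf u v t hu hv ht0.le htδ
      · exact h.lip v t s hv ht0.le hts hs.2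
  refine lt_of_le_of_lt h1 ?_
  rw [ENNReal.ofReal_lt_ofReal_iff (by linarith)]
  nlinarith

theorem Merid.steinhaus (h : Merid S M L)
    (hlow : ∀ u r, Circ u → r ∈ Icc 0 L → ENNReal.ofReal L ≤ idist S (M u r) (M (-u) (L - r))) :
    IsSteinhaus S := by
  classical
  have hup : ∀ u r v s, Circ u → r ∈ Icc 0 L → Circ v → s ∈ Icc 0 L →
      M v s ≠ M (-u) (L - r) → idist S (M u r) (M v s) < ENNReal.ofReal L := by
    intro u r v s hu hr hv hs hne
    rcases lt_trichotomy (r + s) L with h1 | h1 | h1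
    · exact lt_of_le_of_lt (h.via_north hu hv hr hs) ((ENNReal.ofReal_lt_ofReal_iff h.pos).2 h1)
    · have hs' : s = L - r := by linarith
      subst hs'
      rw [show ENNReal.ofReal L = ENNReal.ofReal (r + (L - r)) by congr 1; ring]
      refine h.corner hu hv hr hs ?_ ?_ ?_
      · rcases eq_or_lt_of_le hr.1 with h2 | h2
        · exfalso; apply hne; rw [← h2, sub_zero]; exact h.south _ _ hv hu.neg
        · exact h2
      · rcases eq_or_lt_of_le hs.1 with h2 | h2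
        · exfalso; apply hne; rw [← h2]; exact h.north _ _ hv hu.neg
        · exact h2
      · rintro rfl; exact hne rfl
    · exact lt_of_le_of_lt (h.via_south hu hv hr hs)
        ((ENNReal.ofReal_lt_ofReal_iff h.pos).2 (by linarith))
  have hant : ∀ u r, Circ u → r ∈ Icc 0 L → antipodes S (M u r) = {M (-u) (L - r)} := by
    intro u r hu hr
    have hr' : L - r ∈ Icc 0 L := ⟨by linarith [hr.2], by linarith [hr.1]⟩
    ext q
    simp only [antipodes, mem_ofPred_eq, mem_singleton_iff]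
    constructor
    · rintro ⟨hq, hmax⟩
      by_contra hne
      obtain ⟨v, s, hv, hs, rfl⟩ := h.surj q hq
      have h1 := hup u r v s hu hr hv hs hne
      have h2 := (hlow u r hu hr).trans (hmax _ (h.mem _ _ hu.neg hr'))
      exact absurd h1 (not_lt.2 h2)
    · rintro rfl
      refine ⟨h.mem _ _ hu.neg hr', fun x hx => ?_⟩
      by_cases hne : x = M (-u) (L - r)
      · rw [hne]
      · obtain ⟨v, s, hv, hs, rfl⟩ := h.surj x hx
        exact (hup u r v s hu hr hv hs hne).le.trans (hlow u r hu hr)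
  have hex : ∀ p : E3, ∃ q : E3, ∀ q', antipodes S p = {q'} → q = q' := by
    intro p
    by_cases hp : ∃ q', antipodes S p = {q'}
    · obtain ⟨q, hq⟩ := hp
      exact ⟨q, fun q' hq' => singleton_injective (hq.symm.trans hq')⟩
    · exact ⟨p, fun q' hq' => absurd ⟨q', hq'⟩ hp⟩
  choose F hF using hex
  refine ⟨F, fun p hp => ?_⟩
  obtain ⟨u, r, hu, hr, rfl⟩ := h.surj p hp
  have hr' : L - r ∈ Icc 0 L := ⟨by linarith [hr.2], by linarith [hr.1]⟩
  rw [hF _ _ (hant u r hu hr), hF _ _ (hant (-u) (L - r) hu.neg hr'), hant u r hu hr]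
  simp

/-- polar coordinates on the unit sphere -/
noncomputable def Psi (R : ℝ) (u : ℝ × ℝ) (r : ℝ) : E3 :=
  !₂[Real.sin (r / R) * u.1, Real.sin (r / R) * u.2, Real.cos (r / R)]

theorem dist_sq3 (x y : E3) :
    dist x y ^ 2 = (x 0 - y 0) ^ 2 + (x 1 - y 1) ^ 2 + (x 2 - y 2) ^ 2 := by
  rw [EuclideanSpace.dist_eq, Real.sq_sqrt (by positivity), Fin.sum_univ_three]
  simp [Real.dist_eq, sq_abs]

theorem norm_sq3 (x : E3) : ‖x‖ ^ 2 = x 0 ^ 2 + x 1 ^ 2 + x 2 ^ 2 := by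
  have := dist_sq3 x 0
  simpa using this

theorem norm_Psi (R : ℝ) {u : ℝ × ℝ} (hu : Circ u) (r : ℝ) : ‖Psi R u r‖ = 1 := by
  have h : ‖Psi R u r‖ ^ 2 = 1 ^ 2 := by
    rw [norm_sq3]
    simp only [Psi, PiLp.toLp_apply, Matrix.cons_val_zero, Matrix.cons_val_one, Matrix.cons_val]
    unfold Circ at hu
    linear_combination Real.sin (r / R) ^ 2 * hu + Real.sin_sq_add_cos_sq (r / R)
  exact (pow_left_inj₀ (norm_nonneg _) zero_le_one two_ne_zero).1 h

theorem dist_Psi_sq {R : ℝ} (hR : 0 < R) {u v : ℝ × ℝ} (hu : Circ u) (hv : Circ v) (r s : ℝ) :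
    (R * dist (Psi R u r) (Psi R v s)) ^ 2 ≤
      (r - s) ^ 2 + (R * Real.sin (r / R)) * (R * Real.sin (s / R)) * ch2 u v := by
  rw [mul_pow, dist_sq3]
  simp only [Psi, PiLp.toLp_apply, Matrix.cons_val_zero, Matrix.cons_val_one, Matrix.cons_val]
  have h1 := Real.one_sub_sq_div_two_le_cos (x := r / R - s / R)
  rw [Real.cos_sub] at h1
  have h2 : (r - s) ^ 2 = R ^ 2 * (r / R - s / R) ^ 2 := by field_simp
  have e : (Real.sin (r / R) * u.1 - Real.sin (s / R) * v.1) ^ 2 +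
      (Real.sin (r / R) * u.2 - Real.sin (s / R) * v.2) ^ 2 +
      (Real.cos (r / R) - Real.cos (s / R)) ^ 2 =
      2 - 2 * (Real.cos (r / R) * Real.cos (s / R) + Real.sin (r / R) * Real.sin (s / R)) +
        Real.sin (r / R) * Real.sin (s / R) * ch2 u v := by
    unfold Circ at hu hv
    unfold ch2
    linear_combination (Real.sin (r / R) ^ 2 - Real.sin (r / R) * Real.sin (s / R)) * hu +
      (Real.sin (s / R) ^ 2 - Real.sin (r / R) * Real.sin (s / R)) * hv +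
      Real.sin_sq_add_cos_sq (r / R) + Real.sin_sq_add_cos_sq (s / R)
  rw [e, h2]
  have h3 : 0 < R ^ 2 := by positivity
  nlinarith

theorem Psi_neg {R : ℝ} (hR : 0 < R) (u : ℝ × ℝ) (r : ℝ) :
    Psi R (-u) (Real.pi * R - r) = -Psi R u r := by
  have e : (Real.pi * R - r) / R = Real.pi - r / R := by field_simp
  ext i
  fin_cases i <;> simp [Psi, e]

/-- the rotation about the unit vector `a` with cosine `c` and sine `s` -/
def rotMat (a : E3) (c s : ℝ) : Matrix (Fin 3) (Fin 3) ℝ :=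
  !![c + (1 - c) * a 0 * a 0, -s * a 2 + (1 - c) * a 0 * a 1, s * a 1 + (1 - c) * a 0 * a 2;
     s * a 2 + (1 - c) * a 1 * a 0, c + (1 - c) * a 1 * a 1, -s * a 0 + (1 - c) * a 1 * a 2;
     -s * a 1 + (1 - c) * a 2 * a 0, s * a 0 + (1 - c) * a 2 * a 1, c + (1 - c) * a 2 * a 2]

theorem rot_orth (a : E3) (ha : a 0 ^ 2 + a 1 ^ 2 + a 2 ^ 2 = 1) (c s : ℝ)
    (hcs : c ^ 2 + s ^ 2 = 1) : (rotMat a c s).transpose * rotMat a c s = 1 := by
  ext i j
  fin_cases i <;> fin_cases j <;>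
    simp [rotMat, Matrix.mul_apply, Fin.sum_univ_three]
  · linear_combination (s ^ 2 + (1 - c) ^ 2 * a 0 * a 0) * ha + (1 - a 0 * a 0) * hcs
  · linear_combination ((1 - c) ^ 2 * a 0 * a 1) * ha + (- a 0 * a 1) * hcs
  · linear_combination ((1 - c) ^ 2 * a 0 * a 2) * ha + (- a 0 * a 2) * hcs
  · linear_combination ((1 - c) ^ 2 * a 0 * a 1) * ha + (- a 0 * a 1) * hcs
  · linear_combination (s ^ 2 + (1 - c) ^ 2 * a 1 * a 1) * ha + (1 - a 1 * a 1) * hcs
  · linear_combination ((1 - c) ^ 2 * a 1 * a 2) * ha + (- a 1 * a 2) * hcs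
  · linear_combination ((1 - c) ^ 2 * a 0 * a 2) * ha + (- a 0 * a 2) * hcs
  · linear_combination ((1 - c) ^ 2 * a 1 * a 2) * ha + (- a 1 * a 2) * hcs
  · linear_combination (s ^ 2 + (1 - c) ^ 2 * a 2 * a 2) * ha + (1 - a 2 * a 2) * hcs

theorem rot_det (a : E3) (ha : a 0 ^ 2 + a 1 ^ 2 + a 2 ^ 2 = 1) (c s : ℝ)
    (hcs : c ^ 2 + s ^ 2 = 1) : (rotMat a c s).det = 1 := by
  rw [Matrix.det_fin_three]
  simp only [rotMat, Matrix.of_apply, Matrix.cons_val', Matrix.cons_val_zero,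
    Matrix.cons_val_one, Matrix.cons_val, Matrix.cons_val_fin_one]
  linear_combination (s ^ 2 + (1 - c) * (c ^ 2 + s ^ 2 * (a 0 ^ 2 + a 1 ^ 2 + a 2 ^ 2))) * ha + hcs

theorem rot_fix (a : E3) (ha : a 0 ^ 2 + a 1 ^ 2 + a 2 ^ 2 = 1) (c s τ : ℝ) :
    (rotMat a c s).mulVec (τ • a).ofLp = (τ • a).ofLp := by
  ext i
  fin_cases i <;>
    simp [rotMat, Matrix.mulVec, dotProduct, Fin.sum_univ_three]
  · linear_combination (τ * (1 - c) * a 0) * ha
  · linear_combination (τ * (1 - c) * a 1) * ha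
  · linear_combination (τ * (1 - c) * a 2) * ha

/-- In a surface of revolution there are a point `p` and a unit vector `a` such that at every
maximum point `x` of a linear functional `n` the vectors `n`, `a`, `x - p` are coplanar. -/
theorem rev_coplanar {S : Set E3} (h : IsSurfaceOfRevolution S) : ∃ a p : E3,
    a 0 ^ 2 + a 1 ^ 2 + a 2 ^ 2 = 1 ∧ ∀ (n0 n1 n2 : ℝ), ∀ x ∈ S,
      (∀ y ∈ S, n0 * y 0 + n1 * y 1 + n2 * y 2 ≤ n0 * x 0 + n1 * x 1 + n2 * x 2) →
      n0 * (a 1 * (x 2 - p 2) - a 2 * (x 1 - p 1)) + n1 * (a 2 * (x 0 - p 0) - a 0 * (x 2 - p 2)) +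
        n2 * (a 0 * (x 1 - p 1) - a 1 * (x 0 - p 0)) = 0 := by
  obtain ⟨p, b, hb1, hinv⟩ := h
  have hbn : 0 < ‖(b : E3)‖ := norm_pos_iff.2 hb1
  let a : E3 := ‖(b : E3)‖⁻¹ • (b : E3)
  have hba : b = ‖b‖ • a := by
    simp only [a]
    rw [smul_smul, mul_inv_cancel₀ hbn.ne', one_smul]
  have ha : a 0 ^ 2 + a 1 ^ 2 + a 2 ^ 2 = 1 := by
    rw [← norm_sq3, norm_smul, norm_inv, norm_norm, inv_mul_cancel₀ hbn.ne']; norm_num
  refine ⟨a, p, ha, fun n0 n1 n2 x hx hmax => ?_⟩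
  set B := n0 * (a 1 * (x 2 - p 2) - a 2 * (x 1 - p 1)) +
    n1 * (a 2 * (x 0 - p 0) - a 0 * (x 2 - p 2)) + n2 * (a 0 * (x 1 - p 1) - a 1 * (x 0 - p 0))
  set A := n0 * (x 0 - p 0) + n1 * (x 1 - p 1) + n2 * (x 2 - p 2) -
    (n0 * a 0 + n1 * a 1 + n2 * a 2) * (a 0 * (x 0 - p 0) + a 1 * (x 1 - p 1) + a 2 * (x 2 - p 2))
  have key : ∀ c s : ℝ, c ^ 2 + s ^ 2 = 1 → s * B ≤ (1 - c) * A := by
    intro c s hcs
    have hf : ∀ i, rotate (rotMat a c s) p x i = p i + (rotMat a c s).mulVec (x - p).ofLp i :=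
      fun i => rfl
    have hfx : rotate (rotMat a c s) p x ∈ S := by
      rw [← hinv _ (rot_orth a ha c s hcs) (rot_det a ha c s hcs)
        (by rw [hba]; exact rot_fix a ha c s _)]
      exact mem_image_of_mem _ hx
    have := hmax _ hfx
    rw [hf, hf, hf] at this
    simp only [rotMat, Matrix.mulVec, dotProduct, Fin.sum_univ_three, Matrix.of_apply,
        Matrix.cons_val', Matrix.cons_val_zero, Matrix.cons_val_one, Matrix.cons_val,
        Matrix.cons_val_fin_one, PiLp.sub_apply] at this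
    simp only [A, B]
    linarith
  have k2 : ∀ τ : ℝ, τ * B ≤ τ ^ 2 * A := by
    intro τ
    have h1 : 0 < 1 + τ ^ 2 := by positivity
    have := key ((1 - τ ^ 2) / (1 + τ ^ 2)) (2 * τ / (1 + τ ^ 2)) (by field_simp; ring)
    have e1 : 2 * τ / (1 + τ ^ 2) * B = (2 / (1 + τ ^ 2)) * (τ * B) := by ring
    have e2 : (1 - (1 - τ ^ 2) / (1 + τ ^ 2)) * A = (2 / (1 + τ ^ 2)) * (τ ^ 2 * A) := by
      field_simp; ring
    rw [e1, e2] at this
    exact le_of_mul_le_mul_left this (by positivity)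
  by_contra hB
  have h1 := k2 (B / (|A| + 1))
  have h2 : 0 < |A| + 1 := by positivity
  have h3 : 0 < B ^ 2 := by positivity
  have e1 : B / (|A| + 1) * B = (B ^ 2 / (|A| + 1) ^ 2) * (|A| + 1) := by field_simp
  have e2 : (B / (|A| + 1)) ^ 2 * A = (B ^ 2 / (|A| + 1) ^ 2) * A := by field_simp
  rw [e1, e2] at h1
  have := le_of_mul_le_mul_left h1 (by positivity)
  linarith [le_abs_self A]

end Pool.Agent.H436Z.Stein
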