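import Pool.Agent.H436Z.SteinB

set_option autoImplicit false
open Set ENNReal

namespace Pool.Agent.H436Z.Stein

/-- the circular cylinder cut by two tilted planes -/
def KK : Set E3 :=
  {x | x 0 ^ 2 + x 1 ^ 2 ≤ 1 ∧ x 2 ≤ 7 / 30 + 11 / 60 * x 0 ∧ -x 2 ≤ 7 / 30 + 11 / 60 * x 0}

def SS : Set E3 :=
  {x | x ∈ KK ∧
    (x 0 ^ 2 + x 1 ^ 2 = 1 ∨ x 2 = 7 / 30 + 11 / 60 * x 0 ∨ -x 2 = 7 / 30 + 11 / 60 * x 0)}

theorem KK_closed : IsClosed KK := by
  have h1 : IsClosed {x : E3 | x 0 ^ 2 + x 1 ^ 2 ≤ 1} := isClosed_le (by fun_prop) (by fun_prop)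
  have h2 : IsClosed {x : E3 | x 2 ≤ 7 / 30 + 11 / 60 * x 0} :=
    isClosed_le (by fun_prop) (by fun_prop)
  have h3 : IsClosed {x : E3 | -x 2 ≤ 7 / 30 + 11 / 60 * x 0} :=
    isClosed_le (by fun_prop) (by fun_prop)
  exact h1.inter (h2.inter h3)

theorem KK_convex : Convex ℝ KK := by
  intro x hx y hy a b ha hb hab
  obtain ⟨h1, h2, h3⟩ := hx
  obtain ⟨k1, k2, k3⟩ := hy
  have hb' : b = 1 - a := by linarith
  subst hb'
  refine ⟨?_, ?_, ?_⟩ <;> simp only [PiLp.add_apply, PiLp.smul_apply, smul_eq_mul]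
  · nlinarith [mul_nonneg ha hb, sq_nonneg (x 0 - y 0), sq_nonneg (x 1 - y 1)]
  · nlinarith
  · nlinarith

theorem KK_compact : IsCompact KK := by
  refine Metric.isCompact_of_isClosed_isBounded KK_closed ?_
  refine (Metric.isBounded_closedBall (x := (0 : E3)) (r := 2)).subset ?_
  rintro x ⟨h1, h2, h3⟩
  rw [mem_closedBall_zero_iff]
  have h4 : x 0 ≤ 1 := by nlinarith [sq_nonneg (x 1)]
  have : ‖x‖ ^ 2 ≤ 2 ^ 2 := by
    rw [norm_sq3]
    nlinarith
  exact (pow_le_pow_iff_left₀ (norm_nonneg _) (by norm_num) two_ne_zero).1 this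

def KO : Set E3 :=
  {x | x 0 ^ 2 + x 1 ^ 2 < 1 ∧ x 2 < 7 / 30 + 11 / 60 * x 0 ∧ -x 2 < 7 / 30 + 11 / 60 * x 0}

theorem KO_open : IsOpen KO := by
  have h1 : IsOpen {x : E3 | x 0 ^ 2 + x 1 ^ 2 < 1} := isOpen_lt (by fun_prop) (by fun_prop)
  have h2 : IsOpen {x : E3 | x 2 < 7 / 30 + 11 / 60 * x 0} :=
    isOpen_lt (by fun_prop) (by fun_prop)
  have h3 : IsOpen {x : E3 | -x 2 < 7 / 30 + 11 / 60 * x 0} :=
    isOpen_lt (by fun_prop) (by fun_prop)
  exact h1.inter (h2.inter h3)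

theorem interior_KK : interior KK = KO := by
  apply Subset.antisymm
  · intro x hx
    obtain ⟨ε, hε, hb⟩ := Metric.mem_nhds_iff.1 (mem_interior_iff_mem_nhds.1 hx)
    have hxK : x ∈ KK := interior_subset hx
    have hmove : ∀ v : E3, ‖v‖ ^ 2 ≤ 1 → x + (ε / 2) • v ∈ KK := by
      intro v hv
      apply hb
      have hv' : ‖v‖ ≤ 1 := by nlinarith [norm_nonneg v]
      rw [Metric.mem_ball, dist_eq_norm, add_sub_cancel_left, norm_smul, Real.norm_eq_abs,
        abs_of_pos (by linarith)]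
      nlinarith [norm_nonneg v]
    refine ⟨?_, ?_, ?_⟩
    · rcases eq_or_lt_of_le hxK.1 with h | h
      · exfalso
        have := (hmove !₂[x 0, x 1, 0] (by rw [norm_sq3]; simp; linarith)).1
        simp at this
        have e : (x 0 + ε / 2 * x 0) ^ 2 + (x 1 + ε / 2 * x 1) ^ 2 = (1 + ε / 2) ^ 2 := by
          linear_combination (1 + ε / 2) ^ 2 * h
        nlinarith
      · exact h
    · have := (hmove !₂[0, 0, 1] (by rw [norm_sq3]; simp)).2.1
      simp at this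
      linarith
    · have := (hmove !₂[0, 0, -1] (by rw [norm_sq3]; simp)).2.2
      simp at this
      linarith
  · exact interior_maximal (fun x hx => ⟨hx.1.le, hx.2.1.le, hx.2.2.le⟩) KO_open

theorem frontier_KK : frontier KK = SS := by
  rw [KK_closed.frontier_eq, interior_KK]
  ext x
  constructor
  · rintro ⟨hx, hn⟩
    refine ⟨hx, ?_⟩
    by_contra hc
    push Not at hc
    exact hn ⟨lt_of_le_of_ne hx.1 hc.1, lt_of_le_of_ne hx.2.1 hc.2.1, lt_of_le_of_ne hx.2.2 hc.2.2⟩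
  · rintro ⟨hx, h⟩
    refine ⟨hx, fun ho => ?_⟩
    rcases h with h | h | h
    · exact ho.1.ne h
    · exact ho.2.1.ne h
    · exact ho.2.2.ne h

noncomputable def rho (u : ℝ × ℝ) : ℝ := 60 / (61 + 11 * u.1)

noncomputable def Top (u : ℝ × ℝ) (r : ℝ) : E3 :=
  !₂[11 / 61 + 60 / 61 * (r * u.1), r * u.2, 65 / 244 + 11 / 61 * (r * u.1)]

noncomputable def Side (u : ℝ × ℝ) (r : ℝ) : E3 :=
  !₂[11 / 61 + 60 / 61 * (rho u * u.1), rho u * u.2, 5 / 4 - r]

noncomputable def Bot (u : ℝ × ℝ) (r : ℝ) : E3 :=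
  !₂[11 / 61 + 60 / 61 * ((5 / 2 - r) * u.1), (5 / 2 - r) * u.2,
    -(65 / 244 + 11 / 61 * ((5 / 2 - r) * u.1))]

noncomputable def MM (u : ℝ × ℝ) (r : ℝ) : E3 :=
  if r ≤ rho u then Top u r else if r ≤ 5 / 2 - rho u then Side u r else Bot u r

theorem Circ.abs {u : ℝ × ℝ} (hu : Circ u) : -1 ≤ u.1 ∧ u.1 ≤ 1 := by
  unfold Circ at hu
  constructor <;> nlinarith [sq_nonneg u.2]

theorem rho_eq {u : ℝ × ℝ} (hu : Circ u) : rho u * (61 + 11 * u.1) = 60 := by
  have := hu.abs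
  unfold rho
  rw [div_mul_cancel₀]
  linarith [this.1]

theorem rho_bounds {u : ℝ × ℝ} (hu : Circ u) : 5 / 6 ≤ rho u ∧ rho u ≤ 6 / 5 := by
  have := hu.abs
  have hp : 0 < 61 + 11 * u.1 := by linarith [this.1]
  unfold rho
  constructor
  · rw [le_div_iff₀ hp]; linarith [this.2]
  · rw [div_le_iff₀ hp]; linarith [this.1]

theorem MM_top {u : ℝ × ℝ} {r : ℝ} (h : r ≤ rho u) : MM u r = Top u r := if_pos h

theorem MM_side {u : ℝ × ℝ} (hu : Circ u) {r : ℝ} (h : rho u ≤ r) (h2 : r ≤ 5 / 2 - rho u) :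
    MM u r = Side u r := by
  unfold MM
  split_ifs with h3
  · have : r = rho u := le_antisymm h3 h
    subst this
    have := rho_eq hu
    ext i
    fin_cases i <;> simp [Top, Side]
    linarith
  · rfl

theorem MM_bot {u : ℝ × ℝ} (hu : Circ u) {r : ℝ} (h : 5 / 2 - rho u ≤ r) : MM u r = Bot u r := by
  have hb := rho_bounds hu
  unfold MM
  rw [if_neg (by linarith [hb.2])]
  split_ifs with h3
  · have : r = 5 / 2 - rho u := le_antisymm h3 h
    subst this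
    have := rho_eq hu
    ext i
    fin_cases i <;> simp [Bot, Side]
    linarith
  · rfl

theorem disc_id {u : ℝ × ℝ} (hu : Circ u) (t : ℝ) :
    61 ^ 2 * (1 - ((11 / 61 + 60 / 61 * (t * u.1)) ^ 2 + (t * u.2) ^ 2)) =
      (60 - t * (61 + 11 * u.1)) * (60 + t * (61 - 11 * u.1)) := by
  unfold Circ at hu
  linear_combination (-3721 * t ^ 2) * hu

theorem disc_le {u : ℝ × ℝ} (hu : Circ u) {t : ℝ} (h0 : 0 ≤ t) (h : t ≤ rho u) :
    (11 / 61 + 60 / 61 * (t * u.1)) ^ 2 + (t * u.2) ^ 2 ≤ 1 := by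
  have h1 := disc_id hu t
  have h2 := rho_eq hu
  have h3 := hu.abs
  have h4 : 0 ≤ 60 - t * (61 + 11 * u.1) := by nlinarith [h3.1]
  have h5 : 0 ≤ 60 + t * (61 - 11 * u.1) := by nlinarith [h3.2]
  nlinarith [mul_nonneg h4 h5]

theorem disc_lt {u : ℝ × ℝ} (hu : Circ u) {t : ℝ} (h0 : 0 ≤ t) (h : t < rho u) :
    (11 / 61 + 60 / 61 * (t * u.1)) ^ 2 + (t * u.2) ^ 2 < 1 := by
  have h1 := disc_id hu t
  have h2 := rho_eq hu
  have h3 := hu.abs
  have h4 : 0 < 60 - t * (61 + 11 * u.1) := by nlinarith [h3.1]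
  have h5 : 0 < 60 + t * (61 - 11 * u.1) := by nlinarith [h3.2]
  nlinarith [mul_pos h4 h5]

theorem disc_eq {u : ℝ × ℝ} (hu : Circ u) :
    (11 / 61 + 60 / 61 * (rho u * u.1)) ^ 2 + (rho u * u.2) ^ 2 = 1 := by
  have h1 := disc_id hu (rho u)
  rw [rho_eq hu] at h1
  linarith

theorem le_rho_of_disc {u : ℝ × ℝ} (hu : Circ u) {t : ℝ} (h0 : 0 ≤ t)
    (h : (11 / 61 + 60 / 61 * (t * u.1)) ^ 2 + (t * u.2) ^ 2 ≤ 1) : t ≤ rho u := by
  have h1 := disc_id hu t
  have h2 := rho_eq hu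
  have h3 := hu.abs
  have h5 : 0 < 60 + t * (61 - 11 * u.1) := by nlinarith [h3.2]
  by_contra hn
  push Not at hn
  have h4 : 60 - t * (61 + 11 * u.1) < 0 := by nlinarith [h3.1]
  nlinarith [mul_pos_of_neg_of_neg h4 (neg_neg_of_pos h5)]

theorem ht_pos {u : ℝ × ℝ} (hu : Circ u) {t : ℝ} (h0 : 0 ≤ t) (h : t ≤ rho u) :
    0 < 65 / 244 + 11 / 61 * (t * u.1) := by
  have h1 := (rho_bounds hu).2
  have h3 := hu.abs
  nlinarith [h3.1]

theorem Top_mem {u : ℝ × ℝ} (hu : Circ u) {t : ℝ} (h0 : 0 ≤ t) (h : t ≤ rho u) :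
    Top u t ∈ KK ∧ Top u t 2 = 7 / 30 + 11 / 60 * Top u t 0 := by
  have h1 := disc_le hu h0 h
  have h2 := ht_pos hu h0 h
  refine ⟨⟨?_, ?_, ?_⟩, ?_⟩ <;> simp only [Top, PiLp.toLp_apply, Matrix.cons_val_zero,
    Matrix.cons_val_one, Matrix.cons_val]
  · exact h1
  · linarith
  · linarith
  · ring

theorem Bot_mem {u : ℝ × ℝ} (hu : Circ u) {r : ℝ} (h0 : r ≤ 5 / 2) (h : 5 / 2 - rho u ≤ r) :
    Bot u r ∈ KK ∧ -Bot u r 2 = 7 / 30 + 11 / 60 * Bot u r 0 := by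
  have h1 := disc_le hu (t := 5 / 2 - r) (by linarith) (by linarith)
  have h2 := ht_pos hu (t := 5 / 2 - r) (by linarith) (by linarith)
  refine ⟨⟨?_, ?_, ?_⟩, ?_⟩ <;> simp only [Bot, PiLp.toLp_apply, Matrix.cons_val_zero,
    Matrix.cons_val_one, Matrix.cons_val]
  · exact h1
  · linarith
  · linarith
  · ring

theorem Side_mem {u : ℝ × ℝ} (hu : Circ u) {r : ℝ} (h0 : rho u ≤ r) (h : r ≤ 5 / 2 - rho u) :
    Side u r ∈ KK ∧ Side u r 0 ^ 2 + Side u r 1 ^ 2 = 1 := by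
  have h1 := disc_eq hu
  have h2 := rho_eq hu
  refine ⟨⟨?_, ?_, ?_⟩, ?_⟩ <;> simp only [Side, PiLp.toLp_apply, Matrix.cons_val_zero,
    Matrix.cons_val_one, Matrix.cons_val]
  · exact h1.le
  · linarith
  · linarith
  · exact h1

theorem dist_Top {u v : ℝ × ℝ} (hu : Circ u) (hv : Circ v) (r s : ℝ) :
    dist (Top u r) (Top v s) ^ 2 = (r - s) ^ 2 + r * s * ch2 u v := by
  rw [dist_sq3]
  simp only [Top, PiLp.toLp_apply, Matrix.cons_val_zero, Matrix.cons_val_one, Matrix.cons_val, ch2]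
  unfold Circ at hu hv
  linear_combination (r ^ 2 - r * s) * hu + (s ^ 2 - r * s) * hv

theorem dist_Bot {u v : ℝ × ℝ} (hu : Circ u) (hv : Circ v) (r s : ℝ) :
    dist (Bot u r) (Bot v s) ^ 2 = (r - s) ^ 2 + (5 / 2 - r) * (5 / 2 - s) * ch2 u v := by
  rw [dist_sq3]
  simp only [Bot, PiLp.toLp_apply, Matrix.cons_val_zero, Matrix.cons_val_one, Matrix.cons_val, ch2]
  unfold Circ at hu hv
  linear_combination ((5 / 2 - r) ^ 2 - (5 / 2 - r) * (5 / 2 - s)) * hu +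
    ((5 / 2 - s) ^ 2 - (5 / 2 - r) * (5 / 2 - s)) * hv

theorem dist_Side {u v : ℝ × ℝ} (hu : Circ u) (hv : Circ v) (r s : ℝ) :
    dist (Side u r) (Side v s) ^ 2 = (r - s) ^ 2 + rho u * rho v * ch2 u v := by
  have h1 := dist_Top hu hv (rho u) (rho v)
  have h2 := rho_eq hu
  have h3 := rho_eq hv
  rw [dist_sq3] at h1 ⊢
  simp only [Top, Side, PiLp.toLp_apply, Matrix.cons_val_zero, Matrix.cons_val_one,
    Matrix.cons_val] at h1 ⊢
  have e : 65 / 244 + 11 / 61 * (rho u * u.1) - (65 / 244 + 11 / 61 * (rho v * v.1)) =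
      -(rho u - rho v) := by linarith
  rw [e] at h1
  linarith

theorem ch2_self (u : ℝ × ℝ) : ch2 u u = 0 := by simp [ch2]

theorem ch2_nonneg (u v : ℝ × ℝ) : 0 ≤ ch2 u v := by unfold ch2; positivity

theorem MM_mem {u : ℝ × ℝ} (hu : Circ u) {r : ℝ} (hr : r ∈ Icc (0:ℝ) (5 / 2)) : MM u r ∈ SS := by
  rcases le_total r (rho u) with h | h
  · rw [MM_top h]
    exact ⟨(Top_mem hu hr.1 h).1, Or.inr (Or.inl (Top_mem hu hr.1 h).2)⟩
  · rcases le_total r (5 / 2 - rho u) with h2 | h2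
    · rw [MM_side hu h h2]
      exact ⟨(Side_mem hu h h2).1, Or.inl (Side_mem hu h h2).2⟩
    · rw [MM_bot hu h2]
      exact ⟨(Bot_mem hu hr.2 h2).1, Or.inr (Or.inr (Bot_mem hu hr.2 h2).2)⟩

theorem exists_polar (X Y : ℝ) : ∃ (u : ℝ × ℝ) (t : ℝ), Circ u ∧ 0 ≤ t ∧ t * u.1 = X ∧ t * u.2 = Y := by
  by_cases h : X ^ 2 + Y ^ 2 = 0
  · have hX : X = 0 := by nlinarith [sq_nonneg X, sq_nonneg Y]
    have hY : Y = 0 := by nlinarith [sq_nonneg X, sq_nonneg Y]
    exact ⟨(1, 0), 0, by simp [Circ], le_rfl, by simp [hX], by simp [hY]⟩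
  · have hp : 0 < X ^ 2 + Y ^ 2 := lt_of_le_of_ne (by positivity) (Ne.symm h)
    have hs : 0 < Real.sqrt (X ^ 2 + Y ^ 2) := Real.sqrt_pos.2 hp
    have hq := Real.sq_sqrt hp.le
    refine ⟨(X / Real.sqrt (X ^ 2 + Y ^ 2), Y / Real.sqrt (X ^ 2 + Y ^ 2)),
      Real.sqrt (X ^ 2 + Y ^ 2), ?_, hs.le, by field_simp, by field_simp⟩
    unfold Circ
    simp only [div_pow]
    rw [hq]
    field_simp

theorem MM_surj : ∀ x ∈ SS, ∃ u r, Circ u ∧ r ∈ Icc (0:ℝ) (5 / 2) ∧ MM u r = x := by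
  rintro x ⟨⟨h1, h2, h3⟩, h⟩
  obtain ⟨u, t, hu, ht, e1, e2⟩ := exists_polar ((x 0 - 11 / 61) * (61 / 60)) (x 1)
  have e0 : 11 / 61 + 60 / 61 * (t * u.1) = x 0 := by rw [e1]; ring
  have htr : t ≤ rho u := le_rho_of_disc hu ht (by rw [e0, e2]; exact h1)
  have hb := rho_bounds hu
  have hρ := rho_eq hu
  rcases h with h | h | h
  · have : t = rho u := by
      rcases eq_or_lt_of_le htr with h4 | h4
      · exact h4
      · have := disc_lt hu ht h4
        rw [e0, e2] at this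
        linarith
    subst this
    refine ⟨u, 5 / 4 - x 2, hu, ⟨by linarith [hb.1], by linarith [hb.1]⟩, ?_⟩
    rw [MM_side hu (by linarith) (by linarith)]
    ext i
    fin_cases i <;> simp [Side, e0, e2]
  · refine ⟨u, t, hu, ⟨ht, by linarith [hb.2]⟩, ?_⟩
    rw [MM_top htr]
    ext i
    fin_cases i <;> simp [Top, e0, e2]
    linarith
  · refine ⟨u, 5 / 2 - t, hu, ⟨by linarith [hb.2], by linarith⟩, ?_⟩
    rw [MM_bot hu (by linarith)]
    ext i
    fin_cases i <;> simp [Bot, e0, e2]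
    linarith

theorem lip_piece {u : ℝ × ℝ} (hu : Circ u) {r s : ℝ} (h0 : 0 ≤ r) (hrs : r ≤ s) (hs : s ≤ 5 / 2)
    (h : ∀ a ∈ Icc r s, ∀ b ∈ Icc r s, dist (MM u a) (MM u b) ^ 2 = (a - b) ^ 2) :
    idist SS (MM u r) (MM u s) ≤ ENNReal.ofReal (s - r) := by
  have := idist_le_of_lip (S := SS) (γ := MM u) hrs 1 zero_le_one
    (fun t ht => MM_mem hu ⟨by linarith [ht.1], by linarith [ht.2]⟩)
    (fun a ha b hb => by
      rw [one_mul]
      apply le_of_eq
      have := h a ha b hb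
      rw [← sq_abs (a - b)] at this
      exact (pow_left_inj₀ dist_nonneg (abs_nonneg _) two_ne_zero).1 this)
  simpa using this

theorem MM_lip (u : ℝ × ℝ) (r s : ℝ) (hu : Circ u) (h0 : 0 ≤ r) (hrs : r ≤ s) (hs : s ≤ 5 / 2) :
    idist SS (MM u r) (MM u s) ≤ ENNReal.ofReal (s - r) := by
  have hb := rho_bounds hu
  have p1 : ∀ r s, 0 ≤ r → r ≤ s → s ≤ rho u →
      idist SS (MM u r) (MM u s) ≤ ENNReal.ofReal (s - r) := fun r s h0 hrs hs =>
    lip_piece hu h0 hrs (by linarith [hb.2]) (fun a ha b hb => by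
      rw [MM_top (ha.2.trans hs), MM_top (hb.2.trans hs), dist_Top hu hu, ch2_self]; ring)
  have p2 : ∀ r s, rho u ≤ r → r ≤ s → s ≤ 5 / 2 - rho u →
      idist SS (MM u r) (MM u s) ≤ ENNReal.ofReal (s - r) := fun r s h0 hrs hs =>
    lip_piece hu (by linarith [hb.1]) hrs (by linarith [hb.1]) (fun a ha b hb => by
      rw [MM_side hu (h0.trans ha.1) (ha.2.trans hs), MM_side hu (h0.trans hb.1) (hb.2.trans hs),
        dist_Side hu hu, ch2_self]; ring)
  have p3 : ∀ r s, 5 / 2 - rho u ≤ r → r ≤ s → s ≤ 5 / 2 →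
      idist SS (MM u r) (MM u s) ≤ ENNReal.ofReal (s - r) := fun r s h0 hrs hs =>
    lip_piece hu (by linarith [hb.2]) hrs hs (fun a ha b hb => by
      rw [MM_bot hu (h0.trans ha.1), MM_bot hu (h0.trans hb.1), dist_Bot hu hu, ch2_self]; ring)
  have tr : ∀ a b c : ℝ, a ≤ b → b ≤ c → idist SS (MM u a) (MM u b) ≤ ENNReal.ofReal (b - a) →
      idist SS (MM u b) (MM u c) ≤ ENNReal.ofReal (c - b) →
      idist SS (MM u a) (MM u c) ≤ ENNReal.ofReal (c - a) := by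
    intro a b c hab hbc h1 h2
    refine (idist_triangle SS _ (MM u b) _).trans ?_
    rw [show c - a = (b - a) + (c - b) by ring, ENNReal.ofReal_add (by linarith) (by linarith)]
    gcongr
  have p23 : ∀ r s, rho u ≤ r → r ≤ s → s ≤ 5 / 2 →
      idist SS (MM u r) (MM u s) ≤ ENNReal.ofReal (s - r) := by
    intro r s h0 hrs hs
    rcases le_total s (5 / 2 - rho u) with h | h
    · exact p2 r s h0 hrs h
    · rcases le_total r (5 / 2 - rho u) with h2 | h2
      · exact tr r _ s h2 h (p2 r _ h0 h2 le_rfl) (p3 _ s le_rfl h hs)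
      · exact p3 r s h2 hrs hs
  rcases le_total s (rho u) with h | h
  · exact p1 r s h0 hrs h
  · rcases le_total r (rho u) with h2 | h2
    · exact tr r _ s h2 h (p1 r _ h0 h2 le_rfl) (p23 _ s le_rfl h hs)
    · exact p23 r s h2 hrs hs

theorem merid : Merid SS MM (5 / 2) where
  pos := by norm_num
  mem := fun _ _ hu hr => MM_mem hu hr
  surj := MM_surj
  lip := MM_lip
  north := by
    intro u v hu hv
    rw [MM_top (by linarith [(rho_bounds hu).1]), MM_top (by linarith [(rho_bounds hv).1])]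
    simp [Top]
  south := by
    intro u v hu hv
    rw [MM_bot hu (by linarith [(rho_bounds hu).1]), MM_bot hv (by linarith [(rho_bounds hv).1])]
    simp [Bot]
  flat := by
    refine ⟨5 / 6, by norm_num, fun u v r hu hv h0 hr => ?_⟩
    have h1 : r ≤ rho u := hr.trans (rho_bounds hu).1
    have h2 : r ≤ rho v := hr.trans (rho_bounds hv).1
    rw [MM_top h1, MM_top h2]
    have hd : dist (Top u r) (Top v r) = r * Real.sqrt (ch2 u v) := by
      have : dist (Top u r) (Top v r) ^ 2 = (r * Real.sqrt (ch2 u v)) ^ 2 := by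
        rw [dist_Top hu hv, mul_pow, Real.sq_sqrt (ch2_nonneg u v)]; ring
      exact (pow_left_inj₀ dist_nonneg (by positivity) two_ne_zero).1 this
    rw [← hd]
    apply idist_le_of_segment
    rintro x ⟨a, b, ha, hb, hab, rfl⟩
    obtain ⟨k1, k2⟩ := Top_mem hu h0 h1
    obtain ⟨k3, k4⟩ := Top_mem hv h0 h2
    refine ⟨KK_convex k1 k3 ha hb hab, Or.inr (Or.inl ?_)⟩
    simp only [PiLp.add_apply, PiLp.smul_apply, smul_eq_mul]
    rw [k2, k4]
    linear_combination (7 / 30) * hab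

theorem sin_bound {R : ℝ} (hR : 0 < R) {r : ℝ} (h0 : 0 ≤ r) (h1 : r ≤ Real.pi * R) :
    0 ≤ R * Real.sin (r / R) ∧ R * Real.sin (r / R) ≤ r ∧ R * Real.sin (r / R) ≤ R ∧
      R * Real.sin (r / R) ≤ Real.pi * R - r := by
  have h2 : r / R ≤ Real.pi := by rw [div_le_iff₀ hR]; exact h1
  have h3 : 0 ≤ r / R := by positivity
  refine ⟨mul_nonneg hR.le (Real.sin_nonneg_of_nonneg_of_le_pi h3 h2), ?_, ?_, ?_⟩
  · have := Real.sin_le h3
    calc R * Real.sin (r / R) ≤ R * (r / R) := by gcongr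
      _ = r := by field_simp
  · have := Real.sin_le_one (r / R)
    nlinarith
  · have := Real.sin_le (x := Real.pi - r / R) (by linarith)
    rw [Real.sin_pi_sub] at this
    calc R * Real.sin (r / R) ≤ R * (Real.pi - r / R) := by gcongr
      _ = Real.pi * R - r := by field_simp

noncomputable def RR : ℝ := 5 / 2 / Real.pi

theorem RR_pos : 0 < RR := by unfold RR; have := Real.pi_pos; positivity

theorem pi_RR : Real.pi * RR = 5 / 2 := by unfold RR; have := Real.pi_pos; field_simp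

theorem RR_le : RR ≤ 5 / 6 := by
  unfold RR
  rw [div_le_iff₀ Real.pi_pos]
  linarith [Real.pi_gt_three]

theorem piece {u v : ℝ × ℝ} (hu : Circ u) (hv : Circ v) {r s : ℝ} (hr : r ∈ Icc (0:ℝ) (5 / 2))
    (hs : s ∈ Icc (0:ℝ) (5 / 2)) {a b : ℝ} (ha : RR * Real.sin (r / RR) ≤ a)
    (hb : RR * Real.sin (s / RR) ≤ b) {x y : E3}
    (h : dist x y ^ 2 = (r - s) ^ 2 + a * b * ch2 u v) :
    RR * dist (Psi RR u r) (Psi RR v s) ≤ dist x y := by
  have h1 := dist_Psi_sq RR_pos hu hv r s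
  have h2 := (sin_bound RR_pos hr.1 (by rw [pi_RR]; exact hr.2)).1
  have h3 := (sin_bound RR_pos hs.1 (by rw [pi_RR]; exact hs.2)).1
  have h4 : RR * Real.sin (r / RR) * (RR * Real.sin (s / RR)) * ch2 u v ≤ a * b * ch2 u v :=
    mul_le_mul_of_nonneg_right (mul_le_mul ha hb h3 (h2.trans ha)) (ch2_nonneg u v)
  have h5 : (RR * dist (Psi RR u r) (Psi RR v s)) ^ 2 ≤ dist x y ^ 2 := by linarith
  exact (pow_le_pow_iff_left₀ (mul_nonneg RR_pos.le dist_nonneg) dist_nonneg two_ne_zero).1 h5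

theorem of_top {u : ℝ × ℝ} (hu : Circ u) {r : ℝ} (hr : r ∈ Icc (0:ℝ) (5 / 2))
    (h : MM u r 2 = 7 / 30 + 11 / 60 * MM u r 0) : r ≤ rho u := by
  by_contra hn
  push Not at hn
  have hρ := rho_eq hu
  rcases le_total r (5 / 2 - rho u) with h2 | h2
  · rw [MM_side hu hn.le h2] at h
    simp only [Side, PiLp.toLp_apply, Matrix.cons_val_zero, Matrix.cons_val] at h
    linarith
  · rw [MM_bot hu h2] at h
    have := ht_pos hu (t := 5 / 2 - r) (by linarith [hr.2]) (by linarith)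
    simp only [Bot, PiLp.toLp_apply, Matrix.cons_val_zero, Matrix.cons_val] at h
    linarith

theorem of_bot {u : ℝ × ℝ} (hu : Circ u) {r : ℝ} (hr : r ∈ Icc (0:ℝ) (5 / 2))
    (h : -MM u r 2 = 7 / 30 + 11 / 60 * MM u r 0) : 5 / 2 - rho u ≤ r := by
  by_contra hn
  push Not at hn
  have hρ := rho_eq hu
  rcases le_total r (rho u) with h2 | h2
  · rw [MM_top h2] at h
    have := ht_pos hu hr.1 h2
    simp only [Top, PiLp.toLp_apply, Matrix.cons_val_zero, Matrix.cons_val] at h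
    linarith
  · rw [MM_side hu h2 hn.le] at h
    simp only [Side, PiLp.toLp_apply, Matrix.cons_val_zero, Matrix.cons_val] at h
    linarith

theorem of_side {u : ℝ × ℝ} (hu : Circ u) {r : ℝ} (hr : r ∈ Icc (0:ℝ) (5 / 2))
    (h : MM u r 0 ^ 2 + MM u r 1 ^ 2 = 1) : rho u ≤ r ∧ r ≤ 5 / 2 - rho u := by
  constructor
  · by_contra hn
    push Not at hn
    rw [MM_top hn.le] at h
    have := disc_lt hu hr.1 hn
    simp only [Top, PiLp.toLp_apply, Matrix.cons_val_zero, Matrix.cons_val_one] at h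
    linarith
  · by_contra hn
    push Not at hn
    rw [MM_bot hu hn.le] at h
    have := disc_lt hu (t := 5 / 2 - r) (by linarith [hr.2]) (by linarith)
    simp only [Bot, PiLp.toLp_apply, Matrix.cons_val_zero, Matrix.cons_val_one] at h
    linarith

def pieces : List (Set E3) :=
  [{x | x 0 ^ 2 + x 1 ^ 2 = 1}, {x | x 2 = 7 / 30 + 11 / 60 * x 0},
    {x | -x 2 = 7 / 30 + 11 / 60 * x 0}]

theorem pieces_ineq {u v : ℝ × ℝ} (hu : Circ u) (hv : Circ v) {r s : ℝ}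
    (hr : r ∈ Icc (0:ℝ) (5 / 2)) (hs : s ∈ Icc (0:ℝ) (5 / 2)) :
    ∀ A ∈ pieces, MM u r ∈ A → MM v s ∈ A →
      RR * dist (Psi RR u r) (Psi RR v s) ≤ dist (MM u r) (MM v s) := by
  have b1 := sin_bound RR_pos hr.1 (by rw [pi_RR]; exact hr.2)
  have b2 := sin_bound RR_pos hs.1 (by rw [pi_RR]; exact hs.2)
  rw [pi_RR] at b1 b2
  intro A hA h1 h2
  simp only [pieces, List.mem_cons, List.not_mem_nil, or_false] at hA
  rcases hA with rfl | rfl | rfl
  · obtain ⟨k1, k2⟩ := of_side hu hr h1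
    obtain ⟨k3, k4⟩ := of_side hv hs h2
    rw [MM_side hu k1 k2, MM_side hv k3 k4]
    exact piece hu hv hr hs (b1.2.2.1.trans (RR_le.trans (rho_bounds hu).1))
      (b2.2.2.1.trans (RR_le.trans (rho_bounds hv).1)) (dist_Side hu hv r s)
  · rw [MM_top (of_top hu hr h1), MM_top (of_top hv hs h2)]
    exact piece hu hv hr hs b1.2.1 b2.2.1 (dist_Top hu hv r s)
  · rw [MM_bot hu (of_bot hu hr h1), MM_bot hv (of_bot hv hs h2)]
    exact piece hu hv hr hs b1.2.2.2 b2.2.2.2 (dist_Bot hu hv r s)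

theorem pieces_cover : ∀ x ∈ SS, ∃ A ∈ pieces, x ∈ A := by
  rintro x ⟨-, h | h | h⟩
  · exact ⟨_, List.mem_cons_self, h⟩
  · exact ⟨_, List.mem_cons_of_mem _ List.mem_cons_self, h⟩
  · exact ⟨_, List.mem_cons_of_mem _ (List.mem_cons_of_mem _ List.mem_cons_self), h⟩

theorem pieces_closed : ∀ A ∈ pieces, IsClosed A := by
  intro A hA
  simp only [pieces, List.mem_cons, List.not_mem_nil, or_false] at hA
  rcases hA with rfl | rfl | rfl <;> exact isClosed_eq (by fun_prop) (by fun_prop)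

theorem low (u : ℝ × ℝ) (r : ℝ) (hu : Circ u) (hr : r ∈ Icc (0:ℝ) (5 / 2)) :
    ENNReal.ofReal (5 / 2) ≤ idist SS (MM u r) (MM (-u) (5 / 2 - r)) := by
  have hex : ∀ x : E3, ∃ p : (ℝ × ℝ) × ℝ, x ∈ SS →
      Circ p.1 ∧ p.2 ∈ Icc (0:ℝ) (5 / 2) ∧ MM p.1 p.2 = x := by
    intro x
    by_cases hx : x ∈ SS
    · obtain ⟨u, r, h⟩ := MM_surj x hx
      exact ⟨(u, r), fun _ => h⟩
    · exact ⟨0, fun h => absurd h hx⟩
  choose P hP using hex
  let Φ : E3 → E3 := fun x => Psi RR (P x).1 (P x).2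
  have hΦ : ∀ u r, Circ u → r ∈ Icc (0:ℝ) (5 / 2) → Φ (MM u r) = Psi RR u r := by
    intro u r hu hr
    have hm := MM_mem hu hr
    obtain ⟨h1, h2, h3⟩ := hP _ hm
    obtain ⟨A, hA, hxA⟩ := pieces_cover _ hm
    have := pieces_ineq h1 hu h2 hr A hA (by rw [h3]; exact hxA) hxA
    rw [h3, dist_self] at this
    have h4 : dist (Psi RR (P (MM u r)).1 (P (MM u r)).2) (Psi RR u r) ≤ 0 := by
      by_contra hn
      push Not at hn
      nlinarith [RR_pos]
    exact dist_le_zero.1 h4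
  have hloc := loc_of_cover (S := SS) (P := fun x y => RR * dist (Φ x) (Φ y) ≤ dist x y) pieces
    pieces_closed pieces_cover (fun A hA x hx y hy hxA hyA => by
      obtain ⟨h1, h2, h3⟩ := hP _ hx
      obtain ⟨k1, k2, k3⟩ := hP _ hy
      have := pieces_ineq h1 k1 h2 k2 A hA (by rw [h3]; exact hxA) (by rw [k3]; exact hyA)
      rwa [h3, k3] at this)
  refine le_idist (fun γ hγ => ?_)
  have := angle_le_evar (Φ := Φ) RR_pos (fun x hx => norm_Psi RR (hP x hx).1 _) hloc zero_le_one hγ.1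
    hγ.2.2.2
  rw [hγ.2.1, hγ.2.2.1, hΦ u r hu hr, hΦ (-u) _ hu.neg ⟨by linarith [hr.2], by linarith [hr.1]⟩,
    ← pi_RR, Psi_neg RR_pos, InnerProductGeometry.angle_self_neg_of_nonzero (by
      intro h
      have := norm_Psi RR hu r
      rw [h] at this
      simp at this)] at this
  rwa [← pi_RR, mul_comm]

theorem not_rev : ¬ IsSurfaceOfRevolution SS := by
  intro h
  obtain ⟨a, p, ha, h⟩ := rev_coplanar h
  have ht : ∀ x y : ℝ, x ^ 2 + y ^ 2 ≤ 1 →
      (-11 / 60) * (a 1 * ((7 / 30 + 11 / 60 * x) - p 2) - a 2 * (y - p 1)) +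
        (a 0 * (y - p 1) - a 1 * (x - p 0)) = 0 := by
    intro x y hxy
    have hx : -1 ≤ x := by nlinarith [sq_nonneg y]
    have := h (-11 / 60) 0 1 !₂[x, y, 7 / 30 + 11 / 60 * x]
      ⟨⟨by simpa using hxy, by simp, by simp; linarith⟩, Or.inr (Or.inl (by simp))⟩
      (fun z hz => by have := hz.1.2.1; simp; linarith)
    simpa using this
  have hb : ∀ x y : ℝ, x ^ 2 + y ^ 2 ≤ 1 →
      (-11 / 60) * (a 1 * (-(7 / 30 + 11 / 60 * x) - p 2) - a 2 * (y - p 1)) -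
        (a 0 * (y - p 1) - a 1 * (x - p 0)) = 0 := by
    intro x y hxy
    have hx : -1 ≤ x := by nlinarith [sq_nonneg y]
    have := h (-11 / 60) 0 (-1) !₂[x, y, -(7 / 30 + 11 / 60 * x)]
      ⟨⟨by simpa using hxy, by simp; linarith, by simp⟩, Or.inr (Or.inr (by simp))⟩
      (fun z hz => by have := hz.1.2.2; simp; linarith)
    simp only [PiLp.toLp_apply, Matrix.cons_val_zero, Matrix.cons_val_one, Matrix.cons_val] at this
    linarith
  have t0 := ht 0 0 (by norm_num)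
  have t1 := ht 1 0 (by norm_num)
  have t2 := ht 0 1 (by norm_num)
  have b0 := hb 0 0 (by norm_num)
  have b2 := hb 0 1 (by norm_num)
  have e1 : a 1 = 0 := by linarith
  have e0 : a 0 = 0 := by linarith
  have e2 : a 2 = 0 := by linarith
  rw [e0, e1, e2] at ha
  norm_num at ha

theorem main : ∃ K : Set E3, Convex ℝ K ∧ IsCompact K ∧ (interior K).Nonempty ∧
    IsSteinhaus (frontier K) ∧ ¬ IsSurfaceOfRevolution (frontier K) := by
  refine ⟨KK, KK_convex, KK_compact, ?_, ?_, ?_⟩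
  · rw [interior_KK]
    exact ⟨0, by simp, by simp, by simp⟩
  · rw [frontier_KK]
    exact merid.steinhaus low
  · rw [frontier_KK]
    exact not_rev

end Pool.Agent.H436Z.Stein
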