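import Mathlib

set_option autoImplicit false

namespace Pool.Agent.H436Z.Stein

/-- Euclidean 3-space. -/
abbrev E3 : Type := EuclideanSpace ℝ (Fin 3)

/-- The intrinsic distance on `S`: the infimum of the lengths (total variations) of the continuous
curves `[0,1] → S` from `x` to `y`. -/
noncomputable def idist (S : Set E3) (x y : E3) : ENNReal :=
  ⨅ (γ : ℝ → E3)
    (_ : ContinuousOn γ (Set.Icc (0:ℝ) 1) ∧ γ 0 = x ∧ γ 1 = y ∧ ∀ t ∈ Set.Icc (0:ℝ) 1, γ t ∈ S),
    eVariationOn γ (Set.Icc (0:ℝ) 1)

/-- The set of antipodes of `p`: the points of `S` at maximal intrinsic distance from `p`. -/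
def antipodes (S : Set E3) (p : E3) : Set E3 :=
  {q | q ∈ S ∧ ∀ x ∈ S, idist S p x ≤ idist S p q}

/-- `S` is a Steinhaus surface: every point has exactly one antipode and the antipodal map is an
involution. -/
def IsSteinhaus (S : Set E3) : Prop :=
  ∃ F : E3 → E3, ∀ p ∈ S, antipodes S p = {F p} ∧ F (F p) = p

/-- The map `x ↦ p + Q (x - p)` of 3-space given by a matrix `Q` and a centre `p`. -/
noncomputable def rotate (Q : Matrix (Fin 3) (Fin 3) ℝ) (p x : E3) : E3 :=
  p + WithLp.toLp 2 (Q.mulVec (x - p).ofLp)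

/-- `S` is a surface of revolution: there is a line, through `p` with direction `a ≠ 0`, such that
`S` is invariant under every rotation about it, that is, under every map `x ↦ p + Q (x - p)` with
`Q` orthogonal of determinant one and `Q a = a`. -/
def IsSurfaceOfRevolution (S : Set E3) : Prop :=
  ∃ p a : E3, a ≠ 0 ∧ ∀ Q : Matrix (Fin 3) (Fin 3) ℝ,
    Q.transpose * Q = 1 → Q.det = 1 → Q.mulVec a.ofLp = a.ofLp → rotate Q p '' S = S

end Pool.Agent.H436Z.Stein
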